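import Pool.Agent.Lib.MP_80c395_co_GT.DefsG
import Pool.Agent.Lib.MP_80c395_co_BC.Galvin
import Pool.Agent.Lib.MP_80c395_co_BC.Orient

/-!
# MP_80c395_co, project GT: completion by the removed leaves
-/

set_option autoImplicit false

open Finset

namespace Pool.Agent.GT

open Pool.Agent.Lib.MP_80c395_co Pool.Agent.BC

theorem completeG {V X : Type} [Fintype V] [DecidableEq V] [Fintype X] [DecidableEq X] {R : ℕ}
    (S : V → RT X) (Xv : V → Finset X) (rem : V → Fin R → Finset X) (h : V → Fin R → V)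
    (φ : V → X → V) (pos : V → X → ℕ) (L : V → ℕ) (A : V → Finset V)
    (hdisj : ∀ v i j x, x ∈ rem v i → x ∈ rem v j → i = j)
    (hrem : ∀ v i x, x ∈ rem v i → x ≠ (S v).c ∧ (S v).p x ∈ xg Xv rem v ∧
      φ v ((S v).p x) = h v i)
    (hclo : ∀ v, Clo (S v) (xg Xv rem v)) (hinj : ∀ v, Set.InjOn (φ v) (xg Xv rem v))
    (hdst : Dst S (xg Xv rem) φ univ)
    (hA : ∀ v w, w ∈ A v → w ≠ v ∧ s(v, w) ∉ Edg S (xg Xv rem) φ univ)
    (hAF : ∀ v i, (rem v i).Nonempty → ∀ x ∈ xg Xv rem v, φ v x ∉ A (h v i))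
    (hpos1 : ∀ v i x, x ∈ rem v i → pos v x < L (h v i))
    (hpos2 : ∀ v v' i i' x x', x ∈ rem v i → x' ∈ rem v' i' → h v i = h v' i' →
      pos v x = pos v' x' → v = v' ∧ x = x')
    (hpos3 : ∀ v i i' x x', x ∈ rem v i → x' ∈ rem v i' → pos v x = pos v x' → x = x')
    (hall : ∀ B : Finset V, ∑ v ∈ B, L v ≤
      (B.biUnion fun v => (A v).image fun w => s(v, w)).card) :
    ∃ f : V → X → V, (∀ v, Set.InjOn (f v) (Xv v)) ∧
      ∀ v w, ∀ x ∈ Xv v, ∀ y ∈ Xv w, x ≠ (S v).c → y ≠ (S w).c →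
        s(f v ((S v).p x), f v x) = s(f w ((S w).p y), f w y) → v = w ∧ x = y := by
  classical
  obtain ⟨O, hO1, hO2, hO3⟩ := orient A L (fun v hv => (hA v v hv).1 rfl) hall
  let ix : {a : V × X // ∃ i, a.2 ∈ rem a.1 i} → Fin R := fun a => Classical.choose a.2
  have hix : ∀ a : {a : V × X // ∃ i, a.2 ∈ rem a.1 i}, a.1.2 ∈ rem a.1.1 (ix a) :=
    fun a => Classical.choose_spec a.2
  obtain ⟨g, hg1, hg2, hg3⟩ := galvin (E := {a : V × X // ∃ i, a.2 ∈ rem a.1 i})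
    (fun a => h a.1.1 (ix a)) (fun a => a.1.1) (fun a => pos a.1.1 a.1.2) O
    (by
      intro a
      rw [hO2]
      exact hpos1 _ _ _ (hix a))
    (by
      intro a b hab hp
      obtain ⟨h1, h2⟩ := hpos2 _ _ _ _ _ _ (hix a) (hix b) hab hp
      exact Subtype.ext (Prod.ext h1 h2))
    (by
      rintro ⟨⟨v, x⟩, ha⟩ ⟨⟨w, y⟩, hb⟩ hab hp
      simp only at hab hp
      subst hab
      have h2 := hpos3 _ _ _ _ _ (hix ⟨(v, x), ha⟩) (hix ⟨(v, y), hb⟩) hp
      simp only at h2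
      subst h2
      rfl)
  have hxe : ∀ v x, x ∈ Xv v → (x ∉ xg Xv rem v ↔ ∃ i, x ∈ rem v i) := by
    intro v x hx
    simp only [xg, mem_filter, hx, true_and, not_forall, not_not]
  let f : V → X → V := fun v x => if hx : ∃ i, x ∈ rem v i then g ⟨(v, x), hx⟩ else φ v x
  have hf1 : ∀ v x, x ∈ xg Xv rem v → f v x = φ v x := by
    intro v x hx
    have h1 : ¬ ∃ i, x ∈ rem v i := fun ⟨i, hi⟩ => (mem_filter.1 hx).2 i hi
    simp only [f, dif_neg h1]
  have hf2 : ∀ v x (hx : ∃ i, x ∈ rem v i), f v x = g ⟨(v, x), hx⟩ := by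
    intro v x hx
    simp only [f, dif_pos hx]
  have hf3 : ∀ v x i, x ∈ rem v i → f v x ∈ O (h v i) := by
    intro v x i hx
    have hx' : ∃ i, x ∈ rem v i := ⟨i, hx⟩
    rw [hf2 v x hx']
    have h1 := hg1 ⟨(v, x), hx'⟩
    have h2 := hdisj v _ _ _ (hix ⟨(v, x), hx'⟩) hx
    simp only at h1
    rw [h2] at h1
    exact h1
  have hrow : ∀ v x i (hx : x ∈ rem v i), h v (ix ⟨(v, x), ⟨i, hx⟩⟩) = h v i := by
    intro v x i hx
    have h2 := hdisj v _ _ _ (hix ⟨(v, x), ⟨i, hx⟩⟩) hx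
    rw [h2]
  have hfp : ∀ v x i, x ∈ rem v i → f v ((S v).p x) = h v i := by
    intro v x i hx
    obtain ⟨_, h2, h3⟩ := hrem v i x hx
    rw [hf1 v _ h2, h3]
  -- a present edge is not an edge of a removed leaf
  have hmix : ∀ v w x y i, x ≠ (S v).c → x ∈ xg Xv rem v → y ∈ rem w i →
      s(f v ((S v).p x), f v x) ≠ s(f w ((S w).p y), f w y) := by
    intro v w x y i hx0 hx hy heq
    have hpx : (S v).p x ∈ xg Xv rem v := (hclo v).2 x hx hx0
    rw [hf1 v _ hpx, hf1 v _ hx, hfp w y i hy] at heq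
    have h1 := (hA (h w i) (f w y) (hO1 _ (hf3 w y i hy))).2
    apply h1
    rw [← heq]
    simp only [Edg, mem_biUnion, mem_univ, true_and]
    refine ⟨v, ?_⟩
    simp only [edg, mem_image, mem_erase]
    exact ⟨x, ⟨hx0, hx⟩, rfl⟩
  refine ⟨f, ?_, ?_⟩
  · intro v x hxv y hyv hxy
    by_cases hx : x ∈ xg Xv rem v
    · by_cases hy : y ∈ xg Xv rem v
      · rw [hf1 v x hx, hf1 v y hy] at hxy
        exact hinj v hx hy hxy
      · exfalso
        obtain ⟨i, hi⟩ := (hxe v y hyv).1 hy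
        have h1 := hf3 v y i hi
        rw [← hxy, hf1 v x hx] at h1
        exact hAF v i ⟨y, hi⟩ x hx (hO1 _ h1)
    · by_cases hy : y ∈ xg Xv rem v
      · exfalso
        obtain ⟨i, hi⟩ := (hxe v x hxv).1 hx
        have h1 := hf3 v x i hi
        rw [hxy, hf1 v y hy] at h1
        exact hAF v i ⟨x, hi⟩ y hy (hO1 _ h1)
      · have hx' := (hxe v x hxv).1 hx
        have hy' := (hxe v y hyv).1 hy
        rw [hf2 v x hx', hf2 v y hy'] at hxy
        by_contra hne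
        refine hg3 ⟨(v, x), hx'⟩ ⟨(v, y), hy'⟩ ?_ rfl hxy
        intro heq
        exact hne (congrArg (fun a => a.1.2) heq)
  · intro v w x hxv y hyv hx0 hy0 heq
    by_cases hx : x ∈ xg Xv rem v
    · by_cases hy : y ∈ xg Xv rem w
      · have hpx : (S v).p x ∈ xg Xv rem v := (hclo v).2 x hx hx0
        have hpy : (S w).p y ∈ xg Xv rem w := (hclo w).2 y hy hy0
        rw [hf1 v _ hpx, hf1 v _ hx, hf1 w _ hpy, hf1 w _ hy] at heq
        exact hdst v (mem_univ _) w (mem_univ _) x hx hx0 y hy hy0 heq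
      · exfalso
        obtain ⟨i, hi⟩ := (hxe w y hyv).1 hy
        exact hmix v w x y i hx0 hx hi heq
    · by_cases hy : y ∈ xg Xv rem w
      · exfalso
        obtain ⟨i, hi⟩ := (hxe v x hxv).1 hx
        exact hmix w v y x i hy0 hy hi heq.symm
      · obtain ⟨i, hi⟩ := (hxe v x hxv).1 hx
        obtain ⟨j, hj⟩ := (hxe w y hyv).1 hy
        rw [hfp v x i hi, hfp w y j hj] at heq
        rcases Sym2.eq_iff.1 heq with ⟨h1, h2⟩ | ⟨h1, h2⟩
        · by_contra hne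
          rw [hf2 v x ⟨i, hi⟩, hf2 w y ⟨j, hj⟩] at h2
          refine hg2 ⟨(v, x), ⟨i, hi⟩⟩ ⟨(w, y), ⟨j, hj⟩⟩ ?_ ?_ h2
          · intro he
            exact hne ⟨congrArg (fun a => a.1.1) he, congrArg (fun a => a.1.2) he⟩
          · simp only
            rw [hrow v x i hi, hrow w y j hj]
            exact h1
        · exfalso
          have h3 := hf3 v x i hi
          have h4 := hf3 w y j hj
          rw [h2] at h3
          rw [← h1] at h4
          exact hO3 _ _ h3 h4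

end Pool.Agent.GT
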