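import Mathlib

/-!
# MP_80c395_co, project GT: the constants
-/

set_option autoImplicit false

namespace Pool.Agent.GT

/-- the constants, with the numbers as variables -/
private theorem core_num3_aux (R W P K1 K E n e q th ta p0 κ t la : ℕ) (hR : 1 ≤ R) (hW : 1 ≤ W)
    (hP : 1 ≤ P) (hPR : R ≤ P) (hK1 : K1 = 10 ^ 4 * R ^ 3 * W) (hK : K = 10 ^ 4 * R ^ 2 * K1)
    (hE : E = 10 ^ 4 * R * K1) (hn : 10 ^ 6 * K1 * R ^ 2 * P ≤ n) (he : E * e ≤ n)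
    (hq : q = n / K) (hth : th = n / K1) (hta : ta = n / (10 * R))
    (hp0 : p0 = R * (2 * th + 2 * P)) (hκ : κ = 2 * R * q + 2 * R + 2 * e)
    (ht : t = 2 * p0 + (e + R + 1)) (hla : la = (R + 11) * κ + R ^ 2 + R * (κ + 1)) :
    R ≤ q ∧ 0 < κ ∧ 100 * (κ + 2) ≤ n ∧
      (R + 1) * (2 * R ^ 2 + 2 * p0) + 2 * p0 + 3 * (e + R) + 2 * ta ≤ n / (3 * R) ∧
      6 * (p0 * (2 * W + 2) + 1) ≤ n ∧
      200 * ((R + 1) ^ 2 * (20 * κ + 20 * R ^ 2 + 20 + t) + p0) ≤ n ∧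
      100 * R * (p0 + 1) ≤ n ∧ 20 * la ≤ th ∧ 20 * (la + t) ≤ ta ∧ 5 * ta ≤ n ∧
      5 * th ≤ n := by
  have hR2 : 1 ≤ R ^ 2 := Nat.one_le_pow _ _ hR
  have hR3 : 1 ≤ R ^ 3 := Nat.one_le_pow _ _ hR
  have hR4 : 1 ≤ R ^ 4 := Nat.one_le_pow _ _ hR
  have hRR2 : R ≤ R ^ 2 := Nat.le_self_pow (by norm_num) R
  have hRR3 : R ≤ R ^ 3 := Nat.le_self_pow (by norm_num) R
  have hR24 : R ^ 2 ≤ R ^ 4 := Nat.pow_le_pow_right hR (by norm_num)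
  have hR34 : R ^ 3 ≤ R ^ 4 := Nat.pow_le_pow_right hR (by norm_num)
  have hRR4 : R ≤ R ^ 4 := hRR2.trans hR24
  have hK1pos : 0 < K1 := by rw [hK1]; positivity
  have hKpos : 0 < K := by rw [hK]; positivity
  -- `K1 ≥ 10 ^ 4 * R` and `K1 ≥ 10 ^ 4 * R ^ 3`
  have hK1R3 : 10 ^ 4 * R ^ 3 ≤ K1 := by
    rw [hK1]
    exact Nat.le_mul_of_pos_right _ hW
  have hK1R : 10 ^ 4 * R ≤ K1 := (Nat.mul_le_mul_left _ hRR3).trans hK1R3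
  have hth1 : K1 * th ≤ n := by rw [hth]; exact Nat.mul_div_le n K1
  have hKq : K * q ≤ n := by rw [hq]; exact Nat.mul_div_le n K
  have hta1 : 10 * R * ta ≤ n := by rw [hta]; exact Nat.mul_div_le n (10 * R)
  -- the size of `n`
  have hn1 : 10 ^ 6 * K1 * R ^ 2 ≤ n := by
    refine le_trans ?_ hn
    exact Nat.le_mul_of_pos_right _ hP
  have hKP : 2 * (K1 * P) ≤ n := by
    refine le_trans ?_ hn
    calc 2 * (K1 * P) = K1 * P * 2 := by ring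
      _ ≤ K1 * P * (10 ^ 6 * R ^ 2) := Nat.mul_le_mul_left _ (by omega)
      _ = 10 ^ 6 * K1 * R ^ 2 * P := by ring
  have hK2 : 100 * K ≤ n := by
    refine le_trans ?_ hn1
    rw [hK]
    apply le_of_eq
    ring
  have hnR : 10 ^ 10 * R ^ 4 ≤ n := by
    refine le_trans ?_ hn1
    calc 10 ^ 10 * R ^ 4 ≤ 10 ^ 10 * R ^ 5 :=
          Nat.mul_le_mul_left _ (Nat.pow_le_pow_right hR (by norm_num))
      _ = 10 ^ 6 * (10 ^ 4 * R ^ 3) * R ^ 2 := by ring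
      _ ≤ 10 ^ 6 * K1 * R ^ 2 := Nat.mul_le_mul_right _ (Nat.mul_le_mul_left _ hK1R3)
  -- the bound for `p0`
  have hA : 10 ^ 4 * R ^ 2 * W * p0 ≤ 3 * n := by
    calc 10 ^ 4 * R ^ 2 * W * p0 = 2 * (10 ^ 4 * R ^ 3 * W * th) +
          2 * (10 ^ 4 * R ^ 3 * W * P) := by rw [hp0]; ring
      _ = 2 * (K1 * th) + 2 * (K1 * P) := by rw [← hK1]
      _ ≤ 3 * n := by omega
  have hA1 : 10 ^ 4 * (R ^ 2 * p0) ≤ 3 * n := by
    refine le_trans ?_ hA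
    calc 10 ^ 4 * (R ^ 2 * p0) = 10 ^ 4 * R ^ 2 * 1 * p0 := by ring
      _ ≤ 10 ^ 4 * R ^ 2 * W * p0 := Nat.mul_le_mul_right _ (Nat.mul_le_mul_left _ hW)
  have hA2 : 10 ^ 4 * (W * p0) ≤ 3 * n := by
    refine le_trans ?_ hA
    calc 10 ^ 4 * (W * p0) = 10 ^ 4 * 1 * W * p0 := by ring
      _ ≤ 10 ^ 4 * R ^ 2 * W * p0 :=
          Nat.mul_le_mul_right _ (Nat.mul_le_mul_right _ (Nat.mul_le_mul_left _ hR2))
  -- the bound for `κ`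
  have hB : 10 ^ 4 * (K1 * (R * κ)) ≤ 5 * n := by
    calc 10 ^ 4 * (K1 * (R * κ)) = 2 * (10 ^ 4 * R ^ 2 * K1 * q) + 2 * (10 ^ 4 * R ^ 2 * K1) +
          2 * (10 ^ 4 * R * K1 * e) := by rw [hκ]; ring
      _ = 2 * (K * q) + 2 * K + 2 * (E * e) := by rw [← hK, ← hE]
      _ ≤ 5 * n := by omega
  have hB1 : 10 ^ 8 * (R ^ 2 * κ) ≤ 5 * n := by
    refine le_trans ?_ hB
    calc 10 ^ 8 * (R ^ 2 * κ) = 10 ^ 4 * (10 ^ 4 * R * (R * κ)) := by ring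
      _ ≤ 10 ^ 4 * (K1 * (R * κ)) := Nat.mul_le_mul_left _ (Nat.mul_le_mul_right _ hK1R)
  have hC1 : 10 ^ 8 * (R ^ 2 * e) ≤ n := by
    refine le_trans ?_ he
    calc 10 ^ 8 * (R ^ 2 * e) = 10 ^ 4 * R * (10 ^ 4 * R) * e := by ring
      _ ≤ 10 ^ 4 * R * K1 * e := Nat.mul_le_mul_right _ (Nat.mul_le_mul_left _ hK1R)
      _ = E * e := by rw [hE]
  -- monomials
  have hRp : R * p0 ≤ R ^ 2 * p0 := Nat.mul_le_mul_right _ hRR2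
  have hp : p0 ≤ R ^ 2 * p0 := Nat.le_mul_of_pos_left _ hR2
  have hpW : p0 ≤ W * p0 := Nat.le_mul_of_pos_left _ hW
  have hRe : R * e ≤ R ^ 2 * e := Nat.mul_le_mul_right _ hRR2
  have hee : e ≤ R ^ 2 * e := Nat.le_mul_of_pos_left _ hR2
  have hRκ : R * κ ≤ R ^ 2 * κ := Nat.mul_le_mul_right _ hRR2
  have hκκ : κ ≤ R ^ 2 * κ := Nat.le_mul_of_pos_left _ hR2
  have hκR : 2 * R ≤ κ := by rw [hκ]; omega
  have hlaR : la ≤ 14 * (R * κ) := by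
    have h1 : κ ≤ R * κ := Nat.le_mul_of_pos_left _ hR
    have h2 : R * (2 * R) ≤ R * κ := Nat.mul_le_mul_left _ hκR
    have h3 : R * (2 * R) = 2 * R ^ 2 := by ring
    have h4 : la = 2 * (R * κ) + 11 * κ + R ^ 2 + R := by rw [hla]; ring
    omega
  have hRla : R * la ≤ 14 * (R ^ 2 * κ) := by
    calc R * la ≤ R * (14 * (R * κ)) := Nat.mul_le_mul_left _ hlaR
      _ = 14 * (R ^ 2 * κ) := by ring
  refine ⟨?_, by omega, by omega, ?_, ?_, ?_, ?_, ?_, ?_, ?_, ?_⟩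
  · rw [hq, Nat.le_div_iff_mul_le hKpos]
    refine le_trans ?_ hn
    calc R * K = 10 ^ 4 * K1 * R ^ 2 * R := by rw [hK]; ring
      _ ≤ 10 ^ 4 * K1 * R ^ 2 * (10 ^ 2 * P) := Nat.mul_le_mul_left _ (by omega)
      _ = 10 ^ 6 * K1 * R ^ 2 * P := by ring
  · rw [Nat.le_div_iff_mul_le (by positivity)]
    have h1 : ((R + 1) * (2 * R ^ 2 + 2 * p0) + 2 * p0 + 3 * (e + R) + 2 * ta) * (3 * R) =
        6 * R ^ 4 + 6 * R ^ 3 + 6 * (R ^ 2 * p0) + 12 * (R * p0) + 9 * (R * e) + 9 * R ^ 2 +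
          6 * (R * ta) := by ring
    have h2 : 10 * R * ta = 10 * (R * ta) := by ring
    omega
  · have h1 : 6 * (p0 * (2 * W + 2) + 1) = 12 * (W * p0) + 12 * p0 + 6 := by ring
    omega
  · have h1 : 200 * ((R + 1) ^ 2 * (20 * κ + 20 * R ^ 2 + 20 + t) + p0) ≤
        200 * (4 * R ^ 2 * (20 * κ + 20 * R ^ 2 + 20 + t) + p0) := by
      have h2 : (R + 1) ^ 2 ≤ 4 * R ^ 2 := by nlinarith
      exact Nat.mul_le_mul_left _ (Nat.add_le_add_right (Nat.mul_le_mul_right _ h2) _)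
    refine h1.trans ?_
    have h3 : 200 * (4 * R ^ 2 * (20 * κ + 20 * R ^ 2 + 20 + t) + p0) =
        16000 * (R ^ 2 * κ) + 16000 * R ^ 4 + 16000 * R ^ 2 + 1600 * (R ^ 2 * p0) +
          800 * (R ^ 2 * e) + 800 * R ^ 3 + 800 * R ^ 2 + 200 * p0 := by rw [ht]; ring
    omega
  · have h1 : 100 * R * (p0 + 1) = 100 * (R * p0) + 100 * R := by ring
    omega
  · rw [hth, Nat.le_div_iff_mul_le hK1pos]
    have h1 : 20 * la * K1 ≤ 280 * (K1 * (R * κ)) := by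
      calc 20 * la * K1 = 20 * K1 * la := by ring
        _ ≤ 20 * K1 * (14 * (R * κ)) := Nat.mul_le_mul_left _ hlaR
        _ = 280 * (K1 * (R * κ)) := by ring
    omega
  · rw [hta, Nat.le_div_iff_mul_le (by positivity)]
    have h1 : 20 * (la + t) * (10 * R) = 200 * (R * la) + 400 * (R * p0) + 200 * (R * e) +
        200 * R ^ 2 + 200 * R := by rw [ht]; ring
    omega
  · have h1 : ta ≤ R * ta := Nat.le_mul_of_pos_left _ hR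
    have h2 : 10 * R * ta = 10 * (R * ta) := by ring
    omega
  · have h1 : 5 * th ≤ K1 * th := Nat.mul_le_mul_right _ (by omega)
    omega

theorem core_num3 (R : ℕ) (hR : 1 ≤ R) :
    ∃ K1 K E n0 : ℕ, 0 < K1 ∧ 0 < K ∧ 0 < E ∧ ∀ n, n0 ≤ n → ∀ e, E * e ≤ n →
      ∀ q th ta p0 κ t la : ℕ, q = n / K → th = n / K1 → ta = n / (10 * R) →
      p0 = R * (2 * th + 2 * (4 * K + 1) ^ R * 9 ^ (R + 1)) → κ = 2 * R * q + 2 * R + 2 * e →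
      t = 2 * p0 + (e + R + 1) → la = (R + 11) * κ + R ^ 2 + R * (κ + 1) →
      R ≤ q ∧ 0 < κ ∧ 100 * (κ + 2) ≤ n ∧
      (R + 1) * (2 * R ^ 2 + 2 * p0) + 2 * p0 + 3 * (e + R) + 2 * ta ≤ n / (3 * R) ∧
      6 * (p0 * (2 * 9 ^ (R + 1) + 2) + 1) ≤ n ∧
      200 * ((R + 1) ^ 2 * (20 * κ + 20 * R ^ 2 + 20 + t) + p0) ≤ n ∧
      100 * R * (p0 + 1) ≤ n ∧ 20 * la ≤ th ∧ 20 * (la + t) ≤ ta ∧ 5 * ta ≤ n ∧
      5 * th ≤ n := by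
  obtain ⟨W, hW⟩ : ∃ W, W = 9 ^ (R + 1) := ⟨_, rfl⟩
  obtain ⟨K1, hK1⟩ : ∃ K1, K1 = 10 ^ 4 * R ^ 3 * W := ⟨_, rfl⟩
  obtain ⟨K, hK⟩ : ∃ K, K = 10 ^ 4 * R ^ 2 * K1 := ⟨_, rfl⟩
  obtain ⟨E, hE⟩ : ∃ E, E = 10 ^ 4 * R * K1 := ⟨_, rfl⟩
  obtain ⟨P, hP⟩ : ∃ P, P = (4 * K + 1) ^ R * 9 ^ (R + 1) := ⟨_, rfl⟩
  have hW1 : 1 ≤ W := by rw [hW]; exact Nat.one_le_pow _ _ (by norm_num)
  have hPW : 9 ^ (R + 1) ≤ P := by
    rw [hP]
    exact Nat.le_mul_of_pos_left _ (by positivity)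
  have hR9 : R + 1 < 9 ^ (R + 1) := Nat.lt_pow_self (by norm_num)
  have hP1 : 1 ≤ P := by omega
  have hPR : R ≤ P := by omega
  have hK1p : 0 < K1 := by rw [hK1]; positivity
  refine ⟨K1, K, E, 10 ^ 6 * K1 * R ^ 2 * P, hK1p, by rw [hK]; positivity,
    by rw [hE]; positivity, ?_⟩
  intro n hn e he q th ta p0 κ t la hq hth hta hp0 hκ ht hla
  rw [← hW]
  refine core_num3_aux R W P K1 K E n e q th ta p0 κ t la hR hW1 hP1 hPR hK1 hK hE hn he hq hth hta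
    ?_ hκ ht hla
  rw [hp0, hP]
  ring

end Pool.Agent.GT
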