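import Pool.Agent.Lib.MP_80c395_co_GT.DefsG
import Pool.Agent.Lib.MP_80c395_co_BC.Classes
import Pool.Agent.Lib.MP_80c395_co_BC.TreeFacts
import Pool.Agent.Lib.MP_80c395_co_BC.Heavy

/-!
# MP_80c395_co, project GT: existence of the data
-/

set_option autoImplicit false

open Finset

namespace Pool.Agent.GT

open Pool.Agent.Lib.MP_80c395_co Pool.Agent.BC

/-- children are neighbours -/
private theorem xg_nch {X : Type} [Fintype X] [DecidableEq X] (S : RT X) (T : SimpleGraph X)
    (h : ∀ x, x ≠ S.c → T.Adj x (S.p x)) (x : X) :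
    nch S univ x ≤ (T.neighborSet x).ncard := by
  unfold nch
  rw [← Set.ncard_coe_finset]
  apply Set.ncard_le_ncard _ (Set.toFinite _)
  intro y hy
  rw [Finset.mem_coe, mem_filter] at hy
  rw [SimpleGraph.mem_neighborSet]
  have := h y hy.2.1
  rw [hy.2.2] at this
  exact this.symm

private theorem xg_mem {X : Type} [Fintype X] [DecidableEq X] {R : ℕ} {T : SimpleGraph X}
    {c : Fin R → X} {i : Fin R} {y : X} :
    y ∈ lf T c i ↔ (∀ j, c j ≠ y) ∧ ∀ w, T.Adj y w ↔ w = c i := by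
  classical
  unfold lf
  rw [mem_filter]
  exact ⟨fun h => h.2, fun h => ⟨mem_univ _, h⟩⟩

/-- the numbers -/
private theorem xg_num {n K q : ℕ} (hK : 0 < K) (hq : q = n / K)
    (hqpos : 1 ≤ q) {l : ℕ} (hl : l ≤ 2 * n + 1) : l / q < 4 * K + 1 := by
  have h1 : n < K * (n / K + 1) := Nat.lt_mul_div_succ n hK
  rw [← hq] at h1
  have h2 : l ≤ q * (4 * K) := by
    have h3 : K * 1 ≤ K * q := Nat.mul_le_mul_left K hqpos
    have h4 : K * (q + 1) = K * q + K := by ring
    have h5 : q * (4 * K) = 4 * (K * q) := by ring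
    omega
  have := Nat.div_le_of_le_mul h2
  omega

private theorem xg_b {q l : ℕ} (hq : 1 ≤ q) : l + 1 ≤ (l / q - 1) * q + 2 * q := by
  have h1 : l < q * (l / q + 1) := Nat.lt_mul_div_succ l (by omega)
  rcases Nat.eq_zero_or_pos (l / q) with h0 | h0
  · rw [h0] at h1 ⊢
    simp at h1 ⊢
    omega
  · obtain ⟨t, ht⟩ := Nat.exists_eq_succ_of_ne_zero (Nat.pos_iff_ne_zero.1 h0)
    rw [ht] at h1 ⊢
    simp only [Nat.succ_eq_add_one, Nat.add_sub_cancel] at h1 ⊢
    have : q * (t + 1 + 1) = t * q + 2 * q := by ring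
    omega

/-- the vertices of the real tree -/
private theorem xg_sum {X : Type} [Fintype X] [DecidableEq X] {R : ℕ} (T : SimpleGraph X)
    (c : Fin R → X) (hT : T.IsTree) (hc : Function.Injective c) (hX : 2 ≤ Fintype.card X) (e : ℕ)
    (he : {ed ∈ T.edgeSet | ∀ i, c i ∉ ed}.ncard ≤ e) (hR : 1 ≤ R) (W : Finset X) :
    W.card ≤ ∑ i, (lf T c i ∩ W).card + 2 * R + 2 * e := by
  have h1 := sum_lf T c hT hc hX e he hR
  have h2 : ∀ i, (lf T c i).card = (lf T c i ∩ W).card + (lf T c i \ W).card := fun i =>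
    (Finset.card_inter_add_card_sdiff _ _).symm
  have h3 : (univ.biUnion fun i => lf T c i \ W).card = ∑ i, (lf T c i \ W).card := by
    apply card_biUnion
    intro i _ j _ hij
    change Disjoint (lf T c i \ W) (lf T c j \ W)
    rw [Finset.disjoint_left]
    intro y hi hj
    exact hij (lf_disj T c hc (mem_sdiff.1 hi).1 (mem_sdiff.1 hj).1)
  have h4 : (univ.biUnion fun i => lf T c i \ W).card ≤ Wᶜ.card := by
    apply card_le_card
    intro y hy
    rw [mem_biUnion] at hy
    obtain ⟨i, _, hi⟩ := hy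
    exact mem_compl.2 (mem_sdiff.1 hi).2
  rw [Finset.sum_congr rfl (fun i _ => h2 i), Finset.sum_add_distrib] at h1
  have h5 := Finset.card_add_card_compl W
  omega

/-- the choice of the removed leaves for one tree -/
private theorem xg_choice {X : Type} [Fintype X] [DecidableEq X] {R : ℕ}
    (L : Fin R → Finset X) (D : Fin R → ℕ) (P : Prop) (i0 : Fin R)
    (hD : ∀ i, D i ≤ (L i).card) :
    ∃ rem : Fin R → Finset X, (∀ i, rem i ⊆ L i) ∧ (P → ∀ i, (rem i).card = D i) ∧
      (¬ P → rem i0 = L i0 ∧ ∀ i, i ≠ i0 → rem i = ∅) := by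
  by_cases hP : P
  · have h3 : ∀ i, ∃ t ⊆ L i, t.card = D i := fun i => Finset.exists_subset_card_eq (hD i)
    choose rem hs hc using h3
    exact ⟨rem, hs, fun _ => hc, fun h => absurd hP h⟩
  · refine ⟨fun i => if i = i0 then L i0 else ∅, ?_, fun h => absurd h hP, fun _ => ?_⟩
    · intro i
      dsimp only
      split_ifs with h
      · rw [h]
      · exact Finset.empty_subset _
    · exact ⟨by simp, fun i hi => by simp [hi]⟩

/-- the number of vertices which are not removed -/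
private theorem xg_card {V X : Type} [Fintype V] [DecidableEq V] [Fintype X] [DecidableEq X]
    {R : ℕ} (Xv : V → Finset X) (rem : V → Fin R → Finset X) (v : V)
    (hsub : ∀ i, rem v i ⊆ Xv v)
    (hdisj : ∀ i j, ∀ y, y ∈ rem v i → y ∈ rem v j → i = j) :
    (xg Xv rem v).card + ∑ i, (rem v i).card = (Xv v).card := by
  have h1 : (univ.biUnion fun i => rem v i).card = ∑ i, (rem v i).card := by
    apply card_biUnion
    intro i _ j _ hij
    change Disjoint (rem v i) (rem v j)
    rw [Finset.disjoint_left]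
    intro y hi hj
    exact hij (hdisj i j y hi hj)
  have h2 : Disjoint (xg Xv rem v) (univ.biUnion fun i => rem v i) := by
    rw [Finset.disjoint_left]
    intro y hy hy'
    rw [mem_biUnion] at hy'
    obtain ⟨i, _, hi⟩ := hy'
    unfold xg at hy
    exact (mem_filter.1 hy).2 i hi
  have h3 : xg Xv rem v ∪ (univ.biUnion fun i => rem v i) = Xv v := by
    ext y
    rw [mem_union, mem_biUnion]
    constructor
    · rintro (h | ⟨i, _, hi⟩)
      · unfold xg at h
        exact (mem_filter.1 h).1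
      · exact hsub i hi
    · intro h
      by_cases hy : ∀ i, y ∉ rem v i
      · left
        unfold xg
        exact mem_filter.2 ⟨h, hy⟩
      · right
        push Not at hy
        obtain ⟨i, hi⟩ := hy
        exact ⟨i, mem_univ _, hi⟩
  rw [← h1, ← card_union_of_disjoint h2, h3]

theorem exists_datG {V X : Type} [Fintype V] [DecidableEq V] [Fintype X] [DecidableEq X] {R : ℕ}
    (n K q p0 e h0 : ℕ) (hR : 1 ≤ R) (hV : Fintype.card V = 2 * n + 1)
    (hX : Fintype.card X = 2 * n + 1) (hK : 0 < K) (hq : q = n / K) (hqR : R ≤ q)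
    (hn : 100 * (2 * R * q + 2 * R + 2 * e + 2) ≤ n)
    (Hv : Finset V) (hHv : Hv.card ≤ h0)
    (hp0 : R * (h0 + 2 * (4 * K + 1) ^ R * 9 ^ (R + 1)) ≤ p0)
    (T : V → SimpleGraph X) (hT : ∀ v, (T v).IsTree) (c : V → Fin R → X)
    (hc : ∀ v, Function.Injective (c v)) (i0 : V → Fin R) (Xv : V → Finset X)
    (hcX : ∀ v i, c v i ∈ Xv v)
    (hdum : ∀ v x, x ∉ Xv v → ∀ w, (T v).Adj x w ↔ w = c v (i0 v))
    (he : ∀ v, {ed ∈ (T v).edgeSet | ∀ i, c v i ∉ ed}.ncard ≤ e)
    (hdeg : ∀ v i, i ≠ i0 v → 100 * ((T v).neighborSet (c v i)).ncard + 100 ≤ 56 * n)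
    (hlea : ∀ v, n ≤ 3 * R * (lf (T v) (c v) (i0 v) ∩ Xv v).card) :
    ∃ (S : V → RT X) (lv rem : V → Fin R → Finset X) (U : Finset V) (π : Equiv.Perm V),
      DatG n (2 * R * q + 2 * R + 2 * e) p0 e S c Xv lv rem i0 U π ∧
      (∀ v ∈ Hv, v ∉ U) ∧ (∀ v, v ∉ U → n ≤ 3 * R * (rem v (i0 v)).card) ∧
      ∀ v a b, (T v).Adj a b → adjc (S v) a b := by
  classical
  have hqpos : 1 ≤ q := by omega
  obtain ⟨Q, hQ⟩ : ∃ Q, Q = R * q := ⟨_, rfl⟩
  have hκQ : 2 * R * q = 2 * Q := by
    rw [hQ]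
    ring
  have hQq : q ≤ Q := by
    rw [hQ]
    exact Nat.le_mul_of_pos_left _ hR
  have hX2 : 2 ≤ Fintype.card X := by omega
  obtain ⟨lv, hlvdef⟩ : ∃ lv : V → Fin R → Finset X,
      ∀ v i, lv v i = lf (T v) (c v) i ∩ Xv v := ⟨_, fun _ _ => rfl⟩
  have hlvf : ∀ v i x, x ∈ lv v i → x ∈ lf (T v) (c v) i := fun v i x hx => by
    rw [hlvdef] at hx
    exact (mem_inter.1 hx).1
  have hlvX : ∀ v i, lv v i ⊆ Xv v := fun v i x hx => by
    rw [hlvdef] at hx
    exact (mem_inter.1 hx).2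
  have hell : ∀ v i, (lv v i).card ≤ 2 * n + 1 := fun v i => by
    rw [← hX]; exact Finset.card_le_univ _
  have hsum : ∀ v, (Xv v).card ≤ ∑ i, (lv v i).card + 2 * R + 2 * e := fun v => by
    have h1 := xg_sum (T v) (c v) (hT v) (hc v) hX2 e (he v) hR (Xv v)
    simp only [hlvdef]
    exact h1
  have hbig : ∀ v, n ≤ 3 * R * (lv v (i0 v)).card := fun v => by
    rw [hlvdef]
    exact hlea v
  have hbigq : ∀ v, 2 * q ≤ (lv v (i0 v)).card := by
    intro v
    have h1 := hbig v
    by_contra hcon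
    push Not at hcon
    have h2 : 3 * R * (lv v (i0 v)).card ≤ 3 * R * (2 * q) := Nat.mul_le_mul_left _ hcon.le
    have h3 : 3 * R * (2 * q) = 6 * Q := by
      rw [hQ]
      ring
    omega
  -- the classes
  obtain ⟨a, ha⟩ : ∃ a : V → Fin R → Fin (4 * K + 1),
      ∀ v i, ((a v i : Fin (4 * K + 1)) : ℕ) = (lv v i).card / q :=
    ⟨fun v i => ⟨(lv v i).card / q, xg_num hK hq hqpos (hell v i)⟩, fun _ _ => rfl⟩
  obtain ⟨U0, π, hcyc, hcl, hUc⟩ :=
    exists_cyc (fun v => (a v, decide (v ∈ Hv))) (9 ^ (R + 1))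
  have hcard : Fintype.card ((Fin R → Fin (4 * K + 1)) × Bool) = (4 * K + 1) ^ R * 2 := by simp
  rw [hcard] at hUc
  have hcl1 : ∀ v ∈ U0, a (π v) = a v := fun v hv => congrArg Prod.fst (hcl v hv)
  have hcl2 : ∀ v ∈ U0, (π v ∈ Hv ↔ v ∈ Hv) := fun v hv => by
    have h1 := congrArg Prod.snd (hcl v hv)
    exact decide_eq_decide.1 h1
  obtain ⟨U, hU⟩ : ∃ U : Finset V, ∀ v, v ∈ U ↔ v ∈ U0 ∧ v ∉ Hv :=
    ⟨U0.filter fun v => v ∉ Hv, fun v => mem_filter⟩
  have hUU0 : ∀ v ∈ U, v ∈ U0 := fun v hv => ((hU v).1 hv).1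
  have hcycU : Cyc π U (9 ^ (R + 1)) := by
    refine ⟨fun u => ?_, fun u hu => hcyc.long u (hUU0 u hu)⟩
    rw [hU, hU, hcyc.inv]
    constructor
    · rintro ⟨h1, h2⟩
      exact ⟨h1, fun h => h2 ((hcl2 u h1).2 h)⟩
    · rintro ⟨h1, h2⟩
      exact ⟨h1, fun h => h2 ((hcl2 u h1).1 h)⟩
  have hcU : Uᶜ.card ≤ h0 + 2 * (4 * K + 1) ^ R * 9 ^ (R + 1) := by
    have h1 : Uᶜ ⊆ U0ᶜ ∪ Hv := by
      intro v hv
      rw [mem_compl, hU] at hv
      rw [mem_union, mem_compl]
      by_cases h : v ∈ U0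
      · right
        by_contra h'
        exact hv ⟨h, h'⟩
      · exact Or.inl h
    have h2 := (card_le_card h1).trans (card_union_le _ _)
    have h3 : (4 * K + 1) ^ R * 2 * 9 ^ (R + 1) = 2 * (4 * K + 1) ^ R * 9 ^ (R + 1) := by ring
    omega
  -- the removed leaves
  have hDl : ∀ v i, ((a v i : ℕ) - 1) * q ≤ (lv v i).card := by
    intro v i
    rw [ha]
    calc ((lv v i).card / q - 1) * q ≤ (lv v i).card / q * q :=
          Nat.mul_le_mul_right q (Nat.sub_le _ _)
      _ ≤ (lv v i).card := Nat.div_mul_le_self _ _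
  have hch : ∀ v, ∃ rem : Fin R → Finset X, (∀ i, rem i ⊆ lv v i) ∧
      (v ∈ U → ∀ i, (rem i).card = ((a v i : ℕ) - 1) * q) ∧
      (v ∉ U → rem (i0 v) = lv v (i0 v) ∧ ∀ i, i ≠ i0 v → rem i = ∅) := fun v =>
    xg_choice (lv v) (fun i => ((a v i : ℕ) - 1) * q) (v ∈ U) (i0 v) (hDl v)
  choose rem hsub hremU hremE using hch
  -- the rooted trees
  have hS : ∀ v, ∃ S : RT X, S.c = c v (i0 v) ∧ (∀ x, x ≠ c v (i0 v) → (T v).Adj x (S.p x)) ∧
      ∀ x y, (T v).Adj x y → (x ≠ c v (i0 v) ∧ S.p x = y) ∨ (y ≠ c v (i0 v) ∧ S.p y = x) := by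
    intro v
    obtain ⟨S, h1, h2, h3, -⟩ := exists_RT (T v) (hT v) (c v (i0 v))
    exact ⟨S, h1, h2, h3⟩
  choose S hSc hSp hSe using hS
  have hSp' : ∀ v x, x ≠ (S v).c → (T v).Adj x ((S v).p x) := fun v x hx =>
    hSp v x (by rw [← hSc v]; exact hx)
  have hlvp : ∀ v i x, x ∈ lv v i → (S v).p x = c v i := by
    intro v i x hx
    obtain ⟨h1, h2⟩ := xg_mem.1 (hlvf v i x hx)
    have hx0 : x ≠ (S v).c := by rw [hSc v]; exact fun h => h1 (i0 v) h.symm
    exact (h2 _).1 (hSp' v x hx0)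
  have hrdisj : ∀ v i j, ∀ y, y ∈ rem v i → y ∈ rem v j → i = j := fun v i j y hi hj =>
    lf_disj (T v) (c v) (hc v) (hlvf v i y (hsub v i hi)) (hlvf v j y (hsub v j hj))
  refine ⟨S, lv, rem, U, π, ?_, ?_, ?_, ?_⟩
  · refine
      { cV := hV
        cyc := hcycU
        cU := (Nat.mul_le_mul_left R hcU).trans hp0
        cX := hcX
        cinj := hc
        root := hSc
        clo := ?_
        lvX := hlvX
        lv_nc := fun v i x hx => (xg_mem.1 (hlvf v i x hx)).1
        lv_p := hlvp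
        lv_ch := ?_
        sub := hsub
        act := ?_
        rpi := ?_
        tot := ?_
        spare := ?_
        exc0 := fun v hv => (hremE v hv).1
        exc1 := fun v hv => (hremE v hv).2
        nchn := ?_
        nchc := ?_
        hvy := ?_ }
    · -- clo
      intro v
      refine ⟨by rw [hSc v]; exact hcX v (i0 v), fun x hx hxc => ?_⟩
      by_contra hcon
      have h1 := (hdum v _ hcon x).1 (hSp' v x hxc).symm
      exact hxc (by rw [hSc v]; exact h1)
    · -- lv_ch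
      intro v i x hx y hy hyx
      obtain ⟨h1, h2⟩ := xg_mem.1 (hlvf v i x hx)
      have hx0 : x ≠ (S v).c := by rw [hSc v]; exact fun h => h1 (i0 v) h.symm
      have h3 := hSp' v y hy
      rw [hyx] at h3
      have h4 : y = c v i := (h2 y).1 h3.symm
      have h5 := (S v).lt y hy
      have h6 := (S v).lt x hx0
      rw [hyx] at h5
      rw [hlvp v i x hx, ← h4] at h6
      omega
    · -- act
      intro v
      by_cases hv : v ∈ U
      · rw [← Finset.card_pos, hremU v hv, ha]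
        have h1 : 2 ≤ (lv v (i0 v)).card / q := by
          rw [Nat.le_div_iff_mul_le (by omega)]
          exact hbigq v
        exact Nat.mul_pos (by omega) (by omega)
      · rw [← Finset.card_pos, (hremE v hv).1]
        have := hbigq v
        omega
    · -- rpi
      intro v hv i
      rw [hremU (π v) ((hcycU.inv v).2 hv) i, hremU v hv i, hcl1 v (hUU0 v hv)]
    · -- tot
      intro v hv
      have h1 := xg_card Xv rem v (fun i => (hsub v i).trans (hlvX v i)) (hrdisj v)
      have h2 := hsum v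
      have h3 : ∑ i : Fin R, ((lv v i).card + 1) ≤
          ∑ i : Fin R, ((rem v i).card + 2 * q) := by
        apply Finset.sum_le_sum
        intro i _
        rw [hremU v hv, ha]
        exact xg_b hqpos
      rw [Finset.sum_add_distrib, Finset.sum_add_distrib] at h3
      simp only [Finset.sum_const, Finset.card_univ, Fintype.card_fin, smul_eq_mul, mul_one] at h3
      have h4 : R * (2 * q) = 2 * Q := by
        rw [hQ]
        ring
      omega
    · -- spare
      intro v hv i hi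
      have h1 : 0 < ((a v i : ℕ) - 1) * q := by
        rw [← hremU v hv i]; exact Finset.card_pos.2 hi
      have h3 : (lv v i).card / q * q ≤ (lv v i).card := Nat.div_mul_le_self _ _
      rw [Finset.card_sdiff_of_subset (hsub v i), hremU v hv i]
      rw [ha] at h1 ⊢
      have h4 : (lv v i).card / q - 1 ≠ 0 := by
        intro h0
        rw [h0, zero_mul] at h1
        omega
      have h5 : ((lv v i).card / q - 1) * q + q = (lv v i).card / q * q := by
        obtain ⟨t, ht⟩ : ∃ t, (lv v i).card / q = t + 1 :=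
          ⟨(lv v i).card / q - 1, by omega⟩
        rw [ht, Nat.add_sub_cancel]
        ring
      omega
    · -- nchn
      intro v x hx
      exact (xg_nch (S v) (T v) (hSp' v) x).trans (deg_nc (T v) (c v) e (he v) hx)
    · -- nchc
      intro v _ i hi
      have h1 := xg_nch (S v) (T v) (hSp' v) (c v i)
      have h2 := hdeg v i hi
      omega
    · -- hvy
      intro v
      rw [Finset.sum_add_distrib, Finset.sum_const, smul_eq_mul, mul_one]
      have hmem : ∀ x ∈ hvg c Xv lv v, (∀ i, c v i ≠ x) ∧ ∀ i, x ∉ lf (T v) (c v) i := by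
        intro x hx
        unfold hvg at hx
        obtain ⟨h1, h2, h3⟩ := mem_filter.1 hx
        refine ⟨h2, fun i hi => h3 i ?_⟩
        rw [hlvdef]
        exact mem_inter.2 ⟨hi, h1⟩
      have h1 := heavy_card (T v) (c v) (hT v) (hc v) hX2 e (he v) hR (hvg c Xv lv v) hmem
      have h2 := heavy_sum (T v) (c v) (S v) (hSp' v) e (he v) (hvg c Xv lv v)
        fun x hx => (hmem x hx).1
      omega
  · intro v hv hvU
    exact ((hU v).1 hvU).2 hv
  · intro v hv
    rw [(hremE v hv).1]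
    exact hbig v
  · intro v x y hxy
    have := hSe v x y hxy
    rw [← hSc v] at this
    exact this

end Pool.Agent.GT
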