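import Pool.Agent.Lib.MP_80c395_co_BC.EmbedOne
import Pool.Agent.Lib.MP_80c395_co_BC.Deg

/-!
# MP_80c395_co, project GT: balanced embedding of the exceptional trees
-/

set_option autoImplicit false

open Finset

namespace Pool.Agent.GT

open Pool.Agent.Lib.MP_80c395_co Pool.Agent.BC

/-- load of `y`: edges at `y` of trees which have a heavy vertex at `y` -/
private def ldx {V X : Type} [Fintype V] [DecidableEq V] [Fintype X] [DecidableEq X]
    (S : V → RT X) (Xe hv : V → Finset X) (φ : V → X → V) (Q : Finset V) (y : V) : ℕ :=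
  ∑ z ∈ Q.filter (fun z => y ∈ (hv z).image (φ z)), dgr (edg (S z) (Xe z) (φ z)) y

private theorem ldx_sum {V X : Type} [Fintype V] [DecidableEq V] [Fintype X] [DecidableEq X]
    (w0 : ℕ) (S : V → RT X) (Xe hv : V → Finset X) (φ : V → X → V) (Q : Finset V)
    (hclo : ∀ z ∈ Q, Clo (S z) (Xe z)) (hinj : ∀ z ∈ Q, Set.InjOn (φ z) (Xe z))
    (hhvX : ∀ z ∈ Q, hv z ⊆ Xe z)
    (hhv : ∀ z ∈ Q, ∑ x ∈ hv z, (nch (S z) (Xe z) x + 1) ≤ w0) :
    ∑ y, ldx S Xe hv φ Q y ≤ Q.card * w0 := by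
  have h1 : ∑ y, ldx S Xe hv φ Q y =
      ∑ z ∈ Q, ∑ y ∈ (hv z).image (φ z), dgr (edg (S z) (Xe z) (φ z)) y := by
    unfold ldx
    have e1 : ∀ y : V, ∑ z ∈ Q.filter (fun z => y ∈ (hv z).image (φ z)),
        dgr (edg (S z) (Xe z) (φ z)) y =
        ∑ z ∈ Q, if y ∈ (hv z).image (φ z) then dgr (edg (S z) (Xe z) (φ z)) y else 0 := by
      intro y
      rw [sum_filter]
    simp only [e1]
    rw [sum_comm]
    refine sum_congr rfl fun z _ => ?_
    rw [← sum_filter]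
    refine sum_congr ?_ fun _ _ => rfl
    ext y
    simp
  rw [h1, ← smul_eq_mul]
  refine sum_le_card_nsmul _ _ _ fun z hz => ?_
  rw [sum_image (fun x hx y hy h => hinj z hz (hhvX z hz hx) (hhvX z hz hy) h)]
  refine le_trans (sum_le_sum fun x hx => ?_) (hhv z hz)
  exact dgr_edg_le (hclo z hz) (hinj z hz) (hhvX z hz hx)

private theorem ldx_few {V X : Type} [Fintype V] [DecidableEq V] [Fintype X] [DecidableEq X]
    (w0 p0 : ℕ) (S : V → RT X) (Xe hv : V → Finset X) (φ : V → X → V) (Q : Finset V)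
    (hQ : Q.card ≤ p0)
    (hclo : ∀ z ∈ Q, Clo (S z) (Xe z)) (hinj : ∀ z ∈ Q, Set.InjOn (φ z) (Xe z))
    (hhvX : ∀ z ∈ Q, hv z ⊆ Xe z)
    (hhv : ∀ z ∈ Q, ∑ x ∈ hv z, (nch (S z) (Xe z) x + 1) ≤ w0) :
    (univ.filter fun y => p0 < ldx S Xe hv φ Q y).card ≤ w0 := by
  set W := univ.filter fun y => p0 < ldx S Xe hv φ Q y with hW
  have h1 := ldx_sum w0 S Xe hv φ Q hclo hinj hhvX hhv
  have h2 : W.card * (p0 + 1) ≤ ∑ y ∈ W, ldx S Xe hv φ Q y := by
    rw [← smul_eq_mul]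
    refine card_nsmul_le_sum _ _ _ fun y hy => ?_
    exact (mem_filter.1 hy).2
  have h3 : ∑ y ∈ W, ldx S Xe hv φ Q y ≤ ∑ y, ldx S Xe hv φ Q y :=
    sum_le_sum_of_subset (subset_univ _)
  have h4 : Q.card * w0 ≤ p0 * w0 := Nat.mul_le_mul_right _ hQ
  by_contra hcon
  push Not at hcon
  have h5 : (w0 + 1) * (p0 + 1) ≤ W.card * (p0 + 1) := Nat.mul_le_mul_right _ hcon
  nlinarith

private theorem ldx_dgr {V X : Type} [Fintype V] [DecidableEq V] [Fintype X] [DecidableEq X]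
    {R : ℕ} (S : V → RT X) (c : V → Fin R → X) (Xe hv : V → Finset X) (φ : V → X → V)
    (Q : Finset V) (hclo : ∀ z ∈ Q, Clo (S z) (Xe z)) (hinj : ∀ z ∈ Q, Set.InjOn (φ z) (Xe z))
    (hlea : ∀ z ∈ Q, ∀ x ∈ Xe z, (∀ i, c z i ≠ x) → x ∉ hv z → nch (S z) (Xe z) x = 0)
    (a : V) (ha : ∀ z ∈ Q, ∀ i, φ z (c z i) ≠ a) :
    dgr (Edg S Xe φ Q) a ≤ ldx S Xe hv φ Q a + Q.card := by
  unfold Edg
  refine le_trans (dgr_biUnion _ _ _) ?_
  rw [← sum_filter_add_sum_filter_not Q (fun z => a ∈ (hv z).image (φ z))]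
  refine Nat.add_le_add (le_refl _) ?_
  refine le_trans (sum_le_card_nsmul _ _ 1 ?_) ?_
  · intro w hw
    obtain ⟨hwQ, hwa⟩ := mem_filter.1 hw
    by_cases h : ∃ x ∈ Xe w, φ w x = a
    · obtain ⟨x, hx, hxa⟩ := h
      have h1 : ∀ i, c w i ≠ x := fun i hi => ha w hwQ i (by rw [hi, hxa])
      have h2 : x ∉ hv w := fun hxh => hwa (mem_image.2 ⟨x, hxh, hxa⟩)
      have h3 := dgr_edg_le (hclo w hwQ) (hinj w hwQ) hx
      rw [hlea w hwQ x hx h1 h2, hxa] at h3
      exact h3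
    · have h' : ∀ x ∈ Xe w, φ w x ≠ a := fun x hx hxa => h ⟨x, hx, hxa⟩
      rw [dgr_edg_zero (hclo w hwQ) h']
      omega
  · rw [smul_eq_mul, mul_one]
    exact card_le_card (filter_subset _ _)

private theorem exc3_step {V X : Type} [Fintype V] [DecidableEq V] [Fintype X] [DecidableEq X]
    (n R p0 w0 a0 : ℕ) (hV : Fintype.card V = 2 * n + 1)
    (Z : Finset V) (hZ : R * Z.card ≤ p0) (S : V → RT X) (c : V → Fin R → X) (i0 : V → Fin R)
    (Xe hv : V → Finset X) (pt : V → Fin R → V) (FF : Finset (Sym2 V)) (Av : Finset V)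
    (hAv : Av.card ≤ a0)
    (hnum : ∀ z ∈ Z, (Xe z).card + ((R + 1) * (2 * R ^ 2 + 2 * p0) + 2 * p0 + w0 + a0) ≤
      2 * n + 1)
    (hroot : ∀ z ∈ Z, (S z).c = c z (i0 z)) (hc : ∀ z ∈ Z, Function.Injective (c z))
    (hcX : ∀ z ∈ Z, ∀ i, c z i ∈ Xe z) (hclo : ∀ z ∈ Z, Clo (S z) (Xe z))
    (hlea : ∀ z ∈ Z, ∀ x ∈ Xe z, (∀ i, c z i ≠ x) → x ∉ hv z → nch (S z) (Xe z) x = 0)
    (hhvX : ∀ z ∈ Z, hv z ⊆ Xe z)
    (hhv : ∀ z ∈ Z, ∑ x ∈ hv z, (nch (S z) (Xe z) x + 1) ≤ w0)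
    (hpt : ∀ z ∈ Z, ∀ z' ∈ Z, ∀ i i', pt z i = pt z' i' → z = z' ∧ i = i')
    (hFF : ∀ y, dgr FF y ≤ 2 * R ^ 2)
    (φ : V → X → V) (Q : Finset V) (hQ : Q ⊆ Z) (z : V) (hz : z ∈ Z) (hzQ : z ∉ Q)
    (h1 : ∀ w ∈ Q, ∀ i, φ w (c w i) = pt w i) (h2 : ∀ w ∈ Q, Set.InjOn (φ w) (Xe w))
    (h3 : ∀ w ∈ Q, ∀ x ∈ Xe w, (∀ i, c w i ≠ x) →
      φ w x ∉ Z ∧ ∀ z' ∈ Z, ∀ i, φ w x ≠ pt z' i) :
    ∃ ψ : X → V, (∀ i, ψ (c z i) = pt z i) ∧ Set.InjOn ψ (Xe z) ∧
      (∀ x ∈ Xe z, (∀ i, c z i ≠ x) → ψ x ∉ Z ∧ ψ x ∉ Av ∧ (∀ z' ∈ Z, ∀ i, ψ x ≠ pt z' i) ∧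
        ldx S Xe hv φ Q (ψ x) ≤ p0) ∧
      ∀ x ∈ Xe z, x ≠ (S z).c → ((∀ i, c z i ≠ x) ∨ (∀ i, c z i ≠ (S z).p x)) →
        s(ψ ((S z).p x), ψ x) ∉ FF ∧ s(ψ ((S z).p x), ψ x) ∉ Edg S Xe φ Q := by
  classical
  have hR : 0 < R := lt_of_le_of_lt (Nat.zero_le _) (i0 z).isLt
  have hZc : Z.card ≤ p0 := le_trans (Nat.le_mul_of_pos_left _ hR) hZ
  have hQc : Q.card ≤ p0 := le_trans (card_le_card hQ) hZc
  set E : Finset (Sym2 V) := FF ∪ Edg S Xe φ Q with hE
  set P : Finset X := univ.image (c z) with hP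
  have hPmem : ∀ x, x ∈ P ↔ ∃ i, c z i = x := by
    intro x
    simp [hP]
  have hPn : ∀ x, x ∉ P ↔ ∀ i, c z i ≠ x := by
    intro x
    rw [hPmem]
    exact ⟨fun h i hi => h ⟨i, hi⟩, fun h ⟨i, hi⟩ => h i hi⟩
  have hPcard : P.card ≤ R := by
    calc P.card ≤ (univ : Finset (Fin R)).card := card_image_le
      _ = R := by simp
  set ρ : X → V := Function.extend (c z) (pt z) (fun _ => z) with hρdef
  have hρ : ∀ i, ρ (c z i) = pt z i := fun i => (hc z hz).extend_apply _ _ i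
  set Y : Finset V := univ.filter (fun y => y ∉ Z ∧ y ∉ Av ∧ (∀ z' ∈ Z, ∀ i, y ≠ pt z' i) ∧
    ldx S Xe hv φ Q y ≤ p0) with hY
  have hYmem : ∀ y, y ∈ Y ↔ (y ∉ Z ∧ y ∉ Av ∧ (∀ z' ∈ Z, ∀ i, y ≠ pt z' i) ∧
      ldx S Xe hv φ Q y ≤ p0) := by
    intro y
    simp [hY]
  -- degree bound
  have hdg : ∀ a, (a ∈ Y ∨ a ∈ P.image ρ) → dgr E a ≤ 2 * R ^ 2 + 2 * p0 := by
    intro a ha
    have g3 : dgr (Edg S Xe φ Q) a ≤ 2 * p0 := by
      rcases ha with ha | ha
      · have g1 := ldx_dgr S c Xe hv φ Q (fun w hw => hclo w (hQ hw)) h2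
          (fun w hw => hlea w (hQ hw)) a (by
            intro w hw i hi
            rw [h1 w hw i] at hi
            exact ((hYmem a).1 ha).2.2.1 w (hQ hw) i hi.symm)
        have g2 := ((hYmem a).1 ha).2.2.2
        omega
      · obtain ⟨x, hx, hxa⟩ := mem_image.1 ha
        obtain ⟨j, hj⟩ := (hPmem x).1 hx
        rw [← hj, hρ j] at hxa
        have g1 : dgr (Edg S Xe φ Q) a ≤ ∑ w ∈ Q, dgr (edg (S w) (Xe w) (φ w)) a := by
          unfold Edg
          exact dgr_biUnion _ _ _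
        have g2 : ∑ w ∈ Q, dgr (edg (S w) (Xe w) (φ w)) a = 0 := by
          refine sum_eq_zero fun w hw => ?_
          refine dgr_edg_zero (hclo w (hQ hw)) ?_
          intro y hy hya
          by_cases hyc : ∀ i, c w i ≠ y
          · exact (h3 w hw y hy hyc).2 z hz j (by rw [hya, hxa])
          · push Not at hyc
            obtain ⟨i, hi⟩ := hyc
            rw [← hi, h1 w hw i, ← hxa] at hya
            exact hzQ ((hpt w (hQ hw) z hz i j hya).1 ▸ hw)
        omega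
    have h5 := dgr_union FF (Edg S Xe φ Q) a
    have h6 := hFF a
    rw [hE]
    omega
  -- complement of Y
  have hYc : (univ \ Y).card ≤ 2 * p0 + w0 + a0 := by
    have g3 : univ \ Y ⊆ ((Z ∪ (Z ×ˢ (univ : Finset (Fin R))).image (fun a => pt a.1 a.2)) ∪
        (univ.filter fun y => p0 < ldx S Xe hv φ Q y)) ∪ Av := by
      intro y hy
      have hy' : y ∉ Y := (mem_sdiff.1 hy).2
      rw [hYmem] at hy'
      by_cases hyA : y ∈ Av
      · exact mem_union_right _ hyA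
      apply mem_union_left
      by_cases hyZ : y ∈ Z
      · exact mem_union_left _ (mem_union_left _ hyZ)
      · by_cases hyp : ∀ z' ∈ Z, ∀ i, y ≠ pt z' i
        · apply mem_union_right
          have : ¬ ldx S Xe hv φ Q y ≤ p0 := fun h => hy' ⟨hyZ, hyA, hyp, h⟩
          exact mem_filter.2 ⟨mem_univ _, not_le.1 this⟩
        · apply mem_union_left
          apply mem_union_right
          push Not at hyp
          obtain ⟨z', hz', i, hi⟩ := hyp
          exact mem_image.2 ⟨(z', i), mem_product.2 ⟨hz', mem_univ _⟩, hi.symm⟩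
    have g4 : (Z ∪ (Z ×ˢ (univ : Finset (Fin R))).image (fun a => pt a.1 a.2)).card ≤
        Z.card + Z.card * R := by
      refine le_trans (card_union_le _ _) ?_
      refine Nat.add_le_add_left ?_ _
      refine le_trans card_image_le ?_
      rw [card_product]
      simp
    have g5 := le_trans (card_le_card g3) (card_union_le _ _)
    have g5' := card_union_le (Z ∪ (Z ×ˢ (univ : Finset (Fin R))).image (fun a => pt a.1 a.2))
        (univ.filter fun y => p0 < ldx S Xe hv φ Q y)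
    have g6 : Z.card * R ≤ p0 := by rw [Nat.mul_comm]; exact hZ
    have g7 := ldx_few w0 p0 S Xe hv φ Q hQc (fun w hw => hclo w (hQ hw)) h2
      (fun w hw => hhvX w (hQ hw)) (fun w hw => hhv w (hQ hw))
    omega
  obtain ⟨ψ, q1, q2, q3, q4⟩ := embed_one (S z) (Xe z) P ρ Y (fun a y => s(a, y) ∉ E)
    (fun a b h => by rw [Sym2.eq_swap]; exact h) R
    (by rw [hroot z hz, hPmem]; exact ⟨_, rfl⟩)
    (by intro x hx; obtain ⟨i, rfl⟩ := (hPmem x).1 hx; exact hcX z hz i)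
    (hclo z hz)
    (by
      intro x hx y hy hxy
      obtain ⟨i, rfl⟩ := (hPmem x).1 hx
      obtain ⟨j, rfl⟩ := (hPmem y).1 hy
      rw [hρ, hρ] at hxy
      rw [(hpt z hz z hz i j hxy).2])
    (by
      intro x hx hxY
      obtain ⟨i, rfl⟩ := (hPmem x).1 hx
      rw [hρ, hYmem] at hxY
      exact hxY.2.2.1 z hz i rfl)
    (by
      intro x _ _
      unfold nch
      exact le_trans (card_le_card (filter_subset _ _)) hPcard)
    (by
      intro A hA hAY
      have g1 := hnum z hz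
      have g2 : (univ : Finset V) ⊆ (Y.filter fun y => ∀ a ∈ A, s(a, y) ∉ E) ∪
          ((univ \ Y) ∪ A.biUnion fun a => univ.filter fun y => s(a, y) ∈ E) := by
        intro y _
        by_cases hy : y ∈ Y
        · by_cases hyA : ∀ a ∈ A, s(a, y) ∉ E
          · exact mem_union_left _ (mem_filter.2 ⟨hy, hyA⟩)
          · push Not at hyA
            obtain ⟨a, ha, haE⟩ := hyA
            exact mem_union_right _ (mem_union_right _ (mem_biUnion.2
              ⟨a, ha, mem_filter.2 ⟨mem_univ _, haE⟩⟩))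
        · exact mem_union_right _ (mem_union_left _ (mem_sdiff.2 ⟨mem_univ _, hy⟩))
      have g3 := card_le_card g2
      rw [card_univ, hV] at g3
      have g4 := card_union_le (Y.filter fun y => ∀ a ∈ A, s(a, y) ∉ E)
          ((univ \ Y) ∪ A.biUnion fun a => univ.filter fun y => s(a, y) ∈ E)
      have g5 := card_union_le (univ \ Y) (A.biUnion fun a => univ.filter fun y => s(a, y) ∈ E)
      have g6 : (A.biUnion fun a => univ.filter fun y => s(a, y) ∈ E).card ≤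
          A.card * (2 * R ^ 2 + 2 * p0) := by
        refine card_biUnion_le_card_mul _ _ _ ?_
        intro a ha
        exact hdg a (hAY a ha)
      have g7 : A.card * (2 * R ^ 2 + 2 * p0) ≤
          (R + 1) * (2 * R ^ 2 + 2 * p0) := Nat.mul_le_mul_right _ hA
      omega)
  refine ⟨ψ, ?_, q3, ?_, ?_⟩
  · intro i
    rw [q1 (c z i) ((hPmem _).2 ⟨i, rfl⟩), hρ]
  · intro x hx hxc
    exact (hYmem _).1 (q2 x hx ((hPn x).2 hxc))
  · intro x hx hxc hor
    have h3 : x ∉ P ∨ (S z).p x ∉ P := by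
      rcases hor with h | h
      · exact Or.inl ((hPn _).2 h)
      · exact Or.inr ((hPn _).2 h)
    have h4 := q4 x hx hxc h3
    rw [hE, mem_union, not_or] at h4
    exact h4

theorem embed_exc3 {V X : Type} [Fintype V] [DecidableEq V] [Fintype X] [DecidableEq X]
    (n R p0 e w0 a0 : ℕ) (hV : Fintype.card V = 2 * n + 1)
    (Z : Finset V) (hZ : R * Z.card ≤ p0) (S : V → RT X) (c : V → Fin R → X) (i0 : V → Fin R)
    (Xe hv : V → Finset X) (pt : V → Fin R → V) (FF : Finset (Sym2 V)) (Av : Finset V)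
    (hAv : Av.card ≤ a0)
    (hnum : ∀ z ∈ Z, (Xe z).card + ((R + 1) * (2 * R ^ 2 + 2 * p0) + 2 * p0 + w0 + a0) ≤
      2 * n + 1)
    (hroot : ∀ z ∈ Z, (S z).c = c z (i0 z)) (hc : ∀ z ∈ Z, Function.Injective (c z))
    (hcX : ∀ z ∈ Z, ∀ i, c z i ∈ Xe z) (hclo : ∀ z ∈ Z, Clo (S z) (Xe z))
    (hnch : ∀ z ∈ Z, ∀ x ∈ Xe z, (∀ i, c z i ≠ x) → nch (S z) (Xe z) x ≤ e + R)
    (hlea : ∀ z ∈ Z, ∀ x ∈ Xe z, (∀ i, c z i ≠ x) → x ∉ hv z → nch (S z) (Xe z) x = 0)
    (hhvX : ∀ z ∈ Z, hv z ⊆ Xe z)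
    (hhv : ∀ z ∈ Z, ∑ x ∈ hv z, (nch (S z) (Xe z) x + 1) ≤ w0)
    (hpt : ∀ z ∈ Z, ∀ z' ∈ Z, ∀ i i', pt z i = pt z' i' → z = z' ∧ i = i')
    (hptE : ∀ z ∈ Z, ∀ i j, i ≠ j → s(pt z i, pt z j) ∉ FF)
    (hFF : ∀ y, dgr FF y ≤ 2 * R ^ 2) :
    ∃ φ : V → X → V, (∀ z ∈ Z, ∀ i, φ z (c z i) = pt z i) ∧
      (∀ z ∈ Z, Set.InjOn (φ z) (Xe z)) ∧
      (∀ z ∈ Z, ∀ x ∈ Xe z, (∀ i, c z i ≠ x) →
        φ z x ∉ Z ∧ φ z x ∉ Av ∧ ∀ z' ∈ Z, ∀ i, φ z x ≠ pt z' i) ∧
      Dst S Xe φ Z ∧ (∀ ed ∈ Edg S Xe φ Z, ed ∉ FF) ∧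
      ∀ y, y ∉ Z → (∀ z ∈ Z, ∀ i, y ≠ pt z i) →
        dgr (Edg S Xe φ Z) y ≤ 2 * p0 + (e + R + 1) := by
  classical
  have main : ∀ Q : Finset V, Q ⊆ Z → ∃ φ : V → X → V, (∀ z ∈ Q, ∀ i, φ z (c z i) = pt z i) ∧
      (∀ z ∈ Q, Set.InjOn (φ z) (Xe z)) ∧
      (∀ z ∈ Q, ∀ x ∈ Xe z, (∀ i, c z i ≠ x) →
        φ z x ∉ Z ∧ φ z x ∉ Av ∧ ∀ z' ∈ Z, ∀ i, φ z x ≠ pt z' i) ∧
      Dst S Xe φ Q ∧ (∀ ed ∈ Edg S Xe φ Q, ed ∉ FF) ∧
      ∀ y, y ∉ Z → (∀ z ∈ Z, ∀ i, y ≠ pt z i) → ldx S Xe hv φ Q y ≤ p0 + (e + R + 1) := by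
    intro Q
    induction Q using Finset.induction_on with
    | empty =>
      intro _
      refine ⟨fun z _ => z, ?_, ?_, ?_, ?_, ?_, ?_⟩
      · intro z hz; simp at hz
      · intro z hz; simp at hz
      · intro z hz; simp at hz
      · intro v hv; simp at hv
      · intro ed hed; simp [Edg] at hed
      · intro y _ _; simp [ldx]
    | insert z Q hzQ ih =>
      intro hQ
      have hQZ : Q ⊆ Z := fun w hw => hQ (mem_insert_of_mem hw)
      have hz : z ∈ Z := hQ (mem_insert_self _ _)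
      obtain ⟨φ, a1, a2, a3, a4, a5, a6⟩ := ih hQZ
      obtain ⟨ψ, b1, b2, b3, b4⟩ := exc3_step n R p0 w0 a0 hV Z hZ S c i0 Xe hv pt FF Av hAv hnum
        hroot hc hcX hclo hlea hhvX hhv hpt hFF φ Q hQZ z hz hzQ a1 a2
        (fun w hw x hx hxc => ⟨(a3 w hw x hx hxc).1, (a3 w hw x hx hxc).2.2⟩)
      have hne : ∀ w ∈ Q, w ≠ z := fun w hw h => hzQ (h ▸ hw)
      have u1 : ∀ w ∈ Q, Function.update φ z ψ w = φ w := fun w hw =>
        Function.update_of_ne (hne w hw) _ _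
      have u2 : Function.update φ z ψ z = ψ := Function.update_self _ _ _
      have key : ∀ w ∈ Q, ∀ x ∈ Xe z, x ≠ (S z).c → ∀ y ∈ Xe w, y ≠ (S w).c →
          s(ψ ((S z).p x), ψ x) ≠ s(φ w ((S w).p y), φ w y) := by
        intro w hw x hx hxc y hy hyc heq
        by_cases hcc : (∀ i, c z i ≠ x) ∨ (∀ i, c z i ≠ (S z).p x)
        · refine (b4 x hx hxc hcc).2 ?_
          rw [heq]
          unfold Edg
          exact mem_biUnion.2 ⟨w, hw, mem_image.2 ⟨y, mem_erase.2 ⟨hyc, hy⟩, rfl⟩⟩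
        · push Not at hcc
          obtain ⟨⟨i, hi⟩, ⟨j, hj⟩⟩ := hcc
          rw [← hj, ← hi, b1, b1] at heq
          have hk : ∃ k, φ w y = pt z k := by
            have : φ w y ∈ s(φ w ((S w).p y), φ w y) := Sym2.mem_mk_right _ _
            rw [← heq, Sym2.mem_iff] at this
            rcases this with h | h
            · exact ⟨_, h⟩
            · exact ⟨_, h⟩
          obtain ⟨k, hk⟩ := hk
          by_cases hyC : ∀ m, c w m ≠ y
          · exact (a3 w hw y hy hyC).2.2 z hz k hk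
          · push Not at hyC
            obtain ⟨m, hm⟩ := hyC
            rw [← hm, a1 w hw m] at hk
            exact hne w hw (hpt w (hQZ hw) z hz m k hk).1
      refine ⟨Function.update φ z ψ, ?_, ?_, ?_, ?_, ?_, ?_⟩
      · intro w hw i
        rcases mem_insert.1 hw with h | h
        · subst h
          rw [u2]
          exact b1 i
        · rw [u1 w h]
          exact a1 w h i
      · intro w hw
        rcases mem_insert.1 hw with h | h
        · subst h
          rw [u2]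
          exact b2
        · rw [u1 w h]
          exact a2 w h
      · intro w hw
        rcases mem_insert.1 hw with h | h
        · subst h
          rw [u2]
          intro x hx hxc
          exact ⟨(b3 x hx hxc).1, (b3 x hx hxc).2.1, (b3 x hx hxc).2.2.1⟩
        · rw [u1 w h]
          exact a3 w h
      · intro v hv w hw x hx hxc y hy hyc heq
        rcases mem_insert.1 hv with h | h
        · rcases mem_insert.1 hw with h' | h'
          · subst h
            subst h'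
            rw [u2] at heq
            exact ⟨rfl, edg_inj (hclo w hz) b2 hx hxc hy hyc heq⟩
          · subst h
            rw [u2, u1 w h'] at heq
            exact absurd heq (key w h' x hx hxc y hy hyc)
        · rcases mem_insert.1 hw with h' | h'
          · subst h'
            rw [u2, u1 v h] at heq
            exact absurd heq.symm (key v h y hy hyc x hx hxc)
          · rw [u1 v h, u1 w h'] at heq
            exact a4 v h w h' x hx hxc y hy hyc heq
      · intro ed hed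
        unfold Edg at hed
        obtain ⟨w, hw, hwe⟩ := mem_biUnion.1 hed
        rcases mem_insert.1 hw with h | h
        · subst h
          rw [u2] at hwe
          obtain ⟨x, hx, rfl⟩ := mem_image.1 hwe
          obtain ⟨hxc, hx⟩ := mem_erase.1 hx
          by_cases hcc : (∀ i, c w i ≠ x) ∨ (∀ i, c w i ≠ (S w).p x)
          · exact (b4 x hx hxc hcc).1
          · push Not at hcc
            obtain ⟨⟨i, hi⟩, ⟨j, hj⟩⟩ := hcc
            have hji : j ≠ i := by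
              intro hji
              refine RT.p_ne hxc ?_
              rw [← hj, hji, hi]
            have := hptE w hz j i hji
            rw [← b1 j, ← b1 i, hj, hi] at this
            exact this
        · rw [u1 w h] at hwe
          refine a5 ed ?_
          unfold Edg
          exact mem_biUnion.2 ⟨w, h, hwe⟩
      · intro y hyZ hyp
        have hsame : ∑ w ∈ Q.filter (fun w => y ∈ (hv w).image (Function.update φ z ψ w)),
            dgr (edg (S w) (Xe w) (Function.update φ z ψ w)) y = ldx S Xe hv φ Q y := by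
          unfold ldx
          refine sum_congr ?_ ?_
          · refine filter_congr fun w hw => ?_
            rw [u1 w hw]
          · intro w hw
            rw [u1 w (mem_filter.1 hw).1]
        unfold ldx
        rw [filter_insert, u2]
        split_ifs with hyz
        · rw [sum_insert (fun h => hzQ (mem_filter.1 h).1), u2, hsame]
          obtain ⟨x, hx, hxy⟩ := mem_image.1 hyz
          have hxX := hhvX z hz hx
          have hxc : ∀ i, c z i ≠ x := by
            intro i hi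
            rw [← hi, b1 i] at hxy
            exact hyp z hz i hxy.symm
          have g1 := (b3 x hxX hxc).2.2.2
          have g2 := dgr_edg_le (hclo z hz) b2 hxX
          have g3 := hnch z hz x hxX hxc
          rw [hxy] at g1 g2
          omega
        · rw [hsame]
          exact a6 y hyZ hyp
  obtain ⟨φ, a1, a2, a3, a4, a5, a6⟩ := main Z (Subset.refl Z)
  refine ⟨φ, a1, a2, a3, a4, a5, ?_⟩
  intro y hyZ hyp
  have g1 := ldx_dgr S c Xe hv φ Z hclo a2 hlea y (by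
    intro w hw i hi
    rw [a1 w hw i] at hi
    exact hyp w hw i hi.symm)
  have g2 := a6 y hyZ hyp
  have g3 : Z.card ≤ p0 := by
    rcases Z.eq_empty_or_nonempty with h | ⟨z, hz⟩
    · rw [h]; simp
    · have hR : 0 < R := lt_of_le_of_lt (Nat.zero_le _) (i0 z).isLt
      exact le_trans (Nat.le_mul_of_pos_left _ hR) hZ
  omega

end Pool.Agent.GT
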