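import Pool.Agent.Lib.MP_80c395_co_GT.DatFacts
import Pool.Agent.Lib.MP_80c395_co_GT.Exc3
import Pool.Agent.Lib.MP_80c395_co_BC.FEdeg
import Pool.Agent.Lib.MP_80c395_co_BC.Far

/-!
# MP_80c395_co, project GT: the exceptional trees
-/

set_option autoImplicit false

open Finset

namespace Pool.Agent.GT

open Pool.Agent.Lib.MP_80c395_co Pool.Agent.BC

theorem exists_exc3 {V X : Type} [Fintype V] [DecidableEq V] [Fintype X] [DecidableEq X] {R : ℕ}
    {n κ p0 e : ℕ} {S : V → RT X} {c : V → Fin R → X} {Xv : V → Finset X}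
    {lv rem : V → Fin R → Finset X} {i0 : V → Fin R} {U : Finset V} {π : Equiv.Perm V}
    (D : DatG n κ p0 e S c Xv lv rem i0 U π) (a0 : ℕ) (Av Lo : Finset V) (hAv : Av.card ≤ a0)
    (hLo : Lo ⊆ U)
    (hnum : ∀ z, z ∉ U → (xg Xv rem z).card +
      ((R + 1) * (2 * R ^ 2 + 2 * p0) + 2 * p0 + 3 * (e + R) + a0) ≤ 2 * n + 1)
    (hnum2 : p0 * (2 * 9 ^ (R + 1) + 1) ≤ Lo.card) :
    ∃ (Pol : Finset V) (φ : V → X → V), Pol ⊆ Lo ∧ Pol.card ≤ p0 ∧
      (∀ z, z ∉ U → φ z (S z).c = z) ∧ (∀ z, z ∉ U → Set.InjOn (φ z) (xg Xv rem z)) ∧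
      (∀ z, z ∉ U → ∀ x ∈ xg Xv rem z, x ≠ (S z).c → φ z x ∈ U) ∧
      Dst S (xg Xv rem) φ Uᶜ ∧ (∀ ed ∈ Edg S (xg Xv rem) φ Uᶜ, ed ∉ FE R π U) ∧
      (∀ y ∈ U, y ∉ Pol → dgr (Edg S (xg Xv rem) φ Uᶜ) y ≤ 2 * p0 + (e + R + 1)) ∧
      (∀ y ∈ U, y ∈ Av → y ∉ Pol → dgr (Edg S (xg Xv rem) φ Uᶜ) y = 0) ∧
      (∀ y ∈ Pol, 100 * dgr (Edg S (xg Xv rem) φ Uᶜ) y ≤ 56 * n) ∧
      (∀ y ∈ Pol, ∀ y' ∈ Pol, ∀ t : ℤ, |t| ≤ 9 ^ (R + 1) → (π ^ t) y = y' → y = y') := by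
  classical
  have hVne : Nonempty V := Fintype.card_pos_iff.mp (by rw [D.cV]; omega)
  have hR : 0 < R := Fin.pos (i0 (Classical.arbitrary V))
  have hZc : Uᶜ.card ≤ p0 := le_trans (Nat.le_mul_of_pos_left _ hR) D.cU
  have hι : Fintype.card {a : V × Fin R // a.1 ∉ U ∧ a.2 ≠ i0 a.1} ≤ p0 := by
    rw [Fintype.card_subtype]
    have h1 : (univ.filter fun a : V × Fin R => a.1 ∉ U ∧ a.2 ≠ i0 a.1).card ≤
        (Uᶜ ×ˢ (univ : Finset (Fin R))).card := by
      refine card_le_card fun a ha => ?_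
      rw [mem_filter] at ha
      exact mem_product.mpr ⟨mem_compl.mpr ha.2.1, mem_univ _⟩
    rw [card_product, card_univ, Fintype.card_fin, mul_comm] at h1
    exact h1.trans D.cU
  obtain ⟨p, hpLo, hpfar⟩ := exists_far (ι := {a : V × Fin R // a.1 ∉ U ∧ a.2 ≠ i0 a.1}) π Lo
    (9 ^ (R + 1)) ((Nat.mul_le_mul_right _ hι).trans hnum2)
  have hpU : ∀ a, p a ∈ U := fun a => hLo (hpLo a)
  have hfar : ∀ a b : {a : V × Fin R // a.1 ∉ U ∧ a.2 ≠ i0 a.1}, a ≠ b → ∀ t : ℤ,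
      |t| ≤ 9 ^ (R + 1) → (π ^ t) (p a) ≠ p b := by
    intro a b h t ht
    exact hpfar a b h t (by push_cast; exact ht)
  have hpinj : Function.Injective p := by
    intro a b h
    by_contra hne
    exact hfar a b hne 0 (by rw [abs_zero]; positivity) (by rw [zpow_zero]; exact h)
  obtain ⟨pt, hptdef⟩ : ∃ pt : V → Fin R → V, ∀ z i, pt z i =
      if h : z ∉ U ∧ i ≠ i0 z then p ⟨(z, i), h⟩ else z := ⟨_, fun _ _ => rfl⟩
  have hpt0 : ∀ z, pt z (i0 z) = z := by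
    intro z
    rw [hptdef, dif_neg]
    exact fun h => h.2 rfl
  have hptp : ∀ z (hz : z ∉ U) i (hi : i ≠ i0 z), pt z i = p ⟨(z, i), ⟨hz, hi⟩⟩ := by
    intro z hz i hi
    rw [hptdef, dif_pos ⟨hz, hi⟩]
  have hptU : ∀ z, z ∉ U → ∀ i, i ≠ i0 z → pt z i ∈ U := by
    intro z hz i hi
    rw [hptp z hz i hi]
    exact hpU _
  have hptinj : ∀ z ∈ Uᶜ, ∀ z' ∈ Uᶜ, ∀ i i', pt z i = pt z' i' → z = z' ∧ i = i' := by
    intro z hz z' hz' i i' h
    rw [mem_compl] at hz hz'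
    by_cases hi : i = i0 z
    · by_cases hi' : i' = i0 z'
      · rw [hi, hi', hpt0, hpt0] at h
        subst h
        exact ⟨rfl, hi.trans hi'.symm⟩
      · exfalso
        rw [hi, hpt0] at h
        exact hz (h ▸ hptU z' hz' i' hi')
    · by_cases hi' : i' = i0 z'
      · exfalso
        rw [hi', hpt0] at h
        exact hz' (h ▸ hptU z hz i hi)
      · rw [hptp z hz i hi, hptp z' hz' i' hi'] at h
        have h1 := congrArg Subtype.val (hpinj h)
        exact ⟨congrArg Prod.fst h1, congrArg Prod.snd h1⟩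
  have hptE : ∀ z ∈ Uᶜ, ∀ i j, i ≠ j → s(pt z i, pt z j) ∉ FE R π U := by
    intro z hz i j hij h
    rw [mem_compl] at hz
    obtain ⟨ha, hb, k, hk, hkk⟩ := FE_cases D.cyc.inv h
    have hi : i ≠ i0 z := by
      rintro rfl
      rw [hpt0] at ha
      exact hz ha
    have hj : j ≠ i0 z := by
      rintro rfl
      rw [hpt0] at hb
      exact hz hb
    rw [hptp z hz i hi, hptp z hz j hj] at hkk
    refine hfar _ _ ?_ k (hk.trans (pow_le_pow_right₀ (by norm_num) (Nat.le_succ R))) hkk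
    intro h1
    exact hij (congrArg Prod.snd (congrArg Subtype.val h1))
  have hinjc : ∀ z ∈ Uᶜ, Function.Injective (c z) := fun z _ => D.cinj z
  have hlea : ∀ z ∈ Uᶜ, ∀ x ∈ xg Xv rem z, (∀ i, c z i ≠ x) → x ∉ hvg c Xv lv z →
      nch (S z) (xg Xv rem z) x = 0 := by
    intro z _ x hxX hx hxh
    have hex : ∃ i, x ∈ lv z i := by
      by_contra hno
      push Not at hno
      exact hxh (mem_filter.mpr ⟨(mem_filter.mp hxX).1, hx, hno⟩)
    obtain ⟨i, hi⟩ := hex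
    unfold nch
    rw [card_eq_zero, filter_eq_empty_iff]
    rintro y _ ⟨hy1, hy2⟩
    exact D.lv_ch z i x hi y hy1 hy2
  have hhvX : ∀ z ∈ Uᶜ, hvg c Xv lv z ⊆ xg Xv rem z := by
    intro z _ x hx
    have hx2 := (mem_filter.mp hx).2.2
    exact mem_filter.mpr ⟨(mem_filter.mp hx).1, fun i hi => hx2 i (D.sub z i hi)⟩
  have hhv : ∀ z ∈ Uᶜ, ∑ x ∈ hvg c Xv lv z, (nch (S z) (xg Xv rem z) x + 1) ≤ 3 * (e + R) := by
    intro z _
    refine le_trans (sum_le_sum fun x _ => ?_) (D.hvy z)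
    exact Nat.add_le_add_right (nch_mono (subset_univ _) x) 1
  obtain ⟨φ, h1, h2, h3, h4, h5, h6⟩ := embed_exc3 n R p0 e (3 * (e + R)) a0 D.cV Uᶜ D.cU S c
    i0 (xg Xv rem) (hvg c Xv lv) pt (FE R π U) Av hAv
    (fun z hz => hnum z (mem_compl.mp hz)) (fun z _ => D.root z) hinjc
    (fun z _ i => c_mem_xe D z i) (fun z _ => clo_xe D z)
    (fun z _ x _ hx => (nch_mono (subset_univ _) x).trans (D.nchn z x hx))
    hlea hhvX hhv hptinj hptE (fun y => dgr_FE π U y)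
  have key5 : ∀ z, z ∉ U → ∀ x ∈ xg Xv rem z, x ≠ (S z).c → φ z x ∈ U := by
    intro z hz x hx hxc
    by_cases hxx : ∃ i, c z i = x
    · obtain ⟨i, rfl⟩ := hxx
      rw [h1 z (mem_compl.mpr hz) i]
      refine hptU z hz i ?_
      rintro rfl
      exact hxc (D.root z).symm
    · push Not at hxx
      have h := (h3 z (mem_compl.mpr hz) x hx hxx).1
      rw [mem_compl, not_not] at h
      exact h
  refine ⟨univ.image p, φ, ?_, ?_, ?_, ?_, key5, h4, h5, ?_, ?_, ?_, ?_⟩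
  · intro y hy
    obtain ⟨a, _, rfl⟩ := mem_image.mp hy
    exact hpLo a
  · exact card_image_le.trans (by rw [card_univ]; exact hι)
  · intro z hz
    rw [D.root z, h1 z (mem_compl.mpr hz), hpt0]
  · intro z hz
    exact h2 z (mem_compl.mpr hz)
  · intro y hy hyP
    refine h6 y (fun h => mem_compl.mp h hy) ?_
    intro z hz i hyi
    by_cases hi : i = i0 z
    · rw [hi, hpt0] at hyi
      exact mem_compl.mp hz (hyi ▸ hy)
    · exact hyP (mem_image.mpr ⟨_, mem_univ _,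
        ((hptp z (mem_compl.mp hz) i hi).symm.trans hyi.symm)⟩)
  · intro y hy hyA hyP
    have hs : ∑ w ∈ Uᶜ, dgr (edg (S w) (xg Xv rem w) (φ w)) y = 0 := by
      refine sum_eq_zero fun w hw => ?_
      refine dgr_edg_zero (clo_xe D w) ?_
      intro x hx hxy
      by_cases hxx : ∃ j, c w j = x
      · obtain ⟨j, rfl⟩ := hxx
        rw [h1 w hw j] at hxy
        by_cases hj : j = i0 w
        · rw [hj, hpt0] at hxy
          exact mem_compl.mp hw (hxy ▸ hy)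
        · exact hyP (mem_image.mpr ⟨_, mem_univ _,
            ((hptp w (mem_compl.mp hw) j hj).symm.trans hxy)⟩)
      · push Not at hxx
        exact (h3 w hw x hx hxx).2.1 (hxy ▸ hyA)
    exact Nat.le_zero.mp ((dgr_biUnion _ _ _).trans hs.le)
  · intro y hy
    obtain ⟨a, _, rfl⟩ := mem_image.mp hy
    obtain ⟨⟨z, i⟩, hz, hi⟩ := a
    have hzc : z ∈ Uᶜ := mem_compl.mpr hz
    have hpy : p ⟨(z, i), hz, hi⟩ = pt z i := (hptp z hz i hi).symm
    rw [hpy]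
    have hs : ∑ w ∈ Uᶜ, dgr (edg (S w) (xg Xv rem w) (φ w)) (pt z i) =
        dgr (edg (S z) (xg Xv rem z) (φ z)) (pt z i) := by
      refine sum_eq_single z ?_ (fun h => absurd hzc h)
      intro w hw hwz
      refine dgr_edg_zero (clo_xe D w) ?_
      intro x hx hxy
      by_cases hxx : ∃ j, c w j = x
      · obtain ⟨j, rfl⟩ := hxx
        rw [h1 w hw j] at hxy
        exact hwz (hptinj w hw z hzc j i hxy).1
      · push Not at hxx
        exact (h3 w hw x hx hxx).2.2 z hzc i hxy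
    have ha : dgr (Edg S (xg Xv rem) φ Uᶜ) (pt z i) ≤ dgr (edg (S z) (xg Xv rem z) (φ z)) (pt z i) :=
      (dgr_biUnion _ _ _).trans hs.le
    have hb := dgr_edg_le (clo_xe D z) (h2 z hzc) (c_mem_xe D z i)
    rw [h1 z hzc i] at hb
    have hc' := nch_mono (S := S z) (subset_univ (xg Xv rem z)) (c z i)
    have hd := D.nchc z hz i hi
    omega
  · intro y hy y' hy' t ht hyy
    obtain ⟨a, _, rfl⟩ := mem_image.mp hy
    obtain ⟨b, _, rfl⟩ := mem_image.mp hy'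
    by_contra hne
    exact hfar a b (fun h => hne (by rw [h])) t ht hyy

end Pool.Agent.GT
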