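import Pool.Agent.Lib.MP_80c395_co_GT.DefsG

/-!
# MP_80c395_co, project GT: extension of one tree by dummy leaves at its main centre
-/

set_option autoImplicit false

open Finset

namespace Pool.Agent.GT

open Pool.Agent.Lib.MP_80c395_co Pool.Agent.BC

theorem extend_one3 {R m N e d l : ℕ} (hm : m ≤ N + 1) (T : SimpleGraph (Fin m))
    (hT : T.IsTree) (B : Finset (Fin m)) (b : Fin m) (hC : Cen T B b R e d l) :
    ∃ (T' : SimpleGraph (Fin (N + 1))) (c : Fin R → Fin (N + 1)) (i0 : Fin R), T'.IsTree ∧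
      Function.Injective c ∧ (∀ i, (c i).val < m) ∧
      (∀ x y, T.Adj x y → T'.Adj (Fin.castLE hm x) (Fin.castLE hm y)) ∧
      (∀ x, m ≤ x.val → ∀ w, T'.Adj x w ↔ w = c i0) ∧
      {ed ∈ T'.edgeSet | ∀ i, c i ∉ ed}.ncard ≤ e ∧
      (∀ i, i ≠ i0 → (T'.neighborSet (c i)).ncard ≤ d) ∧
      l ≤ (lf T' c i0 ∩ univ.filter fun x => x.val < m).card := by
  classical
  have hinj := Fin.castLE_injective hm
  have hB' : (B.image (Fin.castLE hm)).card = R := by
    rw [card_image_of_injective _ hinj, hC.card]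
  have hr : ∀ x ∈ B.image (Fin.castLE hm),
      ∃ i, (B.image (Fin.castLE hm)).orderEmbOfFin hB' i = x := by
    intro x hx
    have h1 : x ∈ Set.range ((B.image (Fin.castLE hm)).orderEmbOfFin hB') := by
      rw [Finset.range_orderEmbOfFin]; exact hx
    exact h1
  have hmem : ∀ i, ∃ b' ∈ B, Fin.castLE hm b' =
      (B.image (Fin.castLE hm)).orderEmbOfFin hB' i := by
    intro i
    exact mem_image.1 (Finset.orderEmbOfFin_mem _ hB' i)
  obtain ⟨i0, hi0⟩ := hr (Fin.castLE hm b) (mem_image_of_mem _ hC.mem)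
  have hval : ∀ x : Fin m, ¬ m ≤ (Fin.castLE hm x).val := by
    intro x
    have := x.isLt
    simp only [Fin.val_castLE]
    omega
  refine ⟨extG hm T b, (B.image (Fin.castLE hm)).orderEmbOfFin hB', i0, extG_tree hm T hT b,
    ((B.image (Fin.castLE hm)).orderEmbOfFin hB').injective, ?_,
    fun x y h => Or.inl ⟨x, y, h, rfl, rfl⟩, ?_, ?_, ?_, ?_⟩
  · intro i
    obtain ⟨b', -, h⟩ := hmem i
    rw [← h]
    exact not_le.1 (hval b')
  · intro x hx w
    rw [hi0]
    constructor
    · rintro (⟨x', y', -, h1, -⟩ | ⟨h1, -⟩ | ⟨h1, -⟩)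
      · rw [h1] at hx
        exact absurd hx (hval x')
      · rw [h1] at hx
        exact absurd hx (hval b)
      · exact h1
    · intro h
      exact Or.inr (Or.inr ⟨h, hx⟩)
  · have hsub : {ed ∈ (extG hm T b).edgeSet |
        ∀ i, (B.image (Fin.castLE hm)).orderEmbOfFin hB' i ∉ ed} ⊆
        Sym2.map (Fin.castLE hm) '' {ed ∈ T.edgeSet | ∀ b ∈ B, b ∉ ed} := by
      rintro ed ⟨hed, hc⟩
      induction ed using Sym2.ind with
      | _ x y =>
        have hb : ∀ z ∈ B.image (Fin.castLE hm), z ∉ s(x, y) := by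
          intro z hz
          obtain ⟨i, hi⟩ := hr z hz
          rw [← hi]
          exact hc i
        have hb0 := hb _ (mem_image_of_mem _ hC.mem)
        rw [SimpleGraph.mem_edgeSet] at hed
        rcases hed with ⟨x', y', h, h1, h2⟩ | ⟨h1, h2⟩ | ⟨h1, h2⟩
        · refine ⟨s(x', y'), ⟨h, ?_⟩, by rw [Sym2.map_mk, h1, h2]⟩
          intro z hz hz'
          apply hb _ (mem_image_of_mem _ hz)
          rw [Sym2.mem_iff] at hz' ⊢
          rcases hz' with h' | h'
          · left; rw [h', h1]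
          · right; rw [h', h2]
        · exact absurd (by rw [h1]; exact Sym2.mem_mk_left _ _) hb0
        · exact absurd (by rw [h1]; exact Sym2.mem_mk_right _ _) hb0
    exact ((Set.ncard_le_ncard hsub (Set.toFinite _)).trans
      (Set.ncard_image_le (Set.toFinite _))).trans hC.few
  · intro i hi
    obtain ⟨b', hb', h⟩ := hmem i
    have hne : b' ≠ b := by
      rintro rfl
      apply hi
      apply ((B.image (Fin.castLE hm)).orderEmbOfFin hB').injective
      rw [← h, hi0]
    rw [← h]
    have hsub : (extG hm T b).neighborSet (Fin.castLE hm b') ⊆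
        Fin.castLE hm '' T.neighborSet b' := by
      rintro y (⟨x', y', h0, h1, h2⟩ | ⟨h1, -⟩ | ⟨-, h2⟩)
      · have h3 := hinj h1
        exact ⟨y', by rw [h3]; exact h0, h2.symm⟩
      · exact absurd (hinj h1) hne
      · exact absurd h2 (hval b')
    exact ((Set.ncard_le_ncard hsub (Set.toFinite _)).trans
      (Set.ncard_image_le (Set.toFinite _))).trans (hC.deg b' hb' hne)
  · refine hC.lea.trans ?_
    rw [← card_image_of_injective (lfB T B b) hinj]
    apply card_le_card
    intro z hz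
    obtain ⟨y, hy, rfl⟩ := mem_image.1 hz
    simp only [lfB, mem_filter, mem_univ, true_and] at hy
    obtain ⟨hyB, hyw⟩ := hy
    rw [mem_inter]
    refine ⟨?_, mem_filter.2 ⟨mem_univ _, not_le.1 (hval y)⟩⟩
    simp only [lf, mem_filter, mem_univ, true_and]
    refine ⟨?_, ?_⟩
    · intro j hj
      obtain ⟨b', hb', h⟩ := hmem j
      rw [← h] at hj
      exact hyB (hinj hj ▸ hb')
    · intro w
      rw [hi0]
      constructor
      · rintro (⟨x', y', h0, h1, h2⟩ | ⟨h1, -⟩ | ⟨-, h2⟩)
        · rw [← hinj h1] at h0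
          rw [h2, (hyw y').1 h0]
        · exact absurd hC.mem (by rw [← hinj h1]; exact hyB)
        · exact absurd h2 (hval y)
      · rintro rfl
        exact Or.inl ⟨y, b, (hyw b).2 rfl, rfl, rfl⟩

end Pool.Agent.GT
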