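import Pool.Agent.Lib.MP_80c395_co_GT.FinPackG
import Pool.Agent.Lib.MP_80c395_co_GT.ExDatG
import Pool.Agent.Lib.MP_80c395_co_GT.ExExc3
import Pool.Agent.Lib.MP_80c395_co_GT.ExtOne3
import Pool.Agent.Lib.MP_80c395_co_GT.CoreNum3

/-!
# MP_80c395_co, project GT: packing of 2n+1 trees of different orders with R centres each
-/

set_option autoImplicit false

open Finset

namespace Pool.Agent.GT

open Pool.Agent.Lib.MP_80c395_co Pool.Agent.BC

theorem adjc_edge {X V : Type} {S : RT X} {f : X → V} {a b : X} (h : adjc S a b) :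
    ∃ x, x ≠ S.c ∧ (x = a ∨ x = b) ∧ s(f a, f b) = s(f (S.p x), f x) := by
  rcases h with ⟨h1, h2⟩ | ⟨h1, h2⟩
  · exact ⟨a, h1, Or.inl rfl, by rw [h2, Sym2.eq_swap]⟩
  · exact ⟨b, h1, Or.inr rfl, by rw [h2]⟩

/-- few vertices have a large load -/
theorem few_large {V : Type} [Fintype V] [DecidableEq V] (n th : ℕ)
    (hV : Fintype.card V = 2 * n + 1) (hth : th < n) (s : V → ℕ) (hs : ∀ v, s v ≤ 2 * n)
    (hLam : ∀ B : Finset V, 2 * n * B.card ^ 2 ≤
      (B.card + (2 * n + 1)) * ∑ v ∈ B, (2 * n - s v)) :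
    (univ.filter fun v => 2 * n < s v + th).card ≤ 2 * th := by
  obtain ⟨b, hb⟩ : ∃ b, b = (univ.filter fun v => 2 * n < s v + th).card := ⟨_, rfl⟩
  have h1 := hLam (univ.filter fun v => 2 * n < s v + th)
  rw [← hb] at h1 ⊢
  have h2 : ∑ v ∈ univ.filter (fun v => 2 * n < s v + th), (2 * n - s v) ≤ b * th := by
    rw [hb]
    refine (Finset.sum_le_card_nsmul _ _ th ?_).trans (le_of_eq (by rw [smul_eq_mul]))
    intro v hv
    rw [mem_filter] at hv
    omega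
  have h3 : b ≤ 2 * n + 1 := by
    rw [hb, ← hV]
    exact Finset.card_le_univ _
  by_contra hcon
  push Not at hcon
  have h4 : (b + (2 * n + 1)) * ∑ v ∈ univ.filter (fun v => 2 * n < s v + th), (2 * n - s v) ≤
      (b + (2 * n + 1)) * (b * th) := Nat.mul_le_mul_left _ h2
  have h5 : 2 * n * b ^ 2 ≤ (b + (2 * n + 1)) * (b * th) := h1.trans h4
  have hb0 : 0 < b := by omega
  have h6 : 2 * n * b ≤ (b + (2 * n + 1)) * th := by
    have : b * (2 * n * b) ≤ b * ((b + (2 * n + 1)) * th) := by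
      calc b * (2 * n * b) = 2 * n * b ^ 2 := by ring
        _ ≤ (b + (2 * n + 1)) * (b * th) := h5
        _ = _ := by ring
    exact Nat.le_of_mul_le_mul_left this hb0
  have h7 : (b + (2 * n + 1)) * th ≤ (4 * n + 2) * th := Nat.mul_le_mul_right _ (by omega)
  have h8 : 2 * n * (2 * th + 1) ≤ 2 * n * b := Nat.mul_le_mul_left _ hcon
  have h9 : 2 * n * (2 * th + 1) = 4 * (n * th) + 2 * n := by ring
  have h10 : (4 * n + 2) * th = 4 * (n * th) + 2 * th := by ring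
  omega

/-- a third of the vertices has a small load -/
theorem many_small {V : Type} [Fintype V] [DecidableEq V] (n : ℕ)
    (hV : Fintype.card V = 2 * n + 1) (s : V → ℕ) (hs : ∀ v, n ≤ 2 * s v)
    (hsum : ∑ v, s v = n * (2 * n + 1)) (hn : 1 ≤ n) :
    n ≤ 3 * (univ.filter fun v => 10 * s v ≤ 11 * n).card := by
  have h1 := Finset.card_filter_add_card_filter_not (s := (univ : Finset V))
    (fun v => 10 * s v ≤ 11 * n)
  rw [Finset.card_univ, hV] at h1
  have h2 : ∑ v, 10 * s v = ∑ v ∈ univ.filter (fun v => 10 * s v ≤ 11 * n), 10 * s v +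
      ∑ v ∈ univ.filter (fun v => ¬ 10 * s v ≤ 11 * n), 10 * s v :=
    (Finset.sum_filter_add_sum_filter_not _ _ _).symm
  have h3 : (univ.filter fun v => 10 * s v ≤ 11 * n).card * (5 * n) ≤
      ∑ v ∈ univ.filter (fun v => 10 * s v ≤ 11 * n), 10 * s v := by
    rw [← smul_eq_mul]
    refine Finset.card_nsmul_le_sum _ _ _ ?_
    intro v _
    have := hs v
    omega
  have h4 : (univ.filter fun v => ¬ 10 * s v ≤ 11 * n).card * (11 * n) ≤
      ∑ v ∈ univ.filter (fun v => ¬ 10 * s v ≤ 11 * n), 10 * s v := by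
    rw [← smul_eq_mul]
    refine Finset.card_nsmul_le_sum _ _ _ ?_
    intro v hv
    rw [mem_filter] at hv
    omega
  rw [← Finset.mul_sum, hsum] at h2
  obtain ⟨x, hx⟩ : ∃ x, x = (univ.filter fun v => 10 * s v ≤ 11 * n).card := ⟨_, rfl⟩
  obtain ⟨y, hy⟩ : ∃ y, y = (univ.filter fun v => ¬ 10 * s v ≤ 11 * n).card := ⟨_, rfl⟩
  rw [← hx] at h1 h3 ⊢
  rw [← hy] at h1 h4
  have h5 : n * (5 * x + 11 * y) ≤ n * (10 * (2 * n + 1)) := by
    calc n * (5 * x + 11 * y) = x * (5 * n) + y * (11 * n) := by ring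
      _ ≤ 10 * (n * (2 * n + 1)) := by omega
      _ = _ := by ring
  have h6 := Nat.le_of_mul_le_mul_left h5 (by omega)
  omega

theorem pack_core3 (R : ℕ) (hR : 1 ≤ R) : ∃ E n0 : ℕ, 0 < E ∧ ∀ n, n0 ≤ n →
    ∀ (V : Type) [Fintype V] [DecidableEq V], Fintype.card V = 2 * n + 1 →
    ∀ (m : V → ℕ) (T : ∀ v, SimpleGraph (Fin (m v))) (B : ∀ v, Finset (Fin (m v)))
      (b : ∀ v, Fin (m v)) (d l : ℕ), (∀ v, (T v).IsTree) → (∀ v, n ≤ 2 * (m v - 1)) →
      (∀ v, m v ≤ 2 * n + 1) → ∑ v, (m v - 1) = n * (2 * n + 1) →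
      (∀ A : Finset V, 2 * n * A.card ^ 2 ≤
        (A.card + (2 * n + 1)) * ∑ v ∈ A, (2 * n - (m v - 1))) →
      100 * d + 100 ≤ 56 * n → n ≤ 3 * R * l →
      (∀ v, Cen (T v) (B v) (b v) R (n / E) d l) → Pk n m T := by
  classical
  obtain ⟨K1, K, E, n0, hK1, hK, hE, hnum⟩ := core_num3 R hR
  refine ⟨E, n0 + 1, hE, ?_⟩
  intro n hn V _ _ hV m T B b d l hT hm1 hm2 hsum hLam hd hl hC
  obtain ⟨q, hq⟩ : ∃ q, q = n / K := ⟨_, rfl⟩
  obtain ⟨th, hth⟩ : ∃ th, th = n / K1 := ⟨_, rfl⟩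
  obtain ⟨ta, hta⟩ : ∃ ta, ta = n / (10 * R) := ⟨_, rfl⟩
  obtain ⟨p0, hp0⟩ : ∃ p0, p0 = R * (2 * th + 2 * (4 * K + 1) ^ R * 9 ^ (R + 1)) := ⟨_, rfl⟩
  obtain ⟨e, he⟩ : ∃ e, e = n / E := ⟨_, rfl⟩
  obtain ⟨κ, hκ⟩ : ∃ κ, κ = 2 * R * q + 2 * R + 2 * e := ⟨_, rfl⟩
  obtain ⟨t, ht⟩ : ∃ t, t = 2 * p0 + (e + R + 1) := ⟨_, rfl⟩
  obtain ⟨la, hla⟩ : ∃ la, la = (R + 11) * κ + R ^ 2 + R * (κ + 1) := ⟨_, rfl⟩
  obtain ⟨N1, N2, N3, N4, N5, N6, N7, N8, N9, N10, N11⟩ := hnum n (by omega) e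
    (by rw [he]; exact Nat.mul_div_le n E) q th ta p0 κ t la hq hth hta hp0 hκ ht hla
  rw [← he] at hC
  have hn1 : 1 ≤ n := by omega
  -- dummies
  have hone : ∀ v, ∃ (T' : SimpleGraph (Fin (2 * n + 1))) (c : Fin R → Fin (2 * n + 1))
      (i0 : Fin R), T'.IsTree ∧ Function.Injective c ∧ (∀ i, (c i).val < m v) ∧
      (∀ x y, (T v).Adj x y → T'.Adj (Fin.castLE (hm2 v) x) (Fin.castLE (hm2 v) y)) ∧
      (∀ x, m v ≤ x.val → ∀ w, T'.Adj x w ↔ w = c i0) ∧
      {ed ∈ T'.edgeSet | ∀ i, c i ∉ ed}.ncard ≤ e ∧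
      (∀ i, i ≠ i0 → (T'.neighborSet (c i)).ncard ≤ d) ∧
      l ≤ (lf T' c i0 ∩ univ.filter fun x => x.val < m v).card := fun v =>
    extend_one3 (hm2 v) (T v) (hT v) (B v) (b v) (hC v)
  choose T' c i0 t1 t2 t3 t4 t5 t6 t7 t8 using hone
  obtain ⟨Xv, hXv⟩ : ∃ Xv : V → Finset (Fin (2 * n + 1)),
      Xv = fun v => univ.filter fun x : Fin (2 * n + 1) => x.val < m v := ⟨_, rfl⟩
  have hXm : ∀ v x, x ∈ Xv v ↔ x.val < m v := by
    intro v x
    rw [hXv]
    simp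
  have hXc : ∀ v, (Xv v).card = m v := by
    intro v
    have h1 : Xv v = (univ : Finset (Fin (m v))).map ⟨Fin.castLE (hm2 v), Fin.castLE_injective _⟩ := by
      ext x
      rw [hXm]
      simp only [mem_map, mem_univ, true_and, Function.Embedding.coeFn_mk]
      constructor
      · intro h
        exact ⟨⟨x.val, h⟩, rfl⟩
      · rintro ⟨y, rfl⟩
        exact y.isLt
    rw [h1, Finset.card_map, Finset.card_univ, Fintype.card_fin]
  -- heavy loads
  have hthn : th < n := by omega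
  have htan : ta < n := by omega
  have hHv := few_large n th hV hthn (fun v => m v - 1) (fun v => by have := hm2 v; omega) hLam
  have hAv := few_large n ta hV htan (fun v => m v - 1) (fun v => by have := hm2 v; omega) hLam
  obtain ⟨Hv, hHv'⟩ : ∃ Hv : Finset V, Hv = univ.filter fun v => 2 * n < m v - 1 + th := ⟨_, rfl⟩
  obtain ⟨Av, hAv'⟩ : ∃ Av : Finset V, Av = univ.filter fun v => 2 * n < m v - 1 + ta := ⟨_, rfl⟩
  rw [← hHv'] at hHv
  rw [← hAv'] at hAv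
  obtain ⟨S, lv, rem, U, π, D, D1, D2, D3⟩ := exists_datG n K q p0 e (2 * th) hR hV
    (Fintype.card_fin _) hK hq N1 (by rw [← hκ]; exact N3) Hv hHv (le_of_eq hp0.symm) T' t1 c t2
    i0 Xv (fun v i => (hXm v _).mpr (t3 v i))
    (fun v x hx w => t5 v x (by rw [hXm] at hx; omega) w) t6
    (fun v i hi => by have := t7 v i hi; omega)
    (fun v => by
      rw [hXv]
      exact hl.trans (Nat.mul_le_mul_left _ (t8 v)))
  rw [← hκ] at D
  have hp0' := D.cU'
  -- the light vertices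
  obtain ⟨Lo, hLo⟩ : ∃ Lo : Finset V, Lo = U.filter fun v => 10 * (m v - 1) ≤ 11 * n := ⟨_, rfl⟩
  have hLoc : n ≤ 3 * (Lo.card + p0) := by
    have h1 := many_small n hV (fun v => m v - 1) hm1 hsum hn1
    have h2 : (univ.filter fun v => 10 * (m v - 1) ≤ 11 * n) ⊆ Lo ∪ Uᶜ := by
      intro v hv
      rw [mem_filter] at hv
      rw [mem_union, hLo, mem_filter, mem_compl]
      by_cases h : v ∈ U
      · exact Or.inl ⟨h, hv.2⟩
      · exact Or.inr h
    have h3 := Finset.card_le_card h2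
    have h4 := Finset.card_union_le Lo Uᶜ
    have h5 : (univ.filter fun v => 10 * (m v - 1) ≤ 11 * n).card ≤ Lo.card + p0 := by omega
    omega
  have hnumE : ∀ z, z ∉ U → (xg Xv rem z).card +
      ((R + 1) * (2 * R ^ 2 + 2 * p0) + 2 * p0 + 3 * (e + R) + 2 * ta) ≤ 2 * n + 1 := by
    intro z hz
    have h1 := card_xe D z
    rw [sum_rem_exc D hz, ← D.exc0 z hz, hXc] at h1
    have h2 := D2 z hz
    have h3 := hm2 z
    have h4 : n / (3 * R) ≤ (rem z (i0 z)).card := by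
      apply Nat.div_le_of_le_mul
      exact h2
    omega
  have hnumL : p0 * (2 * 9 ^ (R + 1) + 1) ≤ Lo.card := by
    have h1 : p0 * (2 * 9 ^ (R + 1) + 2) = p0 * (2 * 9 ^ (R + 1) + 1) + p0 := by ring
    omega
  obtain ⟨Pol, φZ, a1, a2, a3, a4, a5, a6, a7, a8, a9, a10, a11⟩ :=
    exists_exc3 D (2 * ta) Av Lo hAv (by rw [hLo]; exact filter_subset _ _) hnumE hnumL
  rw [← ht] at a8
  have hPU : Pol ⊆ U := fun v hv => by
    have := a1 hv
    rw [hLo, mem_filter] at this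
    exact this.1
  obtain ⟨φ, Em⟩ := emb_of_exc D N2 t N6 Pol Av φZ hPU a2 a3 a4 a5 a6 a7 a8 a9 a10 a11
  obtain ⟨f, hf, hf'⟩ := fin_pack D Em la th ta hla N6 N7 N8 N9 N10
    (by simp only [hXc]; exact hsum) (by simp only [hXc]; exact hm1)
    (by simp only [hXc]; exact hm2) (by simp only [hXc]; exact hLam)
    (by
      intro v hv
      rw [hXc]
      have h1 : v ∉ Hv := fun h => D1 v h hv
      rw [hHv', mem_filter] at h1
      have h2 : ¬ (2 * n < m v - 1 + th) := fun h => h1 ⟨mem_univ _, h⟩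
      omega)
    (by
      intro v hv
      rw [hXc]
      rw [hAv', mem_filter] at hv
      have h2 : ¬ (2 * n < m v - 1 + ta) := fun h => hv ⟨mem_univ _, h⟩
      omega)
    (by
      intro v hv
      rw [hXc]
      have := a1 hv
      rw [hLo, mem_filter] at this
      exact this.2)
    D2
  let g : V ≃ Fin (2 * n + 1) := Fintype.equivFinOfCardEq hV
  refine ⟨fun v x => g (f v (Fin.castLE (hm2 v) x)), ?_, ?_⟩
  · intro v x y hxy
    have h1 := g.injective hxy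
    have h2 := hf v (Finset.mem_coe.mpr ((hXm v _).mpr x.isLt))
      (Finset.mem_coe.mpr ((hXm v _).mpr y.isLt)) h1
    exact Fin.castLE_injective _ h2
  · intro v w hvw a b' a' b'' hab hab' hcon
    have hcon' : s(f v (Fin.castLE (hm2 v) a), f v (Fin.castLE (hm2 v) b')) =
        s(f w (Fin.castLE (hm2 w) a'), f w (Fin.castLE (hm2 w) b'')) := by
      rw [Sym2.eq_iff] at hcon ⊢
      rcases hcon with ⟨h1, h2⟩ | ⟨h1, h2⟩
      · exact Or.inl ⟨g.injective h1, g.injective h2⟩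
      · exact Or.inr ⟨g.injective h1, g.injective h2⟩
    obtain ⟨x, hx, hx1, hx'⟩ := adjc_edge (f := f v) (D3 v _ _ (t4 v a b' hab))
    obtain ⟨y, hy, hy1, hy'⟩ := adjc_edge (f := f w) (D3 w _ _ (t4 w a' b'' hab'))
    rw [hx', hy'] at hcon'
    have hxX : x ∈ Xv v := by
      rw [hXm]
      rcases hx1 with rfl | rfl
      · exact a.isLt
      · exact b'.isLt
    have hyX : y ∈ Xv w := by
      rw [hXm]
      rcases hy1 with rfl | rfl
      · exact a'.isLt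
      · exact b''.isLt
    exact hvw (hf' v w x hxX y hyX hx hy hcon').1

end Pool.Agent.GT
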