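import Pool.Agent.Lib.MP_80c395_co_BC.Defs2
import Pool.Agent.Lib.MP_80c395_co_BC.Red

/-!
# MP_80c395_co, project GT: definitions
-/

set_option autoImplicit false

open Finset

namespace Pool.Agent.GT

open Pool.Agent.Lib.MP_80c395_co Pool.Agent.BC

/-- a packing of the family into `K_{2n+1}` -/
def Pk (n : ℕ) {ι : Type} (m : ι → ℕ) (T : ∀ i, SimpleGraph (Fin (m i))) : Prop :=
  ∃ f : ∀ i, Fin (m i) → Fin (2 * n + 1), (∀ i, Function.Injective (f i)) ∧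
    ∀ i j, i ≠ j → ∀ a b c d, (T i).Adj a b → (T j).Adj c d →
      s(f i a, f i b) ≠ s(f j c, f j d)

/-- every tree has a set of centres: at most `1 + C e(T)/n` vertices which meet all but at most
`e(T)/E` of its edges -/
structure Fam (n C E : ℕ) {ι : Type} (m : ι → ℕ) (T : ∀ i, SimpleGraph (Fin (m i))) : Prop where
  tree : ∀ i, (T i).IsTree
  ord : ∀ i, m i ≤ n + 1
  cen : ∀ i, ∃ B : Finset (Fin (m i)), B.Nonempty ∧ B.card * n ≤ n + C * (m i - 1) ∧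
    E * {ed ∈ (T i).edgeSet | ∀ b ∈ B, b ∉ ed}.ncard ≤ m i - 1

section
variable {V X : Type} [Fintype V] [DecidableEq V] [Fintype X] [DecidableEq X]

open Classical in
/-- leaves at the vertex `b` which are not in `B` -/
noncomputable def lfB (T : SimpleGraph X) (B : Finset X) (b : X) : Finset X :=
  univ.filter fun y => y ∉ B ∧ ∀ w, T.Adj y w ↔ w = b

/-- centre set `B` with main centre `b` -/
structure Cen (T : SimpleGraph X) (B : Finset X) (b : X) (R e d l : ℕ) : Prop where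
  mem : b ∈ B
  card : B.card = R
  few : {ed ∈ T.edgeSet | ∀ b ∈ B, b ∉ ed}.ncard ≤ e
  deg : ∀ b' ∈ B, b' ≠ b → (T.neighborSet b').ncard ≤ d
  lea : l ≤ (lfB T B b).card

/-- vertices which are not removed -/
def xg {R : ℕ} (Xv : V → Finset X) (rem : V → Fin R → Finset X) (v : V) : Finset X :=
  (Xv v).filter fun x => ∀ i, x ∉ rem v i

/-- heavy vertices: no centres and no leaves at centres -/
def hvg {R : ℕ} (c : V → Fin R → X) (Xv : V → Finset X) (lv : V → Fin R → Finset X) (v : V) :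
    Finset X :=
  (Xv v).filter fun x => (∀ i, c v i ≠ x) ∧ ∀ i, x ∉ lv v i

/-- everything which is fixed before the embedding; `Xv v` is the vertex set of the tree `v`,
the other vertices are dummies -/
structure DatG {R : ℕ} (n κ p0 e : ℕ) (S : V → RT X) (c : V → Fin R → X) (Xv : V → Finset X)
    (lv rem : V → Fin R → Finset X) (i0 : V → Fin R) (U : Finset V) (π : Equiv.Perm V) :
    Prop where
  cV : Fintype.card V = 2 * n + 1
  cyc : Cyc π U (9 ^ (R + 1))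
  cU : R * Uᶜ.card ≤ p0
  cX : ∀ v i, c v i ∈ Xv v
  cinj : ∀ v, Function.Injective (c v)
  root : ∀ v, (S v).c = c v (i0 v)
  clo : ∀ v, Clo (S v) (Xv v)
  lvX : ∀ v i, lv v i ⊆ Xv v
  lv_nc : ∀ v i x, x ∈ lv v i → ∀ j, c v j ≠ x
  lv_p : ∀ v i x, x ∈ lv v i → (S v).p x = c v i
  lv_ch : ∀ v i x, x ∈ lv v i → ∀ y, y ≠ (S v).c → (S v).p y ≠ x
  sub : ∀ v i, rem v i ⊆ lv v i
  act : ∀ v, (rem v (i0 v)).Nonempty
  rpi : ∀ v ∈ U, ∀ i, (rem (π v) i).card = (rem v i).card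
  tot : ∀ v ∈ U, (xg Xv rem v).card ≤ κ + 1
  spare : ∀ v ∈ U, ∀ i, (rem v i).Nonempty → R ≤ (lv v i \ rem v i).card
  exc0 : ∀ v, v ∉ U → rem v (i0 v) = lv v (i0 v)
  exc1 : ∀ v, v ∉ U → ∀ i, i ≠ i0 v → rem v i = ∅
  nchn : ∀ v x, (∀ i, c v i ≠ x) → nch (S v) univ x ≤ e + R
  nchc : ∀ v, v ∉ U → ∀ i, i ≠ i0 v → 100 * (nch (S v) univ (c v i) + 1) ≤ 56 * n
  hvy : ∀ v, ∑ x ∈ hvg c Xv lv v, (nch (S v) univ x + 1) ≤ 3 * (e + R)

/-- all trees without their removed leaves are embedded -/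
structure EmbG {R : ℕ} (n κ p0 t : ℕ) (S : V → RT X) (c : V → Fin R → X) (Xv : V → Finset X)
    (rem : V → Fin R → Finset X) (U : Finset V) (π : Equiv.Perm V) (Pol Av : Finset V)
    (φ : V → X → V) : Prop where
  psub : Pol ⊆ U
  pcard : Pol.card ≤ p0
  root : ∀ z, z ∉ U → φ z (S z).c = z
  host : ∀ v ∈ U, ∀ i, (rem v i).Nonempty → φ v (c v i) = hp π v i
  inj : ∀ v, Set.InjOn (φ v) (xg Xv rem v)
  inU : ∀ v ∈ U, ∀ x ∈ xg Xv rem v, φ v x ∈ U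
  inU' : ∀ z, z ∉ U → ∀ x ∈ xg Xv rem z, x ≠ (S z).c → φ z x ∈ U
  dst : Dst S (xg Xv rem) φ univ
  self : ∀ v ∈ U, ∀ a ∈ hs π rem v, ∀ b ∈ hs π rem v, a ≠ b →
    s(a, b) ∈ Edg S (xg Xv rem) φ univ
  conf : ∀ u ∈ U, ∀ v ∈ U, u ≠ v → ∀ a ∈ hs π rem u, ∀ b ∈ hs π rem v, a ≠ b →
    a ∈ (xg Xv rem v).image (φ v) → b ∈ (xg Xv rem u).image (φ u) →
    s(a, b) ∈ Edg S (xg Xv rem) φ univ
  deg0 : ∀ y ∈ U, y ∈ Av → y ∉ Pol → dgr (Edg S (xg Xv rem) φ univ) y ≤ (R + 11) * κ + R ^ 2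
  deg1 : ∀ y ∈ U, y ∉ Pol → dgr (Edg S (xg Xv rem) φ univ) y ≤ (R + 11) * κ + R ^ 2 + t
  deg2 : ∀ y ∈ Pol, 100 * dgr (Edg S (xg Xv rem) φ univ) y ≤
    100 * ((R + 11) * κ + R ^ 2) + 56 * n
  cnt : ∀ y, (U.filter fun v => y ∈ (xg Xv rem v).image (φ v)).card ≤ 11 * κ + R + R ^ 2

end

end Pool.Agent.GT
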