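import Pool.Agent.Lib.MP_80c395_co_GT.PreB

/-!
# MP_80c395_co, project GT: prescribed positions, part C
-/

set_option autoImplicit false

open Finset

namespace Pool.Agent.GT

open Pool.Agent.Lib.MP_80c395_co Pool.Agent.BC

section dat
variable {V X : Type} [Fintype V] [DecidableEq V] [Fintype X] [DecidableEq X] {R : ℕ}
  {n κ p0 e : ℕ} {S : V → RT X} {c : V → Fin R → X} {Xv : V → Finset X}
  {lv rem : V → Fin R → Finset X}
  {i0 : V → Fin R} {U : Finset V} {π : Equiv.Perm V} {P : V → Finset X} {ρ : V → X → V}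
  {l : V → Fin R → Fin R → X}

/-- an edge with two prescribed ends -/
private theorem preC_mem {v : V} (hv : v ∈ U) {x : X} (hx : x ∈ P v) (hne : x ≠ (S v).c)
    (hpx : (S v).p x ∈ P v) : s(ρ v ((S v).p x), ρ v x) ∈ PE S P ρ U := by
  unfold PE
  rw [mem_biUnion]
  exact ⟨v, hv, mem_image.mpr ⟨x, mem_filter.mpr ⟨hx, hne, hpx⟩, rfl⟩⟩

/-- the edge of a chord leaf -/
private theorem preC_chord (D : DatG n κ p0 e S c Xv lv rem i0 U π)
    (H : Pre S c lv rem U π P ρ l) {v : V} (hv : v ∈ U) {i j : Fin R}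
    (hc : chd S c rem π v i j) : s(hp π v j, cp π v i j) ∈ PE S P ρ U := by
  have h1 := (H.ml v hv i j hc).1
  have hx : l v i j ∈ P v := (H.mem v hv _).mpr (Or.inr ⟨i, j, hc, rfl⟩)
  have hcj : c v j ∈ P v := (H.mem v hv _).mpr (Or.inl ⟨j, hc.2.2.1, rfl⟩)
  have hpar : (S v).p (l v i j) = c v j := D.lv_p v j _ h1
  have hne : l v i j ≠ (S v).c := by
    rw [D.root v]
    exact fun h => D.lv_nc v j _ h1 (i0 v) h.symm
  have h2 := preC_mem (S := S) (P := P) (ρ := ρ) hv hx hne (by rw [hpar]; exact hcj)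
  rw [hpar, H.rc v hv j hc.2.2.1, H.rl v hv i j hc] at h2
  exact h2

private theorem preC_img (H : Pre S c lv rem U π P ρ l) {v : V} (hv : v ∈ U) {y : V}
    (hy : y ∈ (P v).image (ρ v)) :
    (∃ i : Fin R, y = hp π v i) ∨ ∃ i j : Fin R, chd S c rem π v i j ∧ y = cp π v i j := by
  rw [mem_image] at hy
  obtain ⟨x, hx, rfl⟩ := hy
  rcases (H.mem v hv x).mp hx with ⟨i, hi, rfl⟩ | ⟨i, j, hc, rfl⟩
  · exact Or.inl ⟨i, H.rc v hv i hi⟩
  · exact Or.inr ⟨i, j, hc, H.rl v hv i j hc⟩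

private theorem preC_chord_of_cp (D : DatG n κ p0 e S c Xv lv rem i0 U π)
    (H : Pre S c lv rem U π P ρ l) {v : V} (hv : v ∈ U) {i j : Fin R} (hij : i < j) {y : V}
    (hy : y ∈ (P v).image (ρ v)) (he : y = cp π v i j) : chd S c rem π v i j := by
  rcases preC_img H hv hy with ⟨k, hk⟩ | ⟨k, m, hc, hk⟩
  · exact absurd (hk.symm.trans he) (hp_ne_cp D.cyc hv hij)
  · obtain ⟨h1, h2⟩ := cp_inj D.cyc hv hc.1 hij (hk.symm.trans he)
    rw [← h1, ← h2]
    exact hc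

theorem pre_conf (D : DatG n κ p0 e S c Xv lv rem i0 U π) (H : Pre S c lv rem U π P ρ l) :
    ∀ u ∈ U, ∀ v ∈ U, u ≠ v → ∀ a ∈ hs π rem u, ∀ b ∈ hs π rem v, a ≠ b →
    a ∈ (P v).image (ρ v) → b ∈ (P u).image (ρ u) → s(a, b) ∈ PE S P ρ U := by
  intro u hu v hv huv a ha b hb hab hav hbu
  have hs1 : ∀ w : V, ∀ y ∈ hs π rem w, ∃ i : Fin R, y = hp π w i := by
    intro w y hy
    unfold hs at hy
    rw [mem_image] at hy
    obtain ⟨i, -, hi⟩ := hy
    exact ⟨i, hi.symm⟩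
  have himg : ∀ w ∈ U, ∀ y ∈ (P w).image (ρ w), (∃ i : Fin R, y = hp π w i) ∨
      ∃ i j : Fin R, i < j ∧ y = cp π w i j := by
    intro w hw y hy
    rcases preC_img H hw hy with h | ⟨i, j, hc, h⟩
    · exact Or.inl h
    · exact Or.inr ⟨i, j, hc.1, h⟩
  rcases shift_conf D.cyc hu hv huv hab (hs1 u a ha) (himg v hv a hav) (hs1 v b hb)
    (himg u hu b hbu) with ⟨i, j, hij, hb1, ha1, -⟩ | ⟨i, j, hij, ha1, hb1, -⟩
  · have hc := preC_chord_of_cp D H hu hij hbu hb1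
    rw [ha1, hb1]
    exact preC_chord D H hu hc
  · have hc := preC_chord_of_cp D H hv hij hav ha1
    rw [ha1, hb1, Sym2.eq_swap]
    exact preC_chord D H hv hc

private theorem preC_lt (D : DatG n κ p0 e S c Xv lv rem i0 U π) (H : Pre S c lv rem U π P ρ l)
    {v : V} (hv : v ∈ U) {i j : Fin R} (hij : i < j) (hi : (rem v i).Nonempty)
    (hj : (rem v j).Nonempty) : s(hp π v i, hp π v j) ∈ PE S P ρ U := by
  have hci : c v i ∈ P v := (H.mem v hv _).mpr (Or.inl ⟨i, hi, rfl⟩)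
  have hcj : c v j ∈ P v := (H.mem v hv _).mpr (Or.inl ⟨j, hj, rfl⟩)
  by_cases hadj : adjc (S v) (c v i) (c v j)
  · rcases hadj with ⟨hne, hpar⟩ | ⟨hne, hpar⟩
    · have h2 := preC_mem (S := S) (P := P) (ρ := ρ) hv hci hne (by rw [hpar]; exact hcj)
      rw [hpar, H.rc v hv j hj, H.rc v hv i hi, Sym2.eq_swap] at h2
      exact h2
    · have h2 := preC_mem (S := S) (P := P) (ρ := ρ) hv hcj hne (by rw [hpar]; exact hci)
      rw [hpar, H.rc v hv j hj, H.rc v hv i hi] at h2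
      exact h2
  · set k : ℤ := (9 : ℤ) ^ (j : ℕ) - (9 : ℤ) ^ (i : ℕ) with hk
    have hu : (π ^ (-k)) v ∈ U := inv_zpow D hv (-k)
    have hback : (π ^ k) ((π ^ (-k)) v) = v := by
      rw [← Equiv.Perm.mul_apply, ← zpow_add, add_neg_cancel, zpow_zero, Equiv.Perm.one_apply]
    have hr : ∀ m : Fin R, (rem v m).Nonempty → (rem ((π ^ (-k)) v) m).Nonempty := by
      intro m hm
      rw [← card_pos] at hm ⊢
      rw [rem_zpow D hv (-k) m]
      exact hm
    have hc : chd S c rem π ((π ^ (-k)) v) i j := by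
      refine ⟨hij, hr i hi, hr j hj, ?_⟩
      rw [← hk, hback]
      exact hadj
    have h2 := preC_chord D H hu hc
    have e1 : hp π ((π ^ (-k)) v) j = hp π v i := by
      unfold hp
      rw [← Equiv.Perm.mul_apply, ← zpow_add]
      have : (9 : ℤ) ^ (j : ℕ) + -k = (9 : ℤ) ^ (i : ℕ) := by rw [hk]; ring
      rw [this]
    have e2 : cp π ((π ^ (-k)) v) i j = hp π v j := by
      unfold hp cp
      rw [← Equiv.Perm.mul_apply, ← zpow_add]
      have : 2 * (9 : ℤ) ^ (j : ℕ) - (9 : ℤ) ^ (i : ℕ) + -k = (9 : ℤ) ^ (j : ℕ) := by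
        rw [hk]; ring
      rw [this]
    rw [e1, e2] at h2
    exact h2

theorem pre_self (D : DatG n κ p0 e S c Xv lv rem i0 U π) (H : Pre S c lv rem U π P ρ l) :
    ∀ v ∈ U, ∀ a ∈ hs π rem v, ∀ b ∈ hs π rem v, a ≠ b → s(a, b) ∈ PE S P ρ U := by
  intro v hv a ha b hb hab
  unfold hs at ha hb
  rw [mem_image] at ha hb
  obtain ⟨i, hi, rfl⟩ := ha
  obtain ⟨j, hj, rfl⟩ := hb
  rw [mem_filter] at hi hj
  have hij : i ≠ j := by
    rintro rfl
    exact hab rfl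
  rcases lt_or_gt_of_ne hij with h | h
  · exact preC_lt D H hv h hi.2 hj.2
  · rw [Sym2.eq_swap]
    exact preC_lt D H hv h hj.2 hi.2

end dat

end Pool.Agent.GT
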