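import Pool.Agent.Lib.MP_80c395_co_BC.FEdeg
import Pool.Agent.Lib.MP_80c395_co_BC.ExEmb
import Pool.Agent.Lib.MP_80c395_co_BC.Good
import Pool.Agent.Lib.MP_80c395_co_GT.PreC
import Pool.Agent.Lib.MP_80c395_co_GT.Pre

/-!
# MP_80c395_co, project GT: all trees without their removed leaves are embedded
-/

set_option autoImplicit false

open Finset

namespace Pool.Agent.GT

open Pool.Agent.Lib.MP_80c395_co Pool.Agent.BC

section dat
variable {V X : Type} [Fintype V] [DecidableEq V] [Fintype X] [DecidableEq X] {R : ℕ}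
  {n κ p0 e : ℕ} {S : V → RT X} {c : V → Fin R → X} {Xv : V → Finset X}
  {lv rem : V → Fin R → Finset X}
  {i0 : V → Fin R} {U : Finset V} {π : Equiv.Perm V} {P : V → Finset X} {ρ : V → X → V}
  {l : V → Fin R → Fin R → X}

theorem DatG.hR (D : DatG n κ p0 e S c Xv lv rem i0 U π) : 1 ≤ R := by
  have h : 0 < Fintype.card V := by rw [D.cV]; omega
  obtain ⟨v⟩ := Fintype.card_pos_iff.mp h
  have := (i0 v).isLt
  omega

theorem DatG.cU' (D : DatG n κ p0 e S c Xv lv rem i0 U π) : Uᶜ.card ≤ p0 := by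
  have h1 := D.hR
  have h2 := D.cU
  calc Uᶜ.card = 1 * Uᶜ.card := (one_mul _).symm
    _ ≤ R * Uᶜ.card := Nat.mul_le_mul_right _ h1
    _ ≤ p0 := h2

theorem emb_of_exc (D : DatG n κ p0 e S c Xv lv rem i0 U π) (hκ : 0 < κ) (t : ℕ)
    (hnum : 200 * ((R + 1) ^ 2 * (20 * κ + 20 * R ^ 2 + 20 + t) + p0) ≤ n)
    (Pol Av : Finset V) (φZ : V → X → V) (hPU : Pol ⊆ U) (hPc : Pol.card ≤ p0)
    (hZr : ∀ z, z ∉ U → φZ z (S z).c = z) (hZi : ∀ z, z ∉ U → Set.InjOn (φZ z) (xg Xv rem z))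
    (hZU : ∀ z, z ∉ U → ∀ x ∈ xg Xv rem z, x ≠ (S z).c → φZ z x ∈ U)
    (hZd : Dst S (xg Xv rem) φZ Uᶜ) (hZF : ∀ ed ∈ Edg S (xg Xv rem) φZ Uᶜ, ed ∉ FE R π U)
    (hZ1 : ∀ y ∈ U, y ∉ Pol → dgr (Edg S (xg Xv rem) φZ Uᶜ) y ≤ t)
    (hZ0 : ∀ y ∈ U, y ∈ Av → y ∉ Pol → dgr (Edg S (xg Xv rem) φZ Uᶜ) y = 0)
    (hZ2 : ∀ y ∈ Pol, 100 * dgr (Edg S (xg Xv rem) φZ Uᶜ) y ≤ 56 * n)
    (hfar : ∀ y ∈ Pol, ∀ y' ∈ Pol, ∀ t : ℤ, |t| ≤ 9 ^ (R + 1) → (π ^ t) y = y' → y = y') :
    ∃ φ : V → X → V, EmbG n κ p0 t S c Xv rem U π Pol Av φ := by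
  classical
  obtain ⟨P, ρ, l, H⟩ := exists_pre D
  have G : GHyp n R p0 t κ U Pol S (xg Xv rem) P ρ (hs π rem)
      (Edg S (xg Xv rem) φZ Uᶜ) :=
    { cV := D.cV
      κ0 := hκ
      cU := D.cU'
      cPol := hPc
      num := hnum
      root := pre_root D H
      sub := pre_sub D H
      clo := fun v _ => clo_xe D v
      cXe := by
        intro v hv
        have h1 := card_xe D v
        have h2 := D.tot v hv
        exact h2
      chi := fun v hv x _ hx => pre_chi D H v hv x hx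
      inj := pre_inj D H
      inU := pre_inU D H
      hsub := pre_hs D H
      hcard := fun v _ => hs_card v
      hcount := hs_count
      pcount := pre_count D H
      leaf := pre_leaf D H
      dst := pre_dst D H
      dgrPE := fun y => (dgr_mono (pre_FE D H) y).trans (dgr_FE π U y)
      peo := fun ed hed hed' => hZF ed hed' (pre_FE D H hed)
      conf := pre_conf D H
      o1 := hZ1
      o2 := hZ2
      pol := by
        intro v hv x hx y hy hx' hy'
        obtain ⟨t, ht, hxy⟩ := pre_far D H v hv x hx y hy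
        exact pre_inj D H v hv hx hy (hfar _ hx' _ hy' t ht hxy) }
  obtain ⟨φU, hUe, hUi, hUU, hUd, hUO, hUc, hUdg, hUn⟩ := embed_good G
  let φ : V → X → V := fun v => if v ∈ U then φU v else φZ v
  have e1 : ∀ v ∈ U, φ v = φU v := fun v hv => if_pos hv
  have e2 : ∀ v, v ∉ U → φ v = φZ v := fun v hv => if_neg hv
  have E1 : Edg S (xg Xv rem) φ U = Edg S (xg Xv rem) φU U := Edg_congr e1
  have E2 : Edg S (xg Xv rem) φ Uᶜ = Edg S (xg Xv rem) φZ Uᶜ :=
    Edg_congr fun v hv => e2 v (mem_compl.mp hv)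
  have E3 : Edg S (xg Xv rem) φ univ = Edg S (xg Xv rem) φU U ∪ Edg S (xg Xv rem) φZ Uᶜ := by
    rw [← E1, ← E2, ← Edg_union, Finset.union_compl]
  have hsubP : PE S P ρ U ⊆ Edg S (xg Xv rem) φU U := by
    intro ed hed
    unfold PE at hed
    rw [mem_biUnion] at hed
    obtain ⟨v, hv, hed⟩ := hed
    rw [mem_image] at hed
    obtain ⟨x, hx, rfl⟩ := hed
    rw [mem_filter] at hx
    rw [← hUe v hv x hx.1, ← hUe v hv _ hx.2.2]
    exact mem_Edg hv (pre_sub D H v hv hx.1) hx.2.1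
  refine ⟨φ, hPU, hPc, ?_, ?_, ?_, ?_, ?_, ?_, ?_, ?_, ?_, ?_, ?_, ?_⟩
  · intro z hz
    rw [e2 z hz]
    exact hZr z hz
  · intro v hv i hi
    rw [e1 v hv, hUe v hv _ ((H.mem v hv _).mpr (Or.inl ⟨i, hi, rfl⟩))]
    exact H.rc v hv i hi
  · intro v
    by_cases hv : v ∈ U
    · rw [e1 v hv]; exact hUi v hv
    · rw [e2 v hv]; exact hZi v hv
  · intro v hv x hx
    rw [e1 v hv]; exact hUU v hv x hx
  · intro v hv x hx hxc
    rw [e2 v hv]; exact hZU v hv x hx hxc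
  · -- distinct edges
    intro v _ w _ x hx hxc y hy hyc hxy
    by_cases hv : v ∈ U
    · by_cases hw : w ∈ U
      · rw [e1 v hv, e1 w hw] at hxy
        exact hUd v hv w hw x hx hxc y hy hyc hxy
      · exfalso
        rw [e1 v hv, e2 w hw] at hxy
        have h1 := mem_Edg (φ := φU) (Xe := xg Xv rem) (S := S) hv hx hxc
        have h2 := mem_Edg (φ := φZ) (Xe := xg Xv rem) (S := S) (mem_compl.mpr hw) hy hyc
        rw [hxy] at h1
        exact hUO _ h1 h2
    · by_cases hw : w ∈ U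
      · exfalso
        rw [e2 v hv, e1 w hw] at hxy
        have h1 := mem_Edg (φ := φU) (Xe := xg Xv rem) (S := S) hw hy hyc
        have h2 := mem_Edg (φ := φZ) (Xe := xg Xv rem) (S := S) (mem_compl.mpr hv) hx hxc
        rw [hxy] at h2
        exact hUO _ h1 h2
      · rw [e2 v hv, e2 w hw] at hxy
        exact hZd v (mem_compl.mpr hv) w (mem_compl.mpr hw) x hx hxc y hy hyc hxy
  · intro v hv a ha b hb hab
    rw [E3]
    exact mem_union_left _ (hsubP (pre_self D H v hv a ha b hb hab))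
  · intro u hu v hv huv a ha b hb hab ha' hb'
    rw [E3]
    rw [e1 v hv] at ha'
    rw [e1 u hu] at hb'
    exact mem_union_left _ (hUc u hu v hv huv a ha b hb hab ha' hb')
  · intro y hy hyA hyP
    rw [E3]
    have h1 := (dgr_union (Edg S (xg Xv rem) φU U) (Edg S (xg Xv rem) φZ Uᶜ) y).trans
      (Nat.add_le_add (hUdg y) (le_of_eq (hZ0 y hy hyA hyP)))
    omega
  · intro y hy hyP
    rw [E3]
    exact (dgr_union _ _ y).trans (Nat.add_le_add (hUdg y) (hZ1 y hy hyP))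
  · intro y hy
    rw [E3]
    have h1 := dgr_union (Edg S (xg Xv rem) φU U) (Edg S (xg Xv rem) φZ Uᶜ) y
    have h2 := hUdg y
    have h3 := hZ2 y hy
    omega
  · intro y
    refine le_trans (le_of_eq ?_) (hUn y)
    apply congrArg
    apply Finset.filter_congr
    intro v hv
    rw [e1 v hv]

end dat

end Pool.Agent.GT
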