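import Pool.Agent.Lib.MP_80c395_co_GT.DefsG

/-!
# MP_80c395_co, project GT: additional stars
-/

set_option autoImplicit false

open Finset

namespace Pool.Agent.GT

/-- number of edges of the additional stars -/
def fillR (n D : ℕ) (k : Fin (D / n + 1)) : ℕ := if k.val < D / n then n else D % n

theorem fillR_le {n D : ℕ} (hn : 1 ≤ n) (k : Fin (D / n + 1)) : fillR n D k ≤ n := by
  unfold fillR
  split_ifs
  · exact le_rfl
  · exact (Nat.mod_lt D hn).le

theorem fillR_sum {n D : ℕ} : ∑ k, fillR n D k = D := by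
  rw [Fin.sum_univ_castSucc]
  have h1 : ∀ k : Fin (D / n), fillR n D k.castSucc = n := by
    intro k
    unfold fillR
    rw [if_pos (by simp)]
  have h2 : fillR n D (Fin.last (D / n)) = D % n := by
    unfold fillR
    rw [if_neg (by simp)]
  rw [h2, Finset.sum_congr rfl (fun k _ => h1 k), Finset.sum_const, Finset.card_univ,
    Fintype.card_fin, smul_eq_mul, mul_comm]
  exact Nat.div_add_mod D n

theorem fill_star (n C E r : ℕ) : ∃ B : Finset (Fin (r + 1)), B.Nonempty ∧
    B.card * n ≤ n + C * (r + 1 - 1) ∧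
    E * {ed ∈ (SimpleGraph.starGraph (0 : Fin (r + 1))).edgeSet | ∀ b ∈ B, b ∉ ed}.ncard ≤
      r + 1 - 1 := by
  refine ⟨{0}, Finset.singleton_nonempty _, ?_, ?_⟩
  · rw [Finset.card_singleton, one_mul]
    exact Nat.le_add_right _ _
  · have h1 : {ed ∈ (SimpleGraph.starGraph (0 : Fin (r + 1))).edgeSet |
        ∀ b ∈ ({0} : Finset (Fin (r + 1))), b ∉ ed} = ∅ := by
      rw [Set.eq_empty_iff_forall_notMem]
      rintro ed ⟨h2, h3⟩
      have h4 := h3 0 (Finset.mem_singleton_self _)
      induction ed using Sym2.ind with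
      | _ x y =>
        rw [SimpleGraph.mem_edgeSet, SimpleGraph.starGraph_adj] at h2
        apply h4
        rw [Sym2.mem_iff]
        rcases h2.2 with h5 | h5
        · exact Or.inl h5.symm
        · exact Or.inr h5.symm
    rw [h1, Set.ncard_empty, mul_zero]
    exact Nat.zero_le _

theorem fill {n C E : ℕ} (hn : 1 ≤ n) {ι : Type} [Fintype ι] (m : ι → ℕ)
    (T : ∀ i, SimpleGraph (Fin (m i))) (hF : Fam n C E m T)
    (hsum : ∑ i, (m i - 1) ≤ n * (2 * n + 1)) :
    ∃ (ι' : Type) (_ : Fintype ι') (m' : ι' → ℕ) (T' : ∀ i, SimpleGraph (Fin (m' i))),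
      Fam n C E m' T' ∧ ∑ i, (m' i - 1) = n * (2 * n + 1) ∧ (Pk n m' T' → Pk n m T) := by
  classical
  obtain ⟨D, hD⟩ := Nat.exists_eq_add_of_le hsum
  let m' : ι ⊕ Fin (D / n + 1) → ℕ := Sum.elim m (fun k => fillR n D k + 1)
  let T' : ∀ i, SimpleGraph (Fin (m' i)) := fun i =>
    match i with
    | Sum.inl i => T i
    | Sum.inr k => SimpleGraph.starGraph (0 : Fin (fillR n D k + 1))
  refine ⟨ι ⊕ Fin (D / n + 1), inferInstance, m', T', ⟨?_, ?_, ?_⟩, ?_, ?_⟩
  · rintro (i | k)
    · exact hF.tree i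
    · exact SimpleGraph.isTree_starGraph _
  · rintro (i | k)
    · exact hF.ord i
    · exact Nat.succ_le_succ (fillR_le hn k)
  · rintro (i | k)
    · exact hF.cen i
    · exact fill_star n C E (fillR n D k)
  · rw [Fintype.sum_sum_type]
    have h1 : ∑ k : Fin (D / n + 1), (m' (Sum.inr k) - 1) = D := by
      refine Eq.trans ?_ (fillR_sum (n := n) (D := D))
      refine Finset.sum_congr rfl fun k _ => ?_
      change fillR n D k + 1 - 1 = fillR n D k
      omega
    have h2 : ∑ i : ι, (m' (Sum.inl i) - 1) = ∑ i, (m i - 1) := rfl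
    rw [h1, h2, hD]
  · rintro ⟨f, hf, hd⟩
    refine ⟨fun i => f (Sum.inl i), fun i => hf (Sum.inl i), ?_⟩
    intro i j hij a b c d hab hcd
    exact hd (Sum.inl i) (Sum.inl j) (by simpa using hij) a b c d hab hcd

end Pool.Agent.GT
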