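import Mathlib

/-!
# MP_80c395_co, project GT: the inequality for Hall's condition, general loads
-/

set_option autoImplicit false

open Finset

namespace Pool.Agent.GT

/-- Pairs `(v, w)` with `v ∈ B`, `w ∈ A v` against edges. -/
private theorem h3_sum_card_le {V : Type} [Fintype V] [DecidableEq V] (A : V → Finset V)
    (hA : ∀ v w, w ∈ A v → w ≠ v) (B : Finset V) :
    ∑ v ∈ B, (A v).card ≤
      (B.biUnion fun v => (A v).image fun w => s(v, w)).card + B.card.choose 2 := by
  classical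
  set E := B.biUnion fun v => (A v).image fun w => s(v, w) with hE
  set EB : Finset (Sym2 V) := B.offDiag.image Sym2.mk.uncurry with hEB
  have hEBc : EB.card = B.card.choose 2 := by
    rw [hEB]
    exact Sym2.card_image_offDiag B
  have hD : ∑ v ∈ B, (A v).card = (B.sigma A).card := (Finset.card_sigma _ _).symm
  rw [hD, Finset.card_eq_sum_card_fiberwise (f := fun p : (Σ _ : V, V) => s(p.1, p.2)) (t := E)]
  · calc ∑ e ∈ E, #{p ∈ B.sigma A | s(p.1, p.2) = e}
        ≤ ∑ e ∈ E, (1 + if e ∈ EB then 1 else 0) := by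
          apply Finset.sum_le_sum
          intro e _
          by_cases he : e ∈ EB
          · rw [if_pos he]
            induction e using Sym2.ind with
            | _ a b =>
              calc #{p ∈ B.sigma A | s(p.1, p.2) = s(a, b)}
                  ≤ #({⟨a, b⟩, ⟨b, a⟩} : Finset (Σ _ : V, V)) := by
                    apply Finset.card_le_card
                    intro p hp
                    rw [Finset.mem_filter] at hp
                    obtain ⟨_, hp2⟩ := hp
                    obtain ⟨x, y⟩ := p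
                    simp only [Sym2.eq_iff] at hp2
                    rcases hp2 with ⟨rfl, rfl⟩ | ⟨rfl, rfl⟩ <;> simp
                _ ≤ 1 + 1 := Finset.card_le_two
          · rw [if_neg he, add_zero, Finset.card_le_one]
            rintro ⟨x, y⟩ hp ⟨x', y'⟩ hp'
            rw [Finset.mem_filter, Finset.mem_sigma] at hp hp'
            obtain ⟨⟨hx, hy⟩, h1⟩ := hp
            obtain ⟨⟨hx', hy'⟩, h2⟩ := hp'
            simp only at hx hy h1 hx' hy' h2
            have h3 : s(x, y) = s(x', y') := h1.trans h2.symm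
            rw [Sym2.eq_iff] at h3
            rcases h3 with ⟨rfl, rfl⟩ | ⟨rfl, rfl⟩
            · rfl
            · exfalso
              apply he
              rw [hEB, Finset.mem_image]
              refine ⟨(x, y), ?_, by simpa using h1⟩
              rw [Finset.mem_offDiag]
              exact ⟨hx, hx', fun h => hA _ _ hy h.symm⟩
      _ = E.card + (E.filter fun e => e ∈ EB).card := by
          rw [Finset.sum_add_distrib, Finset.sum_const, smul_eq_mul, mul_one,
            Finset.card_filter]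
      _ ≤ E.card + B.card.choose 2 := by
          rw [← hEBc]
          apply Nat.add_le_add_left
          apply Finset.card_le_card
          intro e he
          exact (Finset.mem_filter.1 he).2
  · intro p hp
    rw [Finset.mem_coe, Finset.mem_sigma] at hp
    rw [Finset.mem_coe, hE, Finset.mem_biUnion]
    exact ⟨p.1, hp.1, Finset.mem_image.2 ⟨p.2, hp.2, rfl⟩⟩

/-- the case of large `B` -/
private theorem h3_case_one {V : Type} [Fintype V] [DecidableEq V] (n R p0 : ℕ)
    (hV : Fintype.card V = 2 * n + 1) (hR : 1 ≤ R)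
    (hn1 : 100 * R * (p0 + 1) ≤ n)
    (Used : Finset (Sym2 V)) (hdiag : ∀ e ∈ Used, ¬ e.IsDiag) (A : V → Finset V)
    (L : V → ℕ) (Z : Finset V) (hZ : Z.card ≤ p0)
    (htot : Used.card + ∑ v, L v = n * (2 * n + 1))
    (hnc : ∀ v w, v ≠ w → s(v, w) ∉ Used → w ∈ A v ∨ v ∈ A w)
    (c1 : ∀ y, y ∉ Z → 49 * n ≤ 100 * L y)
    (c2 : ∀ y, y ∉ Z →
      100 * (univ.filter fun v => v ≠ y ∧ s(v, y) ∉ Used ∧ y ∉ A v).card ≤ n)
    (c3 : ∀ y ∈ Z, ∀ v, v ≠ y → s(v, y) ∉ Used → y ∈ A v)
    (c4 : ∀ y ∈ Z, n ≤ 4 * R * L y)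
    (B : Finset V) (hB : 6 * n ≤ 5 * B.card) :
    ∑ v ∈ B, L v ≤ (B.biUnion fun v => (A v).image fun w => s(v, w)).card := by
  classical
  set E := B.biUnion fun v => (A v).image fun w => s(v, w) with hE
  set AllE : Finset (Sym2 V) := (univ : Finset V).offDiag.image Sym2.mk.uncurry with hAll
  have hAllc : AllE.card = n * (2 * n + 1) := by
    have h : AllE.card = (univ : Finset V).card.choose 2 := by
      rw [hAll]
      exact Sym2.card_image_offDiag univ
    rw [h, Finset.card_univ, hV, Nat.choose_two_right, Nat.add_sub_cancel]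
    rw [show (2 * n + 1) * (2 * n) = 2 * (n * (2 * n + 1)) by ring]
    exact Nat.mul_div_cancel_left _ (by norm_num)
  have hUsub : Used ⊆ AllE := by
    intro e he
    have hd := hdiag e he
    induction e using Sym2.ind with
    | _ a b =>
      rw [hAll, Finset.mem_image]
      refine ⟨(a, b), ?_, rfl⟩
      rw [Finset.mem_offDiag]
      exact ⟨mem_univ _, mem_univ _, fun h => hd (by rw [Sym2.mk_isDiag_iff]; exact h)⟩
  set bad : V → Finset V := fun y => univ.filter fun v => v ≠ y ∧ s(v, y) ∉ Used ∧ y ∉ A v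
    with hbad
  have hN : (AllE \ Used).card = ∑ v, L v := by
    rw [Finset.card_sdiff_of_subset hUsub, hAllc]
    omega
  have hsub : (AllE \ Used) \ E ⊆ (Bᶜ.offDiag.image Sym2.mk.uncurry) ∪
      (Bᶜ.biUnion fun y => (bad y).image fun v => s(v, y)) := by
    intro e he
    rw [Finset.mem_sdiff, Finset.mem_sdiff, hAll, Finset.mem_image] at he
    obtain ⟨⟨⟨⟨v, w⟩, hvw, rfl⟩, hu⟩, hne⟩ := he
    rw [Finset.mem_offDiag] at hvw
    obtain ⟨-, -, hvw⟩ := hvw
    simp only at hvw
    have hu' : s(v, w) ∉ Used := hu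
    have hne' : s(v, w) ∉ E := hne
    have hEm : ∀ x y, x ∈ B → y ∈ A x → s(x, y) ∈ E := fun x y hx hy => by
      rw [hE, Finset.mem_biUnion]
      exact ⟨x, hx, Finset.mem_image.2 ⟨y, hy, rfl⟩⟩
    rw [Finset.mem_union]
    show s(v, w) ∈ _ ∨ s(v, w) ∈ _
    by_cases hv : v ∈ B
    · by_cases hw : w ∈ B
      · exfalso
        rcases hnc v w hvw hu' with h | h
        · exact hne' (hEm v w hv h)
        · exact hne' (by rw [Sym2.eq_swap]; exact hEm w v hw h)
      · right
        rw [Finset.mem_biUnion]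
        refine ⟨w, Finset.mem_compl.2 hw, Finset.mem_image.2 ⟨v, ?_, rfl⟩⟩
        rw [hbad, Finset.mem_filter]
        exact ⟨mem_univ _, hvw, hu', fun h => hne' (hEm v w hv h)⟩
    · by_cases hw : w ∈ B
      · right
        rw [Finset.mem_biUnion]
        refine ⟨v, Finset.mem_compl.2 hv, Finset.mem_image.2 ⟨w, ?_, Sym2.eq_swap⟩⟩
        rw [hbad, Finset.mem_filter]
        refine ⟨mem_univ _, hvw.symm, ?_, fun h => hne' ?_⟩
        · rw [Sym2.eq_swap]; exact hu'
        · rw [Sym2.eq_swap]; exact hEm w v hw h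
      · left
        rw [Finset.mem_image]
        refine ⟨(v, w), ?_, rfl⟩
        rw [Finset.mem_offDiag]
        exact ⟨Finset.mem_compl.2 hv, Finset.mem_compl.2 hw, hvw⟩
  have hcard : ((AllE \ Used) \ E).card ≤ Bᶜ.card.choose 2 + ∑ y ∈ Bᶜ, (bad y).card := by
    calc ((AllE \ Used) \ E).card ≤ _ := Finset.card_le_card hsub
      _ ≤ _ := Finset.card_union_le _ _
      _ ≤ Bᶜ.card.choose 2 + ∑ y ∈ Bᶜ, (bad y).card := by
        apply Nat.add_le_add
        · exact le_of_eq (Sym2.card_image_offDiag Bᶜ)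
        · refine le_trans Finset.card_biUnion_le ?_
          apply Finset.sum_le_sum
          intro y _
          exact Finset.card_image_le
  have hle : ∑ v, L v ≤ E.card + (Bᶜ.card.choose 2 + ∑ y ∈ Bᶜ, (bad y).card) := by
    rw [← hN]
    calc (AllE \ Used).card ≤ E.card + ((AllE \ Used) \ E).card := by
          have := Finset.le_card_sdiff E (AllE \ Used)
          omega
      _ ≤ _ := Nat.add_le_add_left hcard _
  have hsplit : ∑ v ∈ B, L v + ∑ v ∈ Bᶜ, L v = ∑ v, L v := Finset.sum_add_sum_compl B L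
  have hC : Bᶜ.card = 2 * n + 1 - B.card := by rw [Finset.card_compl, hV]
  -- the numerical part
  suffices hmain : Bᶜ.card.choose 2 + ∑ y ∈ Bᶜ, (bad y).card ≤ ∑ v ∈ Bᶜ, L v by omega
  set C := Bᶜ with hCdef
  set u := (C.filter fun y => ¬ y ∈ Z).card with hu
  set z := (C.filter fun y => y ∈ Z).card with hz
  have huz : z + u = C.card := Finset.card_filter_add_card_filter_not _
  have hz0 : z ≤ p0 := by
    refine le_trans (Finset.card_le_card ?_) hZ
    intro y hy
    exact (Finset.mem_filter.1 hy).2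
  have hcn : 5 * C.card ≤ 4 * n + 5 := by
    have hBle : B.card ≤ 2 * n + 1 := by rw [← hV]; exact Finset.card_le_univ B
    omega
  have hU1 : 100 * ∑ y ∈ C.filter (fun y => ¬ y ∈ Z), (bad y).card + 48 * n * u
      ≤ 100 * ∑ y ∈ C.filter (fun y => ¬ y ∈ Z), L y := by
    rw [Finset.mul_sum, Finset.mul_sum, hu, mul_comm (48 * n), ← smul_eq_mul (a := Finset.card _),
      ← Finset.sum_const, ← Finset.sum_add_distrib]
    apply Finset.sum_le_sum
    intro y hy
    have hyU := (Finset.mem_filter.1 hy).2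
    have e1 : 100 * (bad y).card ≤ n := c2 y hyU
    have e2 := c1 y hyU
    omega
  have hU2 : n * z ≤ 4 * R * ∑ y ∈ C.filter (fun y => y ∈ Z), L y := by
    rw [Finset.mul_sum, hz, mul_comm n, ← smul_eq_mul (a := Finset.card _), ← Finset.sum_const]
    apply Finset.sum_le_sum
    intro y hy
    exact c4 y (Finset.mem_filter.1 hy).2
  have hU3 : ∑ y ∈ C.filter (fun y => y ∈ Z), (bad y).card = 0 := by
    apply Finset.sum_eq_zero
    intro y hy
    have hyU := (Finset.mem_filter.1 hy).2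
    rw [Finset.card_eq_zero, Finset.eq_empty_iff_forall_notMem]
    intro v hv
    rw [hbad, Finset.mem_filter] at hv
    exact hv.2.2.2 (c3 y hyU v hv.2.1 hv.2.2.1)
  have hs1 : ∑ y ∈ C, (bad y).card = ∑ y ∈ C.filter (fun y => y ∈ Z), (bad y).card
      + ∑ y ∈ C.filter (fun y => ¬ y ∈ Z), (bad y).card :=
    (Finset.sum_filter_add_sum_filter_not C (fun y => y ∈ Z) _).symm
  have hs2 : ∑ y ∈ C, L y = ∑ y ∈ C.filter (fun y => y ∈ Z), L y
      + ∑ y ∈ C.filter (fun y => ¬ y ∈ Z), L y :=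
    (Finset.sum_filter_add_sum_filter_not C (fun y => y ∈ Z) _).symm
  set SU := ∑ y ∈ C.filter (fun y => ¬ y ∈ Z), L y
  set SN := ∑ y ∈ C.filter (fun y => y ∈ Z), L y
  set TU := ∑ y ∈ C.filter (fun y => ¬ y ∈ Z), (bad y).card
  have hch : 2 * C.card.choose 2 = C.card * (C.card - 1) := by
    rw [Nat.choose_two_right]
    exact Nat.mul_div_cancel' (Nat.even_mul_pred_self _).two_dvd
  rw [hs1, hs2, hU3, zero_add]
  set ch := C.card.choose 2
  set c := C.card with hc
  have hp0R : 100 * (R * p0) ≤ n := by nlinarith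
  -- key : 100 R c (c - 1) ≤ 96 R n u + 50 n z
  have key : 100 * R * (c * (c - 1)) ≤ 96 * R * n * u + 50 * n * z := by
    rcases Nat.eq_zero_or_pos c with h0 | hpos
    · rw [h0]; simp
    · obtain ⟨m, hm⟩ : ∃ m, c = m + 1 := ⟨c - 1, by omega⟩
      rw [hm] at huz hcn ⊢
      simp only [Nat.add_sub_cancel]
      have hm5 : 5 * m ≤ 4 * n := by omega
      by_cases h8 : 8 * z ≤ u
      · have e1 : 8 * (m + 1) ≤ 9 * u := by omega
        have e2 : 100 * ((m + 1) * m) ≤ 96 * n * u := by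
          have f1 : 8 * (m + 1) * (5 * m) ≤ 9 * u * (4 * n) := Nat.mul_le_mul e1 hm5
          nlinarith
        calc 100 * R * ((m + 1) * m) = R * (100 * ((m + 1) * m)) := by ring
          _ ≤ R * (96 * n * u) := Nat.mul_le_mul_left _ e2
          _ = 96 * R * n * u := by ring
          _ ≤ _ := Nat.le_add_right _ _
      · have e1 : m ≤ 9 * p0 := by omega
        have e2 : R * m ≤ 9 * (R * p0) := by
          calc R * m ≤ R * (9 * p0) := Nat.mul_le_mul_left _ e1
            _ = _ := by ring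
        have e3 : 100 * (R * m) ≤ 9 * n := by omega
        have e4 : 100 * R * ((m + 1) * m) ≤ 9 * n * (m + 1) := by
          calc 100 * R * ((m + 1) * m) = 100 * (R * m) * (m + 1) := by ring
            _ ≤ _ := Nat.mul_le_mul_right _ e3
        have e5 : 9 * n * (m + 1) = 9 * n * z + 9 * n * u := by rw [← huz]; ring
        have e6 : 9 * n * u ≤ 96 * R * n * u := by
          have : 9 * (n * u) ≤ 96 * R * (n * u) := Nat.mul_le_mul_right _ (by omega)
          calc 9 * n * u = 9 * (n * u) := by ring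
            _ ≤ 96 * R * (n * u) := this
            _ = _ := by ring
        have e7 : 9 * n * z ≤ 50 * n * z := by
          have : 9 * (n * z) ≤ 50 * (n * z) := Nat.mul_le_mul_right _ (by omega)
          calc 9 * n * z = 9 * (n * z) := by ring
            _ ≤ 50 * (n * z) := this
            _ = _ := by ring
        omega
  -- multiply everything by `200 R`
  have hfin : 200 * R * (ch + TU) ≤ 200 * R * (SN + SU) := by
    have g1 : 200 * R * ch = 100 * R * (c * (c - 1)) := by rw [← hch]; ring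
    have g2 : 2 * R * (100 * TU + 48 * n * u) ≤ 2 * R * (100 * SU) :=
      Nat.mul_le_mul_left _ hU1
    have g3 : 50 * (n * z) ≤ 50 * (4 * R * SN) := Nat.mul_le_mul_left _ hU2
    calc 200 * R * (ch + TU) = 200 * R * ch + 200 * R * TU := by ring
      _ = 100 * R * (c * (c - 1)) + 200 * R * TU := by rw [g1]
      _ ≤ (96 * R * n * u + 50 * n * z) + 200 * R * TU := Nat.add_le_add_right key _
      _ = 2 * R * (100 * TU + 48 * n * u) + 50 * (n * z) := by ring
      _ ≤ 2 * R * (100 * SU) + 50 * (4 * R * SN) := Nat.add_le_add g2 g3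
      _ = _ := by ring
  exact Nat.le_of_mul_le_mul_left hfin (by positivity)

/-- a lower bound for the sum of the defects -/
private theorem h3_lam {s D N2 kap c : ℝ} (h : N2 * s ^ 2 ≤ (s + (N2 + 1)) * D)
    (hc : s + (N2 + 1) ≤ c) (hc0 : 0 < c) (hk : kap * c ≤ N2) (hD : 0 ≤ D) :
    kap * s ^ 2 ≤ D := by
  have h1 : c * (kap * s ^ 2) ≤ c * D := by
    calc c * (kap * s ^ 2) = (kap * c) * s ^ 2 := by ring
      _ ≤ N2 * s ^ 2 := mul_le_mul_of_nonneg_right hk (sq_nonneg _)
      _ ≤ (s + (N2 + 1)) * D := h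
      _ ≤ c * D := mul_le_mul_of_nonneg_right hc hD
  exact le_of_mul_le_mul_left h1 hc0

/-- the case of small `B`: the sum -/
private theorem h3_case_two {V : Type} [Fintype V] [DecidableEq V] (n p0 la t th ta : ℕ)
    (hn0 : 1000 ≤ n)
    (hp0 : 100 * p0 ≤ n) (hn2 : 20 * la ≤ th) (hn3 : 20 * (la + t) ≤ ta)
    (hn4 : 5 * ta ≤ n) (hn5 : 100 * (la + t) ≤ n)
    (a L M : V → ℕ) (Z Av Pol : Finset V) (hPol : Pol.card ≤ p0)
    (hM2 : ∀ v, M v ≤ 2 * n)
    (hLam : ∀ B : Finset V, 2 * n * B.card ^ 2 ≤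
      (B.card + (2 * n + 1)) * ∑ v ∈ B, (2 * n - M v))
    (z1 : ∀ v ∈ Z, 2 * n + L v ≤ a v + M v)
    (u0 : ∀ v, v ∉ Z → v ∈ Av → v ∉ Pol → 2 * n + L v ≤ a v + M v + la)
    (u1 : ∀ v, v ∉ Z → v ∉ Pol → 2 * n + L v ≤ a v + M v + la + t)
    (u2 : ∀ v ∈ Pol, 100 * L v + 30 * n ≤ 100 * a v)
    (hth : ∀ v, v ∉ Z → M v + th ≤ 2 * n) (hta : ∀ v, v ∉ Av → M v + ta ≤ 2 * n)
    (B : Finset V) (hB : 5 * B.card < 6 * n) :
    ∑ v ∈ B, L v + B.card.choose 2 ≤ ∑ v ∈ B, a v := by
  classical
  -- real versions of the sums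
  set sL : Finset V → ℝ := fun S => ∑ v ∈ S, (L v : ℝ) with hsL
  set sA : Finset V → ℝ := fun S => ∑ v ∈ S, (a v : ℝ) with hsA
  set sD : Finset V → ℝ := fun S => ∑ v ∈ S, (2 * (n : ℝ) - M v) with hsD
  have hDnn : ∀ S, 0 ≤ sD S := by
    intro S
    apply Finset.sum_nonneg
    intro v _
    have : ((M v : ℕ) : ℝ) ≤ ((2 * n : ℕ) : ℝ) := by exact_mod_cast hM2 v
    push_cast at this
    linarith
  have hLamR : ∀ S : Finset V, (2 * (n : ℝ)) * (S.card : ℝ) ^ 2 ≤
      ((S.card : ℝ) + ((2 * (n : ℝ)) + 1)) * sD S := by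
    intro S
    have h := hLam S
    have h' : ((2 * n * S.card ^ 2 : ℕ) : ℝ) ≤
        (((S.card + (2 * n + 1)) * ∑ v ∈ S, (2 * n - M v) : ℕ) : ℝ) := by exact_mod_cast h
    rw [Nat.cast_mul (S.card + (2 * n + 1)), Nat.cast_sum] at h'
    have h2 : ∑ v ∈ S, (((2 * n - M v : ℕ)) : ℝ) = sD S := by
      apply Finset.sum_congr rfl
      intro v _
      rw [Nat.cast_sub (hM2 v)]
      push_cast
      ring
    rw [h2] at h'
    push_cast at h'
    linarith
  have hnR : (1000 : ℝ) ≤ n := by exact_mod_cast hn0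
  have hn2R : 20 * (la : ℝ) ≤ th := by exact_mod_cast hn2
  have hn3R : 20 * ((la : ℝ) + t) ≤ ta := by exact_mod_cast hn3
  have hn4R : 5 * (ta : ℝ) ≤ n := by exact_mod_cast hn4
  have hn5R : 100 * ((la : ℝ) + t) ≤ n := by exact_mod_cast hn5
  have hp0R : 100 * (p0 : ℝ) ≤ n := by exact_mod_cast hp0
  have hla0 : (0 : ℝ) ≤ la := Nat.cast_nonneg _
  have ht0 : (0 : ℝ) ≤ t := Nat.cast_nonneg _
  have hta0 : (0 : ℝ) ≤ ta := Nat.cast_nonneg _
  have hth0 : (0 : ℝ) ≤ th := Nat.cast_nonneg _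
  -- the lemma for the defects
  have lam95 : ∀ S : Finset V, 10 * (S.card : ℝ) ≤ n → 0.95 * (S.card : ℝ) ^ 2 ≤ sD S := by
    intro S hS
    exact h3_lam (c := 2.1 * n + 1) (hLamR S) (by linarith) (by linarith) (by linarith) (hDnn S)
  have lam62 : ∀ S : Finset V, 5 * (S.card : ℝ) ≤ 6 * n → 0.62 * (S.card : ℝ) ^ 2 ≤ sD S := by
    intro S hS
    exact h3_lam (c := 3.2 * n + 1) (hLamR S) (by linarith) (by linarith) (by linarith) (hDnn S)
  -- elementwise bounds, summed
  have cz : ∀ v ∈ Z, (2 * (n : ℝ) - M v) + L v ≤ a v := by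
    intro v hv
    have h : ((2 * n + L v : ℕ) : ℝ) ≤ ((a v + M v : ℕ) : ℝ) := by exact_mod_cast z1 v hv
    push_cast at h
    linarith
  have cu0 : ∀ v, v ∉ Z → v ∈ Av → v ∉ Pol → (2 * (n : ℝ) - M v) + L v ≤ a v + la := by
    intro v h1 h2 h3
    have h : ((2 * n + L v : ℕ) : ℝ) ≤ ((a v + M v + la : ℕ) : ℝ) := by
      exact_mod_cast u0 v h1 h2 h3
    push_cast at h
    linarith
  have cu1 : ∀ v, v ∉ Pol → (2 * (n : ℝ) - M v) + L v ≤ a v + (la + t) := by
    intro v h3
    by_cases h1 : v ∈ Z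
    · have := cz v h1
      linarith
    · have h : ((2 * n + L v : ℕ) : ℝ) ≤ ((a v + M v + la + t : ℕ) : ℝ) := by
        exact_mod_cast u1 v h1 h3
      push_cast at h
      linarith
  have cu2 : ∀ v ∈ Pol, (L v : ℝ) + 0.3 * n ≤ a v := by
    intro v hv
    have h : ((100 * L v + 30 * n : ℕ) : ℝ) ≤ ((100 * a v : ℕ) : ℝ) := by
      exact_mod_cast u2 v hv
    push_cast at h
    linarith
  have cth : ∀ v, v ∉ Z → (th : ℝ) ≤ 2 * (n : ℝ) - M v := by
    intro v hv
    have h : ((M v + th : ℕ) : ℝ) ≤ ((2 * n : ℕ) : ℝ) := by exact_mod_cast hth v hv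
    push_cast at h
    linarith
  have cta : ∀ v, v ∉ Av → (ta : ℝ) ≤ 2 * (n : ℝ) - M v := by
    intro v hv
    have h : ((M v + ta : ℕ) : ℝ) ≤ ((2 * n : ℕ) : ℝ) := by exact_mod_cast hta v hv
    push_cast at h
    linarith
  -- parts of B
  set P := B.filter (fun v => v ∈ Pol) with hPdef
  set B' := B.filter (fun v => ¬ v ∈ Pol) with hB'def
  have hPc : (P.card : ℝ) ≤ p0 := by
    exact_mod_cast le_trans (Finset.card_le_card fun v hv => (Finset.mem_filter.1 hv).2) hPol
  have hcard : (B.card : ℝ) = P.card + B'.card := by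
    exact_mod_cast (Finset.card_filter_add_card_filter_not (s := B) (fun v => v ∈ Pol)).symm
  have hLs : sL B = sL P + sL B' :=
    (Finset.sum_filter_add_sum_filter_not B (fun v => v ∈ Pol) _).symm
  have hAs : sA B = sA P + sA B' :=
    (Finset.sum_filter_add_sum_filter_not B (fun v => v ∈ Pol) _).symm
  have hPsum : sL P + 0.3 * n * P.card ≤ sA P := by
    have h : ∑ v ∈ P, ((L v : ℝ) + 0.3 * n) ≤ ∑ v ∈ P, (a v : ℝ) :=
      Finset.sum_le_sum fun v hv => cu2 v (Finset.mem_filter.1 hv).2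
    rw [Finset.sum_add_distrib, Finset.sum_const, nsmul_eq_mul] at h
    simp only [hsL, hsA]
    linarith
  have hB'sum : sD B' + sL B' ≤ sA B' + (la + t) * B'.card := by
    have h : ∑ v ∈ B', ((2 * (n : ℝ) - M v) + L v) ≤ ∑ v ∈ B', ((a v : ℝ) + (la + t)) :=
      Finset.sum_le_sum fun v hv => cu1 v (Finset.mem_filter.1 hv).2
    rw [Finset.sum_add_distrib, Finset.sum_add_distrib, Finset.sum_const, nsmul_eq_mul] at h
    simp only [hsL, hsA, hsD]
    linarith
  have hBR : 5 * (B.card : ℝ) ≤ 6 * n := by exact_mod_cast hB.le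
  set p : ℝ := (P.card : ℝ) with hp
  set b' : ℝ := (B'.card : ℝ) with hb'
  have hp00 : 0 ≤ p := Nat.cast_nonneg _
  have hb'0 : 0 ≤ b' := Nat.cast_nonneg _
  have hchoose : ((B.card.choose 2 : ℕ) : ℝ) = (p + b') * (p + b' - 1) / 2 := by
    rw [Nat.cast_choose_two, hcard]
  -- the goal in the reals
  suffices hgoal : sL B + (p + b') * (p + b' - 1) / 2 ≤ sA B by
    have : ((∑ v ∈ B, L v + B.card.choose 2 : ℕ) : ℝ) ≤ ((∑ v ∈ B, a v : ℕ) : ℝ) := by
      rw [Nat.cast_add, hchoose, Nat.cast_sum, Nat.cast_sum]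
      exact hgoal
    exact_mod_cast this
  have hpn : 100 * p ≤ n := by linarith
  have hbn : 5 * (p + b') ≤ 6 * n := by rw [← hcard]; exact hBR
  by_cases hlarge : 5 * b' ≤ n
  · -- it suffices to treat `B'`
    suffices hB'goal : sL B' + b' * (b' - 1) / 2 ≤ sA B' by
      rw [hLs, hAs]
      have h1 : p * (b' + p / 2) ≤ 0.3 * n * p := by
        have : b' + p / 2 ≤ 0.3 * n := by linarith
        nlinarith
      nlinarith
    by_cases hta2 : 2 * b' ≤ ta
    · -- CASE 2
      set X := B'.filter (fun v => ¬ v ∈ Av) with hXdef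
      set B2 := B'.filter (fun v => v ∈ Av) with hB2def
      have hcard2 : b' = (B2.card : ℝ) + X.card := by
        rw [hb']
        exact_mod_cast (Finset.card_filter_add_card_filter_not (s := B') (fun v => v ∈ Av)).symm
      have hLs2 : sL B' = sL B2 + sL X :=
        (Finset.sum_filter_add_sum_filter_not B' (fun v => v ∈ Av) _).symm
      have hAs2 : sA B' = sA B2 + sA X :=
        (Finset.sum_filter_add_sum_filter_not B' (fun v => v ∈ Av) _).symm
      have hXsum : sL X + b' * X.card ≤ sA X := by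
        have h : ∑ v ∈ X, ((L v : ℝ) + b') ≤ ∑ v ∈ X, (a v : ℝ) := by
          apply Finset.sum_le_sum
          intro v hv
          have hv1 := Finset.mem_filter.1 hv
          have hv2 := Finset.mem_filter.1 hv1.1
          have e1 := cu1 v hv2.2
          have e2 := cta v hv1.2
          linarith
        rw [Finset.sum_add_distrib, Finset.sum_const, nsmul_eq_mul] at h
        simp only [hsL, hsA]
        linarith
      set x : ℝ := (X.card : ℝ) with hx
      set b2 : ℝ := (B2.card : ℝ) with hb2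
      have hx0 : 0 ≤ x := Nat.cast_nonneg _
      have hb20 : 0 ≤ b2 := Nat.cast_nonneg _
      suffices hB2goal : sL B2 + b2 ^ 2 / 2 ≤ sA B2 + b2 / 2 by
        rw [hLs2, hAs2]
        have h1 : b' * (b' - 1) / 2 ≤ b2 ^ 2 / 2 - b2 / 2 + b' * x := by
          rw [hcard2]
          nlinarith
        linarith
      have hb2n : 10 * b2 ≤ n := by linarith
      by_cases h4 : 4 * b2 ≤ th
      · set Z2 := B2.filter (fun v => v ∈ Z) with hZ2def
        set U2 := B2.filter (fun v => ¬ v ∈ Z) with hU2def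
        have hcard3 : b2 = (Z2.card : ℝ) + U2.card := by
          rw [hb2]
          exact_mod_cast (Finset.card_filter_add_card_filter_not (s := B2) (fun v => v ∈ Z)).symm
        have hLs3 : sL B2 = sL Z2 + sL U2 :=
          (Finset.sum_filter_add_sum_filter_not B2 (fun v => v ∈ Z) _).symm
        have hAs3 : sA B2 = sA Z2 + sA U2 :=
          (Finset.sum_filter_add_sum_filter_not B2 (fun v => v ∈ Z) _).symm
        have hUsum : sL U2 + b2 * U2.card ≤ sA U2 := by
          have h : ∑ v ∈ U2, ((L v : ℝ) + b2) ≤ ∑ v ∈ U2, (a v : ℝ) := by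
            apply Finset.sum_le_sum
            intro v hv
            have hv1 := Finset.mem_filter.1 hv
            have hv2 := Finset.mem_filter.1 hv1.1
            have hv3 := Finset.mem_filter.1 hv2.1
            have e1 := cu0 v hv1.2 hv2.2 hv3.2
            have e2 := cth v hv1.2
            linarith
          rw [Finset.sum_add_distrib, Finset.sum_const, nsmul_eq_mul] at h
          simp only [hsL, hsA]
          linarith
        have hZsum : sD Z2 + sL Z2 ≤ sA Z2 := by
          have h : ∑ v ∈ Z2, ((2 * (n : ℝ) - M v) + L v) ≤ ∑ v ∈ Z2, (a v : ℝ) :=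
            Finset.sum_le_sum fun v hv => cz v (Finset.mem_filter.1 hv).2
          rw [Finset.sum_add_distrib] at h
          simp only [hsL, hsA, hsD]
          linarith
        set z : ℝ := (Z2.card : ℝ) with hz
        set u : ℝ := (U2.card : ℝ) with hu
        have hz0 : 0 ≤ z := Nat.cast_nonneg _
        have hu0 : 0 ≤ u := Nat.cast_nonneg _
        have hl := lam95 Z2 (by linarith)
        rw [hLs3, hAs3]
        have h1 : b2 ^ 2 / 2 ≤ 0.95 * z ^ 2 + b2 * u := by
          rw [hcard3]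
          nlinarith [mul_nonneg hz0 hu0, sq_nonneg z, sq_nonneg u]
        linarith
      · have hB2sum : sD B2 + sL B2 ≤ sA B2 + la * b2 := by
          have h : ∑ v ∈ B2, ((2 * (n : ℝ) - M v) + L v) ≤ ∑ v ∈ B2, ((a v : ℝ) + la) := by
            apply Finset.sum_le_sum
            intro v hv
            have hv2 := Finset.mem_filter.1 hv
            have hv3 := Finset.mem_filter.1 hv2.1
            by_cases hz : v ∈ Z
            · have := cz v hz
              linarith
            · exact cu0 v hz hv2.2 hv3.2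
          rw [Finset.sum_add_distrib, Finset.sum_add_distrib, Finset.sum_const,
            nsmul_eq_mul] at h
          simp only [hsL, hsA, hsD]
          linarith
        have hl := lam95 B2 (by linarith)
        have h5 : 5 * (la : ℝ) ≤ b2 := by
          have : (th : ℝ) < 4 * b2 := by linarith [not_le.1 h4]
          linarith
        have h6 : (la : ℝ) * b2 ≤ b2 ^ 2 / 5 := by nlinarith
        nlinarith
    · -- CASE 3, `b' ≤ n / 5`
      have hl := lam62 B' (by linarith)
      have h5 : 10 * ((la : ℝ) + t) ≤ b' := by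
        have : (ta : ℝ) < 2 * b' := by linarith [not_le.1 hta2]
        linarith
      have h6 : ((la : ℝ) + t) * b' ≤ b' ^ 2 / 10 := by nlinarith
      nlinarith
  · -- CASE 3, `b' > n / 5`
    have hlarge' : (n : ℝ) < 5 * b' := not_le.1 hlarge
    have hl := lam62 B' (by linarith)
    rw [hLs, hAs]
    have h1 : ((la : ℝ) + t) * b' ≤ 0.01 * n * b' := by nlinarith
    have h2 : p * b' ≤ 0.01 * n * b' := by nlinarith
    have h3 : 0.2 * n * b' ≤ b' ^ 2 := by nlinarith
    have h4 : p * p ≤ 0.01 * n * p := by nlinarith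
    nlinarith [mul_nonneg hp00 (by linarith : (0 : ℝ) ≤ n), mul_nonneg hb'0 (by linarith : (0 : ℝ) ≤ n)]

theorem hall_ineq3 {V : Type} [Fintype V] [DecidableEq V] (n R p0 la t th ta : ℕ)
    (hV : Fintype.card V = 2 * n + 1) (hR : 1 ≤ R) (hn0 : 1000 ≤ n)
    (hn1 : 100 * R * (p0 + 1) ≤ n) (hn2 : 20 * la ≤ th) (hn3 : 20 * (la + t) ≤ ta)
    (hn4 : 5 * ta ≤ n) (hn5 : 100 * (la + t) ≤ n)
    (Used : Finset (Sym2 V)) (hdiag : ∀ e ∈ Used, ¬ e.IsDiag) (A : V → Finset V)
    (L M : V → ℕ) (Z Av Pol : Finset V) (hZ : Z.card ≤ p0) (hPol : Pol.card ≤ p0)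
    (htot : Used.card + ∑ v, L v = n * (2 * n + 1))
    (hM1 : ∀ v, n ≤ 2 * M v) (hM2 : ∀ v, M v ≤ 2 * n)
    (hLam : ∀ B : Finset V, 2 * n * B.card ^ 2 ≤
      (B.card + (2 * n + 1)) * ∑ v ∈ B, (2 * n - M v))
    (hA : ∀ v w, w ∈ A v → w ≠ v ∧ s(v, w) ∉ Used)
    (hnc : ∀ v w, v ≠ w → s(v, w) ∉ Used → w ∈ A v ∨ v ∈ A w)
    (z1 : ∀ v ∈ Z, 2 * n + L v ≤ (A v).card + M v)
    (u0 : ∀ v, v ∉ Z → v ∈ Av → v ∉ Pol → 2 * n + L v ≤ (A v).card + M v + la)
    (u1 : ∀ v, v ∉ Z → v ∉ Pol → 2 * n + L v ≤ (A v).card + M v + la + t)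
    (u2 : ∀ v ∈ Pol, 100 * L v + 30 * n ≤ 100 * (A v).card)
    (hth : ∀ v, v ∉ Z → M v + th ≤ 2 * n) (hta : ∀ v, v ∉ Av → M v + ta ≤ 2 * n)
    (c1 : ∀ y, y ∉ Z → M y ≤ L y + la)
    (c2 : ∀ y, y ∉ Z →
      100 * (univ.filter fun v => v ≠ y ∧ s(v, y) ∉ Used ∧ y ∉ A v).card ≤ n)
    (c3 : ∀ y ∈ Z, ∀ v, v ≠ y → s(v, y) ∉ Used → y ∈ A v)
    (c4 : ∀ y ∈ Z, n ≤ 4 * R * L y)
    (B : Finset V) :
    ∑ v ∈ B, L v ≤ (B.biUnion fun v => (A v).image fun w => s(v, w)).card := by
  rcases Nat.lt_or_ge (5 * B.card) (6 * n) with h | h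
  · have hp0 : 100 * p0 ≤ n := by nlinarith
    have h1 := h3_case_two n p0 la t th ta hn0 hp0 hn2 hn3 hn4 hn5 (fun v => (A v).card) L M
      Z Av Pol hPol hM2 hLam z1 u0 u1 u2 hth hta B h
    have h2 := h3_sum_card_le A (fun v w hw => (hA v w hw).1) B
    have h3 : ∑ v ∈ B, L v + B.card.choose 2 ≤
      (B.biUnion fun v => (A v).image fun w => s(v, w)).card + B.card.choose 2 := le_trans h1 h2
    exact Nat.le_of_add_le_add_right h3
  · refine h3_case_one n R p0 hV hR hn1 Used hdiag A L Z hZ htot hnc ?_ c2 c3 c4 B h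
    intro y hy
    have e1 := c1 y hy
    have e2 := hM1 y
    omega

end Pool.Agent.GT
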