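import Pool.Agent.Lib.MP_80c395_co_GT.ExEmbG
import Pool.Agent.Lib.MP_80c395_co_GT.HallIneq3

/-!
# MP_80c395_co, project GT: Hall's condition for the unused edges
-/

set_option autoImplicit false

open Finset

namespace Pool.Agent.GT

open Pool.Agent.Lib.MP_80c395_co Pool.Agent.BC

section dat
variable {V X : Type} [Fintype V] [DecidableEq V] [Fintype X] [DecidableEq X] {R : ℕ}
  {n κ p0 e t : ℕ} {S : V → RT X} {c : V → Fin R → X} {Xv : V → Finset X}
  {lv rem : V → Fin R → Finset X}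
  {i0 : V → Fin R} {U : Finset V} {π : Equiv.Perm V} {Pol Av : Finset V} {φ : V → X → V}

/-- the hosts of the tree `u` -/
def ho (π : Equiv.Perm V) (rem : V → Fin R → Finset X) (U : Finset V) (u : V) : Finset V :=
  if u ∈ U then hs π rem u else {u}

/-- vertices of the trees hosted at `w` -/
def Fs (π : Equiv.Perm V) (Xv : V → Finset X) (rem : V → Fin R → Finset X) (U : Finset V) (φ : V → X → V)
    (w : V) : Finset V :=
  (univ.filter fun u => w ∈ ho π rem U u).biUnion fun u => (xg Xv rem u).image (φ u)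

/-- possible ends of the leaves hosted at `w` -/
def As (S : V → RT X) (π : Equiv.Perm V) (Xv : V → Finset X)
    (rem : V → Fin R → Finset X) (U : Finset V) (φ : V → X → V) (w : V) : Finset V :=
  univ.filter fun y => y ≠ w ∧ s(w, y) ∉ Edg S (xg Xv rem) φ univ ∧ y ∉ Fs π Xv rem U φ w

theorem ho_of_mem {u : V} (hu : u ∈ U) : ho π rem U u = hs π rem u := if_pos hu

theorem ho_of_not {u : V} (hu : u ∉ U) : ho π rem U u = {u} := if_neg hu

theorem mem_Fs {w y : V} : y ∈ Fs π Xv rem U φ w ↔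
    ∃ u, w ∈ ho π rem U u ∧ y ∈ (xg Xv rem u).image (φ u) := by
  unfold Fs
  rw [mem_biUnion]
  simp only [mem_filter, mem_univ, true_and]

theorem mem_As {w y : V} : y ∈ As S π Xv rem U φ w ↔
    y ≠ w ∧ s(w, y) ∉ Edg S (xg Xv rem) φ univ ∧ y ∉ Fs π Xv rem U φ w := by
  unfold As
  simp only [mem_filter, mem_univ, true_and]

theorem hs_sub (D : DatG n κ p0 e S c Xv lv rem i0 U π) {v : V} (hv : v ∈ U) :
    hs π rem v ⊆ U := by
  intro a ha
  unfold hs at ha
  rw [mem_image] at ha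
  obtain ⟨i, -, rfl⟩ := ha
  exact inv_zpow D hv _

theorem img_sub (E : EmbG n κ p0 t S c Xv rem U π Pol Av φ) {v : V} (hv : v ∈ U) :
    (xg Xv rem v).image (φ v) ⊆ U := by
  intro a ha
  rw [mem_image] at ha
  obtain ⟨x, hx, rfl⟩ := ha
  exact E.inU v hv x hx

theorem img_exc (E : EmbG n κ p0 t S c Xv rem U π Pol Av φ) {v y : V} (hv : v ∉ U)
    (hy : y ∈ (xg Xv rem v).image (φ v)) (hyU : y ∉ U) : y = v := by
  rw [mem_image] at hy
  obtain ⟨x, hx, rfl⟩ := hy
  by_cases hxc : x = (S v).c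
  · rw [hxc]; exact E.root v hv
  · exact absurd (E.inU' v hv x hx hxc) hyU

/-- edges at an exceptional vertex -/
theorem edge_exc (D : DatG n κ p0 e S c Xv lv rem i0 U π) (E : EmbG n κ p0 t S c Xv rem U π Pol Av φ)
    {v y : V} (hv : v ∉ U) (h : s(v, y) ∈ Edg S (xg Xv rem) φ univ) :
    y ∈ (xg Xv rem v).image (φ v) := by
  obtain ⟨w, -, x, hx, hxc, hed⟩ := Edg_cases h
  have hpx := (clo_xe D w).2 x hx hxc
  by_cases hw : w ∈ U
  · exfalso
    rw [Sym2.eq_iff] at hed
    rcases hed with ⟨h1, -⟩ | ⟨h1, -⟩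
    · exact hv (h1 ▸ E.inU w hw _ hpx)
    · exact hv (h1 ▸ E.inU w hw _ hx)
  · have hvw : v = w := by
      rw [Sym2.eq_iff] at hed
      rcases hed with ⟨h1, -⟩ | ⟨h1, -⟩
      · exact img_exc E hw (mem_image.mpr ⟨_, hpx, h1.symm⟩) hv
      · exact img_exc E hw (mem_image.mpr ⟨_, hx, h1.symm⟩) hv
    subst hvw
    rw [Sym2.eq_iff] at hed
    rcases hed with ⟨-, h2⟩ | ⟨-, h2⟩
    · exact mem_image.mpr ⟨_, hx, h2.symm⟩
    · exact mem_image.mpr ⟨_, hpx, h2.symm⟩

theorem card_Fs (D : DatG n κ p0 e S c Xv lv rem i0 U π) {v : V} (hv : v ∈ U) :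
    (Fs π Xv rem U φ v).card ≤ R * (κ + 1) := by
  have h1 : (univ.filter fun u => v ∈ ho π rem U u) = U.filter fun u => v ∈ hs π rem u := by
    ext u
    simp only [mem_filter, mem_univ, true_and]
    constructor
    · intro h
      by_cases hu : u ∈ U
      · rw [ho_of_mem hu] at h; exact ⟨hu, h⟩
      · rw [ho_of_not hu, mem_singleton] at h
        rw [h] at hv
        exact absurd hv hu
    · rintro ⟨hu, h⟩
      rw [ho_of_mem hu]; exact h
  unfold Fs
  rw [h1]
  refine (Finset.card_biUnion_le_card_mul _ _ (κ + 1) ?_).trans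
    (Nat.mul_le_mul_right _ (hs_count v))
  intro u hu
  rw [mem_filter] at hu
  exact Finset.card_image_le.trans (D.tot u hu.1)

theorem card_As (D : DatG n κ p0 e S c Xv lv rem i0 U π) {v : V} (hv : v ∈ U) :
    2 * n ≤ (As S π Xv rem U φ v).card + dgr (Edg S (xg Xv rem) φ univ) v + R * (κ + 1) := by
  have h1 : (univ : Finset V) ⊆ ((As S π Xv rem U φ v) ∪
      (univ.filter fun w => s(v, w) ∈ Edg S (xg Xv rem) φ univ)) ∪ (Fs π Xv rem U φ v ∪ {v}) := by
    intro y _
    simp only [mem_union, mem_filter, mem_univ, true_and, mem_singleton, mem_As]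
    tauto
  have h2 := Finset.card_le_card h1
  have h3 := Finset.card_union_le ((As S π Xv rem U φ v) ∪
      (univ.filter fun w => s(v, w) ∈ Edg S (xg Xv rem) φ univ)) (Fs π Xv rem U φ v ∪ {v})
  have h4 := Finset.card_union_le (As S π Xv rem U φ v)
      (univ.filter fun w => s(v, w) ∈ Edg S (xg Xv rem) φ univ)
  have h5 := Finset.card_union_le (Fs π Xv rem U φ v) {v}
  have h6 := card_Fs (φ := φ) D hv
  rw [Finset.card_univ, D.cV] at h2
  rw [Finset.card_singleton] at h5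
  unfold dgr
  omega

theorem card_As_exc (D : DatG n κ p0 e S c Xv lv rem i0 U π)
    (E : EmbG n κ p0 t S c Xv rem U π Pol Av φ) {v : V} (hv : v ∉ U) :
    2 * n + 1 + ∑ i, (rem v i).card ≤ (As S π Xv rem U φ v).card + (Xv v).card := by
  have h1 : univ \ (xg Xv rem v).image (φ v) ⊆ As S π Xv rem U φ v := by
    intro y hy
    rw [mem_sdiff] at hy
    rw [mem_As]
    refine ⟨?_, ?_, ?_⟩
    · intro h
      apply hy.2
      rw [mem_image]
      exact ⟨(S v).c, (clo_xe D v).1, by rw [E.root v hv, h]⟩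
    · intro h
      exact hy.2 (edge_exc D E hv h)
    · intro h
      rw [mem_Fs] at h
      obtain ⟨u, hu, hyu⟩ := h
      by_cases huU : u ∈ U
      · rw [ho_of_mem huU] at hu
        exact hv (hs_sub D huU hu)
      · rw [ho_of_not huU, mem_singleton] at hu
        rw [← hu] at hyu
        exact hy.2 hyu
  have h2 := Finset.card_le_card h1
  have h3 : (univ \ (xg Xv rem v).image (φ v)).card = 2 * n + 1 - (xg Xv rem v).card := by
    rw [Finset.card_sdiff_of_subset (Finset.subset_univ _), Finset.card_univ, D.cV,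
      Finset.card_image_of_injOn (E.inj v)]
  have h4 := card_xe D v
  omega

theorem card_bad (D : DatG n κ p0 e S c Xv lv rem i0 U π)
    (E : EmbG n κ p0 t S c Xv rem U π Pol Av φ) {y : V} :
    (univ.filter fun v => v ≠ y ∧ s(v, y) ∉ Edg S (xg Xv rem) φ univ ∧
      y ∉ As S π Xv rem U φ v).card ≤ (11 * κ + R + R ^ 2) * R + p0 := by
  have h1 : (univ.filter fun v => v ≠ y ∧ s(v, y) ∉ Edg S (xg Xv rem) φ univ ∧
      y ∉ As S π Xv rem U φ v) ⊆
      ((U.filter fun u => y ∈ (xg Xv rem u).image (φ u)).biUnion fun u => hs π rem u) ∪ Uᶜ := by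
    intro v hv
    simp only [mem_filter, mem_univ, true_and] at hv
    obtain ⟨h1, h2, h3⟩ := hv
    rw [mem_As] at h3
    have h4 : y ∈ Fs π Xv rem U φ v := by
      by_contra h
      exact h3 ⟨fun h => h1 h.symm, h2, h⟩
    rw [mem_Fs] at h4
    obtain ⟨u, hu, hyu⟩ := h4
    rw [mem_union, mem_biUnion]
    by_cases huU : u ∈ U
    · left
      rw [ho_of_mem huU] at hu
      exact ⟨u, mem_filter.mpr ⟨huU, hyu⟩, hu⟩
    · right
      rw [ho_of_not huU, mem_singleton] at hu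
      rw [hu]
      exact mem_compl.mpr huU
  have h2 := Finset.card_le_card h1
  have h3 := Finset.card_union_le
    ((U.filter fun u => y ∈ (xg Xv rem u).image (φ u)).biUnion fun u => hs π rem u) Uᶜ
  have h4 := Finset.card_biUnion_le_card_mul
    (U.filter fun u => y ∈ (xg Xv rem u).image (φ u)) (fun u => hs π rem u) R
    (fun u _ => hs_card u)
  have h5 := Nat.mul_le_mul_right R (E.cnt y)
  have h6 := D.cU'
  omega

theorem no_conf (D : DatG n κ p0 e S c Xv lv rem i0 U π)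
    (E : EmbG n κ p0 t S c Xv rem U π Pol Av φ) {v w : V} (hvw : v ≠ w)
    (h : s(v, w) ∉ Edg S (xg Xv rem) φ univ) :
    w ∈ As S π Xv rem U φ v ∨ v ∈ As S π Xv rem U φ w := by
  by_contra hcon
  push Not at hcon
  obtain ⟨h1, h2⟩ := hcon
  have hw : w ∈ Fs π Xv rem U φ v := by
    by_contra h'
    exact h1 (mem_As.mpr ⟨hvw.symm, h, h'⟩)
  have hv : v ∈ Fs π Xv rem U φ w := by
    by_contra h'
    exact h2 (mem_As.mpr ⟨hvw, by rw [Sym2.eq_swap]; exact h, h'⟩)
  rw [mem_Fs] at hw hv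
  obtain ⟨u1, hu1, hw1⟩ := hw
  obtain ⟨u2, hu2, hv2⟩ := hv
  by_cases hU1 : u1 ∈ U
  · rw [ho_of_mem hU1] at hu1
    by_cases hU2 : u2 ∈ U
    · rw [ho_of_mem hU2] at hu2
      by_cases huu : u1 = u2
      · subst huu
        exact h (E.self u1 hU1 v hu1 w hu2 hvw)
      · exact h (E.conf u1 hU1 u2 hU2 huu v hu1 w hu2 hvw hv2 hw1)
    · rw [ho_of_not hU2, mem_singleton] at hu2
      have : w ∈ U := img_sub E hU1 hw1
      rw [hu2] at this
      exact hU2 this
  · rw [ho_of_not hU1, mem_singleton] at hu1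
    subst hu1
    by_cases hU2 : u2 ∈ U
    · exact hU1 (img_sub E hU2 hv2)
    · rw [ho_of_not hU2, mem_singleton] at hu2
      subst hu2
      exact hvw (img_exc E hU2 hv2 hU1)

theorem in_As_exc (E : EmbG n κ p0 t S c Xv rem U π Pol Av φ) {y v : V} (hy : y ∉ U) (hvy : v ≠ y)
    (h : s(v, y) ∉ Edg S (xg Xv rem) φ univ) : y ∈ As S π Xv rem U φ v := by
  rw [mem_As]
  refine ⟨hvy.symm, h, ?_⟩
  intro h'
  rw [mem_Fs] at h'
  obtain ⟨u, hu, hyu⟩ := h'
  by_cases huU : u ∈ U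
  · exact hy (img_sub E huU hyu)
  · rw [ho_of_not huU, mem_singleton] at hu
    have := img_exc E huU hyu hy
    rw [this, hu] at hvy
    exact hvy rfl

theorem card_pos (D : DatG n κ p0 e S c Xv lv rem i0 U π) (v : V) : 1 ≤ (xg Xv rem v).card :=
  Finset.card_pos.mpr ⟨_, (clo_xe D v).1⟩

theorem tot_card (D : DatG n κ p0 e S c Xv lv rem i0 U π)
    (E : EmbG n κ p0 t S c Xv rem U π Pol Av φ)
    (hsum : ∑ v, ((Xv v).card - 1) = n * (2 * n + 1)) :
    (Edg S (xg Xv rem) φ univ).card + ∑ v, ∑ i, (rem v i).card = n * (2 * n + 1) := by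
  have h1 := card_Edg (S := S) (Xe := xg Xv rem) (φ := φ) (Q := univ)
    (fun v _ => clo_xe D v) (fun v _ => E.inj v) E.dst
  have h2 : ∑ v, (xg Xv rem v).card + ∑ v, ∑ i, (rem v i).card =
      ∑ v, ((Xv v).card - 1) + (2 * n + 1) := by
    have h3 : ∑ v : V, 1 = 2 * n + 1 := by
      rw [Finset.sum_const, Finset.card_univ, D.cV, smul_eq_mul, mul_one]
    rw [← h3, ← Finset.sum_add_distrib, ← Finset.sum_add_distrib]
    refine Finset.sum_congr rfl fun v _ => ?_
    have h4 := card_xe D v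
    have h5 := card_pos D v
    omega
  rw [Finset.card_univ, D.cV] at h1
  omega

theorem fin_hall (D : DatG n κ p0 e S c Xv lv rem i0 U π)
    (E : EmbG n κ p0 t S c Xv rem U π Pol Av φ) (la th ta : ℕ)
    (hla : la = (R + 11) * κ + R ^ 2 + R * (κ + 1))
    (hnum : 200 * ((R + 1) ^ 2 * (20 * κ + 20 * R ^ 2 + 20 + t) + p0) ≤ n)
    (hn1 : 100 * R * (p0 + 1) ≤ n) (hn2 : 20 * la ≤ th) (hn3 : 20 * (la + t) ≤ ta)
    (hn4 : 5 * ta ≤ n)
    (hsum : ∑ v, ((Xv v).card - 1) = n * (2 * n + 1))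
    (hM1 : ∀ v, n ≤ 2 * ((Xv v).card - 1)) (hM2 : ∀ v, (Xv v).card ≤ 2 * n + 1)
    (hLam : ∀ B : Finset V, 2 * n * B.card ^ 2 ≤
      (B.card + (2 * n + 1)) * ∑ v ∈ B, (2 * n - ((Xv v).card - 1)))
    (hth : ∀ v ∈ U, (Xv v).card + th ≤ 2 * n + 1)
    (hta : ∀ v, v ∉ Av → (Xv v).card + ta ≤ 2 * n + 1)
    (hPol : ∀ v ∈ Pol, 10 * ((Xv v).card - 1) ≤ 11 * n)
    (hbig : ∀ v, v ∉ U → n ≤ 3 * R * (rem v (i0 v)).card) (B : Finset V) :
    ∑ v ∈ B, ∑ i, (rem v i).card ≤
      (B.biUnion fun v => (As S π Xv rem U φ v).image fun w => s(v, w)).card := by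
  have hM : 1 ≤ (R + 1) ^ 2 := Nat.one_le_pow _ _ (by omega)
  have hR := D.hR
  -- numbers
  have hq1 : (R + 11) * κ + R ^ 2 + t + R * (κ + 1) ≤
      (R + 1) ^ 2 * (20 * κ + 20 * R ^ 2 + 20 + t) := by
    have e1 : (R + 11) * κ + R * κ ≤ (R + 1) ^ 2 * (20 * κ) := by
      have : (R + 11) + R ≤ (R + 1) ^ 2 * 20 := by nlinarith
      calc (R + 11) * κ + R * κ = ((R + 11) + R) * κ := by ring
        _ ≤ ((R + 1) ^ 2 * 20) * κ := Nat.mul_le_mul_right _ this
        _ = _ := by ring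
    have e2 : R ^ 2 ≤ (R + 1) ^ 2 * (20 * R ^ 2) := by nlinarith
    have e3 : R ≤ (R + 1) ^ 2 * 20 := by nlinarith
    have e4 : t ≤ (R + 1) ^ 2 * t := Nat.le_mul_of_pos_left _ (by omega)
    calc (R + 11) * κ + R ^ 2 + t + R * (κ + 1)
        = ((R + 11) * κ + R * κ) + R ^ 2 + R + t := by ring
      _ ≤ (R + 1) ^ 2 * (20 * κ) + (R + 1) ^ 2 * (20 * R ^ 2) + (R + 1) ^ 2 * 20 +
          (R + 1) ^ 2 * t := by omega
      _ = _ := by ring
  have hq2 : (11 * κ + R + R ^ 2) * R ≤ (R + 1) ^ 2 * (20 * κ + 20 * R ^ 2 + 20 + t) := by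
    have e1 : 11 * κ * R ≤ (R + 1) ^ 2 * (20 * κ) := by
      have : 11 * R ≤ (R + 1) ^ 2 * 20 := by nlinarith
      calc 11 * κ * R = (11 * R) * κ := by ring
        _ ≤ ((R + 1) ^ 2 * 20) * κ := Nat.mul_le_mul_right _ this
        _ = _ := by ring
    have e2 : (R + R ^ 2) * R ≤ (R + 1) ^ 2 * (20 * R ^ 2) := by
      have : 1 + R ≤ (R + 1) ^ 2 * 20 := by nlinarith
      calc (R + R ^ 2) * R = (1 + R) * R ^ 2 := by ring
        _ ≤ ((R + 1) ^ 2 * 20) * R ^ 2 := Nat.mul_le_mul_right _ this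
        _ = _ := by ring
    calc (11 * κ + R + R ^ 2) * R = 11 * κ * R + (R + R ^ 2) * R := by ring
      _ ≤ (R + 1) ^ 2 * (20 * κ) + (R + 1) ^ 2 * (20 * R ^ 2) := by omega
      _ ≤ (R + 1) ^ 2 * (20 * κ) + (R + 1) ^ 2 * (20 * R ^ 2) + (R + 1) ^ 2 * (20 + t) := by omega
      _ = _ := by ring
  have hq4 : 20 ≤ (R + 1) ^ 2 * (20 * κ + 20 * R ^ 2 + 20 + t) := by
    calc 20 ≤ 20 * κ + 20 * R ^ 2 + 20 + t := by omega
      _ ≤ _ := Nat.le_mul_of_pos_left _ (by omega)
  have hκla : κ ≤ la := by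
    rw [hla]
    have : κ ≤ (R + 11) * κ := Nat.le_mul_of_pos_left _ (by omega)
    omega
  have hL : ∀ v, ∑ i, (rem v i).card + (xg Xv rem v).card = (Xv v).card := by
    intro v
    have := card_xe D v
    omega
  have hp := card_pos D
  refine hall_ineq3 n R p0 la t th ta D.cV hR (by omega) hn1 hn2 hn3 hn4 (by omega)
    (Edg S (xg Xv rem) φ univ) ?_ (As S π Xv rem U φ)
    (fun v => ∑ i, (rem v i).card) (fun v => (Xv v).card - 1) Uᶜ Av Pol D.cU' E.pcard
    (tot_card D E hsum) hM1 (fun v => by have := hM2 v; omega) hLam ?_ ?_ ?_ ?_ ?_ ?_ ?_ ?_ ?_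
    ?_ ?_ ?_ B
  · intro ed hed
    unfold Edg at hed
    rw [mem_biUnion] at hed
    obtain ⟨v, -, hed⟩ := hed
    exact edg_not_diag (clo_xe D v) (E.inj v) ed hed
  · intro v w hw
    rw [mem_As] at hw
    exact ⟨hw.1, hw.2.1⟩
  · intro v w hvw h
    exact no_conf D E hvw h
  · -- z1
    intro v hv
    have h1 := card_As_exc D E (mem_compl.mp hv)
    have h2 := hL v
    have h3 := hp v
    omega
  · -- u0
    intro v hv hvA hvP
    have hv := not_not.mp (fun h => hv (mem_compl.mpr h))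
    have h1 := card_As (φ := φ) D hv
    have h2 := E.deg0 v hv hvA hvP
    have h3 := hL v
    have h4 := hp v
    omega
  · -- u1
    intro v hv hvP
    have hv := not_not.mp (fun h => hv (mem_compl.mpr h))
    have h1 := card_As (φ := φ) D hv
    have h2 := E.deg1 v hv hvP
    have h3 := hL v
    have h4 := hp v
    omega
  · -- u2
    intro v hvP
    have hv := E.psub hvP
    have h1 := card_As (φ := φ) D hv
    have h2 := E.deg2 v hvP
    have h3 := hL v
    have h4 := hp v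
    have h5 := hPol v hvP
    omega
  · -- hth
    intro v hv
    have hv := not_not.mp (fun h => hv (mem_compl.mpr h))
    have h1 := hth v hv
    have h2 := hL v
    have h3 := hp v
    show (Xv v).card - 1 + th ≤ 2 * n
    omega
  · -- hta
    intro v hv
    have h1 := hta v hv
    have h2 := hL v
    have h3 := hp v
    show (Xv v).card - 1 + ta ≤ 2 * n
    omega
  · -- c1
    intro v hv
    have hv := not_not.mp (fun h => hv (mem_compl.mpr h))
    have h1 := D.tot v hv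
    have h2 := hL v
    show (Xv v).card - 1 ≤ _
    omega
  · -- c2
    intro y _
    have h1 := card_bad D E (y := y)
    omega
  · -- c3
    intro y hy v hvy h
    exact in_As_exc E (mem_compl.mp hy) hvy h
  · -- c4
    intro y hy
    have hy := mem_compl.mp hy
    show n ≤ 4 * R * ∑ i, (rem y i).card
    rw [sum_rem_exc D hy]
    have h1 := hbig y hy
    rw [D.exc0 y hy] at h1
    exact h1.trans (Nat.mul_le_mul_right _ (Nat.mul_le_mul_right _ (by norm_num)))

end dat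

end Pool.Agent.GT
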