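import Pool.Agent.Lib.MP_80c395_co_GT.FinHallG
import Pool.Agent.Lib.MP_80c395_co_GT.ExPos
import Pool.Agent.Lib.MP_80c395_co_GT.CompleteG

/-!
# MP_80c395_co, project GT: the packing from the data
-/

set_option autoImplicit false

open Finset

namespace Pool.Agent.GT

open Pool.Agent.Lib.MP_80c395_co Pool.Agent.BC

section dat
variable {V X : Type} [Fintype V] [DecidableEq V] [Fintype X] [DecidableEq X] {R : ℕ}
  {n κ p0 e : ℕ} {S : V → RT X} {c : V → Fin R → X} {Xv : V → Finset X}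
  {lv rem : V → Fin R → Finset X}
  {i0 : V → Fin R} {U : Finset V} {π : Equiv.Perm V}

theorem fin_pack (D : DatG n κ p0 e S c Xv lv rem i0 U π) {t : ℕ} {Pol Av : Finset V}
    {φ : V → X → V} (E : EmbG n κ p0 t S c Xv rem U π Pol Av φ)
    (la th ta : ℕ)
    (hla : la = (R + 11) * κ + R ^ 2 + R * (κ + 1))
    (hnum : 200 * ((R + 1) ^ 2 * (20 * κ + 20 * R ^ 2 + 20 + t) + p0) ≤ n)
    (hn1 : 100 * R * (p0 + 1) ≤ n) (hn2 : 20 * la ≤ th) (hn3 : 20 * (la + t) ≤ ta)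
    (hn4 : 5 * ta ≤ n)
    (hsum : ∑ v, ((Xv v).card - 1) = n * (2 * n + 1))
    (hM1 : ∀ v, n ≤ 2 * ((Xv v).card - 1)) (hM2 : ∀ v, (Xv v).card ≤ 2 * n + 1)
    (hLam : ∀ B : Finset V, 2 * n * B.card ^ 2 ≤
      (B.card + (2 * n + 1)) * ∑ v ∈ B, (2 * n - ((Xv v).card - 1)))
    (hth : ∀ v ∈ U, (Xv v).card + th ≤ 2 * n + 1)
    (hta : ∀ v, v ∉ Av → (Xv v).card + ta ≤ 2 * n + 1)
    (hPol : ∀ v ∈ Pol, 10 * ((Xv v).card - 1) ≤ 11 * n)
    (hbig : ∀ v, v ∉ U → n ≤ 3 * R * (rem v (i0 v)).card) :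
    ∃ f : V → X → V, (∀ v, Set.InjOn (f v) (Xv v)) ∧
      ∀ v w, ∀ x ∈ Xv v, ∀ y ∈ Xv w, x ≠ (S v).c → y ≠ (S w).c →
        s(f v ((S v).p x), f v x) = s(f w ((S w).p y), f w y) → v = w ∧ x = y := by
  obtain ⟨pos, hp1, hp2, hp3⟩ := exists_pos D
  refine completeG S Xv rem (hst π U) φ pos (fun w => ∑ j, (rem w j).card)
    (As S π Xv rem U φ) ?_ ?_ (clo_xe D) E.inj E.dst ?_ ?_ hp1 hp2 hp3
    (fin_hall D E la th ta hla hnum hn1 hn2 hn3 hn4 hsum hM1 hM2 hLam hth hta hPol hbig)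
  · intro v i j x hi hj
    exact lv_disj D (D.sub v i hi) (D.sub v j hj)
  · intro v i x hx
    have hl := D.sub v i hx
    refine ⟨?_, ?_, ?_⟩
    · intro h
      rw [D.root] at h
      exact D.lv_nc v i x hl _ h.symm
    · rw [D.lv_p v i x hl]
      exact c_mem_xe D v i
    · rw [D.lv_p v i x hl]
      by_cases hv : v ∈ U
      · rw [E.host v hv i ⟨x, hx⟩]
        exact (if_pos hv).symm
      · have hi : i = i0 v := by
          by_contra h
          rw [D.exc1 v hv i h] at hx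
          exact absurd hx (Finset.notMem_empty _)
        rw [hi, ← D.root, E.root v hv]
        exact (if_neg hv).symm
  · intro v w hw
    rw [mem_As] at hw
    exact ⟨hw.1, hw.2.1⟩
  · intro v i hi x hx h
    rw [mem_As] at h
    apply h.2.2
    rw [mem_Fs]
    refine ⟨v, ?_, mem_image_of_mem _ hx⟩
    by_cases hv : v ∈ U
    · rw [ho_of_mem hv]
      unfold hs hst
      rw [if_pos hv]
      exact mem_image_of_mem _ (mem_filter.mpr ⟨mem_univ _, hi⟩)
    · rw [ho_of_not hv]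
      unfold hst
      rw [if_neg hv]
      exact mem_singleton_self _

end dat

end Pool.Agent.GT
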