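import Mathlib

/-!
# MP_80c395_co, project GT: the trees are distributed, one or two for every vertex
-/

set_option autoImplicit false

open Finset

namespace Pool.Agent.GT

theorem homes (n : ℕ) (hn : 1 ≤ n) {ι : Type} [Fintype ι] (s : ι → ℕ) (hs : ∀ i, s i ≤ n)
    (hS : ∀ i j, i ≠ j → n < s i + s j) (hsum : ∑ i, s i = n * (2 * n + 1)) :
    ∃ (h : ι → Fin (2 * n + 1)) (δ : ℕ) (Pr : Finset (Fin (2 * n + 1))),
      (∀ v ∈ Pr, ∃ i i', i ≠ i' ∧ (∀ k, h k = v ↔ k = i ∨ k = i') ∧
        s i + δ ≤ n ∧ s i' + δ ≤ n) ∧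
      ∀ v, v ∉ Pr → ∃ i, (∀ k, h k = v ↔ k = i) ∧ n ≤ s i + δ ∧ n ≤ 2 * s i := by
  classical
  obtain ⟨N, hN⟩ : ∃ N, Fintype.card ι = N := ⟨_, rfl⟩
  -- a sorted enumeration
  obtain ⟨e, hmono⟩ : ∃ e : Fin N ≃ ι, Monotone (s ∘ e) := by
    let e0 : Fin N ≃ ι := (Fintype.equivFinOfCardEq hN).symm
    exact ⟨(Tuple.sort (s ∘ e0)).trans e0, Tuple.monotone_sort (s ∘ e0)⟩
  have hN1 : 2 * n + 1 ≤ N := by
    have h1 : ∑ i, s i ≤ ∑ _i : ι, n := Finset.sum_le_sum fun i _ => hs i
    rw [hsum, Finset.sum_const, Finset.card_univ, hN, smul_eq_mul] at h1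
    have h2 : n * (2 * n + 1) ≤ n * N := by linarith [Nat.mul_comm N n]
    exact Nat.le_of_mul_le_mul_left h2 (by omega)
  have hpos : 0 < N := by omega
  have hbig : ∀ t : Fin N, 1 ≤ t.val → n + 1 ≤ 2 * s (e t) := by
    intro t ht
    have h1 : s (e ⟨0, hpos⟩) ≤ s (e t) := hmono (Fin.mk_le_of_le_val (Nat.zero_le _))
    have h2 : (⟨0, hpos⟩ : Fin N) ≠ t := by
      intro h
      rw [← h] at ht
      simp at ht
    have h3 := hS (e ⟨0, hpos⟩) (e t) (fun h => h2 (e.injective h))
    omega
  have hN2 : N ≤ 4 * n + 2 := by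
    by_contra hcon
    push Not at hcon
    have h1 : ∑ t : Fin N, s (e t) = n * (2 * n + 1) := by
      rw [← hsum]
      exact Equiv.sum_comp e s
    have h2 : ∑ t ∈ (univ : Finset (Fin N)).erase ⟨0, hpos⟩, (n + 1) ≤
        ∑ t ∈ (univ : Finset (Fin N)).erase ⟨0, hpos⟩, 2 * s (e t) := by
      refine Finset.sum_le_sum fun t ht => hbig t ?_
      rw [Finset.mem_erase] at ht
      rcases Nat.eq_zero_or_pos t.val with h0 | h0
      · exact absurd (Fin.ext h0) ht.1
      · exact h0
    have h3 : ∑ t ∈ (univ : Finset (Fin N)).erase ⟨0, hpos⟩, 2 * s (e t) ≤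
        ∑ t : Fin N, 2 * s (e t) :=
      Finset.sum_le_sum_of_subset (Finset.erase_subset _ _)
    rw [← Finset.mul_sum, ← Finset.mul_sum, h1] at h3
    rw [Finset.sum_const, Finset.card_erase_of_mem (Finset.mem_univ _), Finset.card_univ,
      Fintype.card_fin, smul_eq_mul, ← Finset.mul_sum] at h2
    have h4 : (4 * n + 2) * (n + 1) ≤ (N - 1) * (n + 1) :=
      Nat.mul_le_mul_right _ (by omega)
    nlinarith
  obtain ⟨x, hx⟩ : ∃ x, N = 2 * n + 1 + x := ⟨N - (2 * n + 1), by omega⟩
  have hx2 : 2 * x ≤ N := by omega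
  -- homes of the indices
  let g : ℕ → ℕ := fun t => if t < 2 * x then t / 2 else t - x
  have hg : ∀ t, t < N → g t < 2 * n + 1 := by
    intro t ht
    simp only [g]
    split_ifs with h
    · omega
    · omega
  let hh : ι → Fin (2 * n + 1) := fun k => ⟨g (e.symm k).val, hg _ (e.symm k).isLt⟩
  have hhk : ∀ (k : ι) (v : Fin (2 * n + 1)), hh k = v ↔ g (e.symm k).val = v.val := by
    intro k v
    rw [Fin.ext_iff]
  have hke : ∀ (k : ι) (t : Fin N), k = e t ↔ (e.symm k).val = t.val := by
    intro k t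
    rw [← Fin.ext_iff, Equiv.symm_apply_eq]
  refine ⟨hh, if hx0 : 0 < x then n - s (e ⟨2 * x - 1, by omega⟩) else 0,
    univ.filter fun v => v.val < x, ?_, ?_⟩
  · intro v hv
    rw [Finset.mem_filter] at hv
    have hvx := hv.2
    have hx0 : 0 < x := by omega
    rw [dif_pos hx0]
    have hle : ∀ t : Fin N, t.val < 2 * x →
        s (e t) + (n - s (e ⟨2 * x - 1, by omega⟩)) ≤ n := by
      intro t ht
      have h1 : s (e t) ≤ s (e ⟨2 * x - 1, by omega⟩) :=
        hmono (show t ≤ ⟨2 * x - 1, by omega⟩ from by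
          rw [Fin.le_def]
          show t.val ≤ 2 * x - 1
          omega)
      have h2 := hs (e ⟨2 * x - 1, by omega⟩)
      omega
    refine ⟨e ⟨2 * v.val, by omega⟩, e ⟨2 * v.val + 1, by omega⟩, ?_, ?_, ?_, ?_⟩
    · intro h
      have := congrArg Fin.val (e.injective h)
      simp at this
    · intro k
      rw [hhk, hke, hke]
      simp only [g]
      split_ifs with h
      · omega
      · omega
    · exact hle ⟨2 * v.val, by omega⟩ (by show 2 * v.val < 2 * x; omega)
    · exact hle ⟨2 * v.val + 1, by omega⟩ (by show 2 * v.val + 1 < 2 * x; omega)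
  · intro v hv
    have hvx : x ≤ v.val := by
      by_contra h
      exact hv (by rw [Finset.mem_filter]; exact ⟨Finset.mem_univ _, by omega⟩)
    have hvl : v.val < 2 * n + 1 := v.isLt
    refine ⟨e ⟨v.val + x, by omega⟩, ?_, ?_, ?_⟩
    · intro k
      rw [hhk, hke]
      simp only [g]
      split_ifs with h
      · omega
      · omega
    · by_cases hx0 : 0 < x
      · rw [dif_pos hx0]
        have h1 : s (e ⟨2 * x - 1, by omega⟩) ≤ s (e ⟨v.val + x, by omega⟩) :=
          hmono (by
            rw [Fin.le_def]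
            show 2 * x - 1 ≤ v.val + x
            omega)
        omega
      · rw [dif_neg hx0]
        have hxz : x = 0 := by omega
        -- all sizes equal n
        have h1 : ∑ i, (n - s i) = 0 := by
          have h2 : ∑ i, (n - s i) + ∑ i, s i = ∑ _i : ι, n := by
            rw [← Finset.sum_add_distrib]
            refine Finset.sum_congr rfl fun i _ => ?_
            have := hs i
            omega
          rw [hsum, Finset.sum_const, Finset.card_univ, hN, smul_eq_mul, hx, hxz] at h2
          have h3 : (2 * n + 1 + 0) * n = n * (2 * n + 1) := by ring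
          omega
        rw [Finset.sum_eq_zero_iff] at h1
        have := h1 (e ⟨v.val + x, by omega⟩) (Finset.mem_univ _)
        omega
    · by_cases hx0 : 0 < x
      · have := hbig ⟨v.val + x, by omega⟩ (by show 1 ≤ v.val + x; omega)
        omega
      · have hxz : x = 0 := by omega
        have h1 : ∑ i, (n - s i) = 0 := by
          have h2 : ∑ i, (n - s i) + ∑ i, s i = ∑ _i : ι, n := by
            rw [← Finset.sum_add_distrib]
            refine Finset.sum_congr rfl fun i _ => ?_
            have := hs i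
            omega
          rw [hsum, Finset.sum_const, Finset.card_univ, hN, smul_eq_mul, hx, hxz] at h2
          have h3 : (2 * n + 1 + 0) * n = n * (2 * n + 1) := by ring
          omega
        rw [Finset.sum_eq_zero_iff] at h1
        have := h1 (e ⟨v.val + x, by omega⟩) (Finset.mem_univ _)
        omega

end Pool.Agent.GT
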