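import Mathlib

/-!
# MP_80c395_co, project GT: the inequality for the loads
-/

set_option autoImplicit false

open Finset

namespace Pool.Agent.GT

private theorem sum_ite_split {V : Type} [Fintype V] [DecidableEq V] (Pr S : Finset V) (x y : ℤ) :
    ∑ v ∈ S, (if v ∈ Pr then x else y)
      = x * ((S.filter (fun v => v ∈ Pr)).card : ℤ)
        + y * ((S.filter (fun v => v ∉ Pr)).card : ℤ) := by
  rw [Finset.sum_ite]
  simp only [Finset.sum_const, nsmul_eq_mul]
  ring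

private theorem final_ineq (n δ b1 b2 w w1 σ : ℤ) (hn : 0 ≤ n) (hδ : 0 ≤ δ) (hb1 : 0 ≤ b1)
    (hb2 : 0 ≤ b2) (hw : 0 ≤ w) (hw1 : 0 ≤ w1)
    (hi : 2 * δ * b1 + n * b2 ≤ σ) (hii : n * (b1 + b2) - δ * w ≤ σ) :
    2 * n * (b1 + b2) ^ 2 ≤ (b1 + b2 + (b1 + b2 + w + w1)) * σ := by
  have hσ : 0 ≤ σ := by
    have : 0 ≤ 2 * δ * b1 + n * b2 := by positivity
    linarith
  rcases eq_or_lt_of_le (show 0 ≤ 2 * b1 + w by linarith) with h0 | h0
  · have hb10 : b1 = 0 := by linarith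
    have hw0 : w = 0 := by linarith
    subst hb10 hw0
    have h1 : n * b2 ≤ σ := by linarith
    have h2 : 0 ≤ b2 * (σ - n * b2) := mul_nonneg hb2 (by linarith)
    have h3 : 0 ≤ w1 * σ := mul_nonneg hw1 hσ
    nlinarith
  · have key : (2 * b1 + w) * (n * b2) + 0 ≤ (2 * b1 + w) * σ := by
      have : n * b2 ≤ σ := by
        have : 0 ≤ 2 * δ * b1 := by positivity
        linarith
      nlinarith
    have key2 : 2 * b1 * n * (b1 + b2) + w * n * b2 ≤ (2 * b1 + w) * σ := by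
      have e1 := mul_le_mul_of_nonneg_left hii (show (0:ℤ) ≤ 2 * b1 by linarith)
      have e2 := mul_le_mul_of_nonneg_left hi hw
      nlinarith
    have key3 : (2 * b1 + w) * (2 * n * (b1 + b2) ^ 2)
        ≤ (2 * b1 + w) * ((b1 + b2 + (b1 + b2 + w + w1)) * σ) := by
      have f1 := mul_le_mul_of_nonneg_left key2 (show (0:ℤ) ≤ 2 * (b1 + b2) + w by linarith)
      have f2 : 0 ≤ (2 * b1 + w) * (w1 * σ) := by positivity
      have f3 : (2 * b1 + w) * (2 * n * (b1 + b2) ^ 2)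
          ≤ (2 * (b1 + b2) + w) * (2 * b1 * n * (b1 + b2) + w * n * b2) := by
        have : (2 * (b1 + b2) + w) * (2 * b1 * n * (b1 + b2) + w * n * b2)
            - (2 * b1 + w) * (2 * n * (b1 + b2) ^ 2) = n * w ^ 2 * b2 := by ring
        have : 0 ≤ n * w ^ 2 * b2 := by positivity
        linarith
      nlinarith
    exact le_of_mul_le_mul_left key3 h0

theorem landau {V : Type} [Fintype V] [DecidableEq V] (n δ : ℕ)
    (hV : Fintype.card V = 2 * n + 1) (M : V → ℕ) (hsum : ∑ v, M v = n * (2 * n + 1))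
    (Pr : Finset V) (h1 : ∀ v ∈ Pr, n ≤ M v ∧ M v + 2 * δ ≤ 2 * n)
    (h2 : ∀ v, v ∉ Pr → M v ≤ n ∧ n ≤ M v + δ) (B : Finset V) :
    2 * n * B.card ^ 2 ≤ (B.card + (2 * n + 1)) * ∑ v ∈ B, (2 * n - M v) := by
  have hM : ∀ v, M v ≤ 2 * n := by
    intro v
    by_cases hv : v ∈ Pr
    · have := h1 v hv; omega
    · have := h2 v hv; omega
  have hcast : ((∑ v ∈ B, (2 * n - M v) : ℕ) : ℤ) = ∑ v ∈ B, (2 * (n : ℤ) - (M v : ℤ)) := by
    push_cast
    refine Finset.sum_congr rfl fun v _ => ?_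
    have := hM v
    push_cast [Nat.cast_sub this]
    ring
  have hcB : (B.card : ℤ) = ((B.filter (fun v => v ∈ Pr)).card : ℤ)
      + ((B.filter (fun v => v ∉ Pr)).card : ℤ) := by
    have := Finset.card_filter_add_card_filter_not (s := B) (fun v => v ∈ Pr)
    exact_mod_cast this.symm
  have hcBc : (Bᶜ.card : ℤ) = ((Bᶜ.filter (fun v => v ∈ Pr)).card : ℤ)
      + ((Bᶜ.filter (fun v => v ∉ Pr)).card : ℤ) := by
    have := Finset.card_filter_add_card_filter_not (s := Bᶜ) (fun v => v ∈ Pr)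
    exact_mod_cast this.symm
  have hcc : (B.card : ℤ) + (Bᶜ.card : ℤ) = 2 * n + 1 := by
    have := Finset.card_add_card_compl B
    rw [hV] at this
    exact_mod_cast this
  set σ : ℤ := ∑ v ∈ B, (2 * (n : ℤ) - (M v : ℤ)) with hσdef
  have hi : 2 * (δ : ℤ) * ((B.filter (fun v => v ∈ Pr)).card : ℤ)
      + n * ((B.filter (fun v => v ∉ Pr)).card : ℤ) ≤ σ := by
    rw [← sum_ite_split Pr B (2 * (δ : ℤ)) n]
    refine Finset.sum_le_sum fun v _ => ?_
    by_cases hv : v ∈ Pr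
    · rw [if_pos hv]; have := h1 v hv; omega
    · rw [if_neg hv]; have := h2 v hv; omega
  have hout : ∑ v ∈ Bᶜ, (2 * (n : ℤ) - (M v : ℤ)) ≤
      n * ((Bᶜ.filter (fun v => v ∈ Pr)).card : ℤ)
      + (n + δ) * ((Bᶜ.filter (fun v => v ∉ Pr)).card : ℤ) := by
    rw [← sum_ite_split Pr Bᶜ (n : ℤ) (n + δ)]
    refine Finset.sum_le_sum fun v _ => ?_
    by_cases hv : v ∈ Pr
    · rw [if_pos hv]; have := h1 v hv; omega
    · rw [if_neg hv]; have := h2 v hv; omega
  have htot : σ + ∑ v ∈ Bᶜ, (2 * (n : ℤ) - (M v : ℤ)) = n * (2 * n + 1) := by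
    rw [hσdef, Finset.sum_add_sum_compl B (fun v => 2 * (n : ℤ) - (M v : ℤ)),
      Finset.sum_sub_distrib]
    have hs : (∑ v, (M v : ℤ)) = n * (2 * n + 1) := by exact_mod_cast hsum
    rw [hs]
    simp only [Finset.sum_const, Finset.card_univ, hV, nsmul_eq_mul]
    push_cast
    ring
  have hcast2 : (2 * (n : ℤ) * (B.card : ℤ) ^ 2) ≤
      ((B.card : ℤ) + (2 * n + 1)) * σ := by
    have hfin := final_ineq (n : ℤ) (δ : ℤ) ((B.filter (fun v => v ∈ Pr)).card : ℤ)
      ((B.filter (fun v => v ∉ Pr)).card : ℤ) ((Bᶜ.filter (fun v => v ∉ Pr)).card : ℤ)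
      ((Bᶜ.filter (fun v => v ∈ Pr)).card : ℤ) σ (by positivity) (by positivity) (by positivity)
      (by positivity) (by positivity) (by positivity) hi (by
        rw [← hcB]
        have e : (n : ℤ) * (2 * n + 1) = n * (B.card : ℤ) + n * (Bᶜ.card : ℤ) := by
          rw [← hcc]; ring
        rw [hcBc] at e
        nlinarith)
    rw [← hcB] at hfin
    have e2 : (B.card : ℤ) + ((Bᶜ.filter (fun v => v ∉ Pr)).card : ℤ)
        + ((Bᶜ.filter (fun v => v ∈ Pr)).card : ℤ) = 2 * n + 1 := by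
      rw [← hcc, hcBc]; ring
    rw [e2] at hfin
    exact hfin
  rw [← hcast] at hcast2
  exact_mod_cast hcast2

end Pool.Agent.GT
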