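import Pool.Agent.Lib.MP_80c395_co_GT.MgDef

/-!
# MP_80c395_co, project GT: union of two trees with one common vertex, facts
-/

set_option autoImplicit false

open Finset

namespace Pool.Agent.GT

theorem mg_disj {m1 m2 m : ℕ} {T1 : SimpleGraph (Fin m1)} {T2 : SimpleGraph (Fin m2)}
    {b1 : Fin m1} {b2 : Fin m2} {T : SimpleGraph (Fin m)} {j1 : Fin m1 → Fin m}
    {j2 : Fin m2 → Fin m} (H : Mg T1 T2 b1 b2 T j1 j2) (a b : Fin m1) (c d : Fin m2)
    (hab : T1.Adj a b) (hcd : T2.Adj c d) : s(j1 a, j1 b) ≠ s(j2 c, j2 d) := by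
  intro h
  have hne : a ≠ b := hab.ne
  rw [Sym2.eq_iff] at h
  rcases h with ⟨h1, h2⟩ | ⟨h1, h2⟩
  · exact hne ((H.only _ _ h1).1.trans (H.only _ _ h2).1.symm)
  · exact hne ((H.only _ _ h1).1.trans (H.only _ _ h2).1.symm)

theorem mg_avoid {m1 m2 m : ℕ} {T1 : SimpleGraph (Fin m1)} {T2 : SimpleGraph (Fin m2)}
    {b1 : Fin m1} {b2 : Fin m2} {T : SimpleGraph (Fin m)} {j1 : Fin m1 → Fin m}
    {j2 : Fin m2 → Fin m} (H : Mg T1 T2 b1 b2 T j1 j2) (B1 : Finset (Fin m1))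
    (B2 : Finset (Fin m2)) :
    {ed ∈ T.edgeSet | ∀ b ∈ B1.image j1 ∪ B2.image j2, b ∉ ed}.ncard ≤
      {ed ∈ T1.edgeSet | ∀ b ∈ B1, b ∉ ed}.ncard +
        {ed ∈ T2.edgeSet | ∀ b ∈ B2, b ∉ ed}.ncard := by
  classical
  have hsub : {ed ∈ T.edgeSet | ∀ b ∈ B1.image j1 ∪ B2.image j2, b ∉ ed} ⊆
      (Sym2.map j1) '' {ed ∈ T1.edgeSet | ∀ b ∈ B1, b ∉ ed} ∪
        (Sym2.map j2) '' {ed ∈ T2.edgeSet | ∀ b ∈ B2, b ∉ ed} := by
    rintro ed ⟨hed, hB⟩
    induction ed using Sym2.ind with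
    | _ u w =>
      rw [SimpleGraph.mem_edgeSet, H.adj] at hed
      rcases hed with ⟨x, y, hxy, rfl, rfl⟩ | ⟨x, y, hxy, rfl, rfl⟩
      · left
        refine ⟨s(x, y), ⟨hxy, ?_⟩, by simp⟩
        intro b hb hbm
        refine hB (j1 b) (Finset.mem_union_left _ (Finset.mem_image_of_mem _ hb)) ?_
        rw [Sym2.mem_iff] at hbm ⊢
        rcases hbm with rfl | rfl
        · left; rfl
        · right; rfl
      · right
        refine ⟨s(x, y), ⟨hxy, ?_⟩, by simp⟩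
        intro b hb hbm
        refine hB (j2 b) (Finset.mem_union_right _ (Finset.mem_image_of_mem _ hb)) ?_
        rw [Sym2.mem_iff] at hbm ⊢
        rcases hbm with rfl | rfl
        · left; rfl
        · right; rfl
  refine (Set.ncard_le_ncard hsub (Set.toFinite _)).trans ?_
  refine (Set.ncard_union_le _ _).trans ?_
  exact Nat.add_le_add (Set.ncard_image_le (Set.toFinite _))
    (Set.ncard_image_le (Set.toFinite _))

theorem mg_card {m1 m2 m : ℕ} {T1 : SimpleGraph (Fin m1)} {T2 : SimpleGraph (Fin m2)}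
    {b1 : Fin m1} {b2 : Fin m2} {T : SimpleGraph (Fin m)} {j1 : Fin m1 → Fin m}
    {j2 : Fin m2 → Fin m} (H : Mg T1 T2 b1 b2 T j1 j2) (B1 : Finset (Fin m1))
    (B2 : Finset (Fin m2)) (h1 : b1 ∈ B1) (h2 : b2 ∈ B2) :
    (B1.image j1 ∪ B2.image j2).card + 1 = B1.card + B2.card := by
  classical
  have hint : B1.image j1 ∩ B2.image j2 = {j1 b1} := by
    ext z
    rw [Finset.mem_inter, Finset.mem_image, Finset.mem_image, Finset.mem_singleton]
    constructor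
    · rintro ⟨⟨x, _, rfl⟩, ⟨y, _, hy⟩⟩
      rw [(H.only x y hy.symm).1]
    · rintro rfl
      exact ⟨⟨b1, h1, rfl⟩, ⟨b2, h2, H.com.symm⟩⟩
  have h := Finset.card_union_add_card_inter (B1.image j1) (B2.image j2)
  rw [hint, Finset.card_singleton, Finset.card_image_of_injective _ H.inj1,
    Finset.card_image_of_injective _ H.inj2] at h
  exact h

private theorem mg_mem {X : Type} [Fintype X] [DecidableEq X] (T : SimpleGraph X)
    (B : Finset X) (b y : X) : y ∈ lfB T B b ↔ y ∉ B ∧ ∀ w, T.Adj y w ↔ w = b := by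
  unfold lfB
  simp only [Finset.mem_filter, Finset.mem_univ, true_and]

private theorem mg_symm {m1 m2 m : ℕ} {T1 : SimpleGraph (Fin m1)} {T2 : SimpleGraph (Fin m2)}
    {b1 : Fin m1} {b2 : Fin m2} {T : SimpleGraph (Fin m)} {j1 : Fin m1 → Fin m}
    {j2 : Fin m2 → Fin m} (H : Mg T1 T2 b1 b2 T j1 j2) : Mg T2 T1 b2 b1 T j2 j1 where
  size := by rw [H.size, Nat.add_comm]
  tree := H.tree
  inj1 := H.inj2
  inj2 := H.inj1
  com := H.com.symm
  only := fun x y h => ⟨(H.only y x h.symm).2, (H.only y x h.symm).1⟩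
  cov := fun z => (H.cov z).symm
  adj := fun u w => (H.adj u w).trans Or.comm

private theorem mg_adj1 {m1 m2 m : ℕ} {T1 : SimpleGraph (Fin m1)} {T2 : SimpleGraph (Fin m2)}
    {b1 : Fin m1} {b2 : Fin m2} {T : SimpleGraph (Fin m)} {j1 : Fin m1 → Fin m}
    {j2 : Fin m2 → Fin m} (H : Mg T1 T2 b1 b2 T j1 j2) (x : Fin m1) (hx : x ≠ b1)
    (w : Fin m) : T.Adj (j1 x) w ↔ ∃ y, T1.Adj x y ∧ w = j1 y := by
  rw [H.adj]
  constructor
  · rintro (⟨x', y, hxy, hu, rfl⟩ | ⟨x', y, hxy, hu, rfl⟩)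
    · rw [H.inj1 hu]
      exact ⟨y, hxy, rfl⟩
    · exact absurd (H.only _ _ hu).1 hx
  · rintro ⟨y, hxy, rfl⟩
    exact Or.inl ⟨x, y, hxy, rfl, rfl⟩

private theorem mg_deg1 {m1 m2 m : ℕ} {T1 : SimpleGraph (Fin m1)} {T2 : SimpleGraph (Fin m2)}
    {b1 : Fin m1} {b2 : Fin m2} {T : SimpleGraph (Fin m)} {j1 : Fin m1 → Fin m}
    {j2 : Fin m2 → Fin m} (H : Mg T1 T2 b1 b2 T j1 j2) (x : Fin m1) (hx : x ≠ b1) :
    (T.neighborSet (j1 x)).ncard = (T1.neighborSet x).ncard := by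
  have : T.neighborSet (j1 x) = j1 '' T1.neighborSet x := by
    ext w
    rw [SimpleGraph.mem_neighborSet, mg_adj1 H x hx]
    constructor
    · rintro ⟨y, hy, rfl⟩
      exact ⟨y, hy, rfl⟩
    · rintro ⟨y, hy, rfl⟩
      exact ⟨y, hy, rfl⟩
  rw [this, Set.ncard_image_of_injective _ H.inj1]

private theorem mg_lf1 {m1 m2 m : ℕ} {T1 : SimpleGraph (Fin m1)} {T2 : SimpleGraph (Fin m2)}
    {b1 : Fin m1} {b2 : Fin m2} {T : SimpleGraph (Fin m)} {j1 : Fin m1 → Fin m}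
    {j2 : Fin m2 → Fin m} (H : Mg T1 T2 b1 b2 T j1 j2) (B1 : Finset (Fin m1))
    (B2 : Finset (Fin m2)) (h1 : b1 ∈ B1) (x : Fin m1) (hx : x ∈ lfB T1 B1 b1) :
    j1 x ∈ lfB T (B1.image j1 ∪ B2.image j2) (j1 b1) := by
  classical
  rw [mg_mem] at hx ⊢
  obtain ⟨hxB, hxa⟩ := hx
  have hxb : x ≠ b1 := fun h => hxB (h ▸ h1)
  refine ⟨?_, ?_⟩
  · rw [Finset.mem_union, not_or]
    constructor
    · rw [Finset.mem_image]
      rintro ⟨y, hy, hyx⟩
      exact hxB (H.inj1 hyx ▸ hy)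
    · rw [Finset.mem_image]
      rintro ⟨y, _, hyx⟩
      exact hxb (H.only _ _ hyx.symm).1
  · intro w
    rw [mg_adj1 H x hxb]
    constructor
    · rintro ⟨y, hy, rfl⟩
      rw [(hxa y).1 hy]
    · rintro rfl
      exact ⟨b1, (hxa b1).2 rfl, rfl⟩

theorem mg_cen {m1 m2 m r1 r2 e1 e2 d l1 l2 : ℕ} {T1 : SimpleGraph (Fin m1)}
    {T2 : SimpleGraph (Fin m2)} {b1 : Fin m1} {b2 : Fin m2} {T : SimpleGraph (Fin m)}
    {j1 : Fin m1 → Fin m} {j2 : Fin m2 → Fin m} (H : Mg T1 T2 b1 b2 T j1 j2)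
    {B1 : Finset (Fin m1)} {B2 : Finset (Fin m2)} (C1 : Cen T1 B1 b1 r1 e1 d l1)
    (C2 : Cen T2 B2 b2 r2 e2 d l2) :
    Cen T (B1.image j1 ∪ B2.image j2) (j1 b1) (r1 + r2 - 1) (e1 + e2) d (l1 + l2) := by
  classical
  refine ⟨?_, ?_, ?_, ?_, ?_⟩
  · exact Finset.mem_union_left _ (Finset.mem_image_of_mem _ C1.mem)
  · have h := mg_card H B1 B2 C1.mem C2.mem
    rw [C1.card, C2.card] at h
    omega
  · exact (mg_avoid H B1 B2).trans (Nat.add_le_add C1.few C2.few)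
  · intro b' hb' hne
    rw [Finset.mem_union, Finset.mem_image, Finset.mem_image] at hb'
    rcases hb' with ⟨x, hx, rfl⟩ | ⟨y, hy, rfl⟩
    · have hxb : x ≠ b1 := fun h => hne (by rw [h])
      rw [mg_deg1 H x hxb]
      exact C1.deg x hx hxb
    · have hyb : y ≠ b2 := fun h => hne (by rw [h, H.com])
      rw [mg_deg1 (mg_symm H) y hyb]
      exact C2.deg y hy hyb
  · have hd : Disjoint ((lfB T1 B1 b1).image j1) ((lfB T2 B2 b2).image j2) := by
      rw [Finset.disjoint_left]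
      intro z hz hz'
      rw [Finset.mem_image] at hz hz'
      obtain ⟨x, hx, rfl⟩ := hz
      obtain ⟨y, _, hyx⟩ := hz'
      have hxb := (H.only _ _ hyx.symm).1
      rw [mg_mem] at hx
      exact hx.1 (hxb ▸ C1.mem)
    have hsub : (lfB T1 B1 b1).image j1 ∪ (lfB T2 B2 b2).image j2 ⊆
        lfB T (B1.image j1 ∪ B2.image j2) (j1 b1) := by
      intro z hz
      rw [Finset.mem_union, Finset.mem_image, Finset.mem_image] at hz
      rcases hz with ⟨x, hx, rfl⟩ | ⟨y, hy, rfl⟩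
      · exact mg_lf1 H B1 B2 C1.mem x hx
      · rw [Finset.union_comm, H.com]
        exact mg_lf1 (mg_symm H) B2 B1 C2.mem y hy
    have h := Finset.card_le_card hsub
    rw [Finset.card_union_of_disjoint hd, Finset.card_image_of_injective _ H.inj1,
      Finset.card_image_of_injective _ H.inj2] at h
    exact (Nat.add_le_add C1.lea C2.lea).trans h

end Pool.Agent.GT
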