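import Pool.Agent.Lib.MP_80c395_co_GT.Merge
import Pool.Agent.Lib.MP_80c395_co_GT.MergeFacts

/-!
# MP_80c395_co, project GT: small trees are merged
-/

set_option autoImplicit false

open Finset

namespace Pool.Agent.GT

/-- splitting of a sum -/
theorem ma_sum {ι : Type} [Fintype ι] [DecidableEq ι] (i j : ι) (hij : i ≠ j) (g : ι → ℕ) :
    ∑ k, g k = g i + g j + ∑ k : {k : ι // k ≠ i ∧ k ≠ j}, g k.1 := by
  have h1 : (univ : Finset ι) = insert i (insert j (univ.filter fun k => k ≠ i ∧ k ≠ j)) := by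
    ext k
    simp only [mem_univ, mem_insert, mem_filter, true_and, true_iff]
    tauto
  have h2 : ∑ k ∈ univ.filter (fun k => k ≠ i ∧ k ≠ j), g k =
      ∑ k : {k : ι // k ≠ i ∧ k ≠ j}, g k.1 :=
    Finset.sum_subtype _ (by simp) g
  rw [h1, sum_insert, sum_insert, h2, Nat.add_assoc]
  · simp
  · simp [hij]

/-- one merging step -/
theorem ma_step {n C E : ℕ} {ι : Type} [Fintype ι] (m : ι → ℕ)
    (T : ∀ i, SimpleGraph (Fin (m i))) (hF : Fam n C E m T) (i j : ι) (hij : i ≠ j)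
    (hs : (m i - 1) + (m j - 1) ≤ n) :
    ∃ (ι' : Type) (_ : Fintype ι') (m' : ι' → ℕ) (T' : ∀ i, SimpleGraph (Fin (m' i))),
      Fintype.card ι' + 1 = Fintype.card ι ∧ Fam n C E m' T' ∧
      ∑ i, (m' i - 1) = ∑ i, (m i - 1) ∧ (Pk n m' T' → Pk n m T) := by
  classical
  obtain ⟨B1, ⟨b1, hb1⟩, hc1, he1⟩ := hF.cen i
  obtain ⟨B2, ⟨b2, hb2⟩, hc2, he2⟩ := hF.cen j
  obtain ⟨mm, Tm, j1, j2, H⟩ := exists_mg (T i) (T j) (hF.tree i) (hF.tree j) b1 b2
  have hm1 : 0 < m i := Fin.pos b1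
  have hm2 : 0 < m j := Fin.pos b2
  have hsz := H.size
  have hmm : mm - 1 = (m i - 1) + (m j - 1) := by omega
  let W := {k : ι // k ≠ i ∧ k ≠ j}
  let m' : Option W → ℕ := fun x => Option.casesOn x mm (fun k => m k.1)
  let T' : ∀ x : Option W, SimpleGraph (Fin (m' x)) := fun x =>
    Option.rec (motive := fun x => SimpleGraph (Fin (m' x))) Tm (fun k => T k.1) x
  refine ⟨Option W, inferInstance, m', T', ?_, ⟨?_, ?_, ?_⟩, ?_, ?_⟩
  · have h1 := ma_sum i j hij (fun _ => 1)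
    simp only [sum_const, smul_eq_mul, mul_one] at h1
    rw [Fintype.card_option, ← Finset.card_univ (α := ι), h1, ← Finset.card_univ]
    ring
  · intro x
    rcases x with _ | k
    · exact H.tree
    · exact hF.tree k.1
  · intro x
    rcases x with _ | k
    · change mm ≤ n + 1
      omega
    · exact hF.ord k.1
  · intro x
    rcases x with _ | k
    · refine ⟨B1.image j1 ∪ B2.image j2, ⟨j1 b1, ?_⟩, ?_, ?_⟩
      · exact mem_union_left _ (mem_image_of_mem _ hb1)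
      · change (B1.image j1 ∪ B2.image j2).card * n ≤ n + C * (mm - 1)
        have h1 := mg_card H B1 B2 hb1 hb2
        have h2 : ((B1.image j1 ∪ B2.image j2).card + 1) * n = (B1.card + B2.card) * n := by
          rw [h1]
        rw [hmm]
        nlinarith
      · change E * {ed ∈ Tm.edgeSet | ∀ b ∈ B1.image j1 ∪ B2.image j2, b ∉ ed}.ncard ≤ mm - 1
        rw [hmm]
        calc E * _ ≤ E * _ := Nat.mul_le_mul_left _ (mg_avoid H B1 B2)
          _ ≤ _ := by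
            rw [Nat.mul_add]
            exact Nat.add_le_add he1 he2
    · exact hF.cen k.1
  · rw [Fintype.sum_option, ma_sum i j hij (fun k => m k - 1)]
    change (mm - 1) + _ = _
    rw [hmm]
  · rintro ⟨f', hinj, hdis⟩
    let f0 : Fin mm → Fin (2 * n + 1) := f' none
    have hf0 : Function.Injective f0 := hinj none
    let E1 : Set (Sym2 (Fin (2 * n + 1))) :=
      {e | ∃ a b, (T i).Adj a b ∧ e = s(f0 (j1 a), f0 (j1 b))}
    let E2 : Set (Sym2 (Fin (2 * n + 1))) :=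
      {e | ∃ a b, (T j).Adj a b ∧ e = s(f0 (j2 a), f0 (j2 b))}
    let E3 : W → Set (Sym2 (Fin (2 * n + 1))) := fun w =>
      {e | ∃ a b : Fin (m w.1), (T w.1).Adj a b ∧ e = s(f' (some w) a, f' (some w) b)}
    let Es : ι → Set (Sym2 (Fin (2 * n + 1))) := fun k =>
      {e | (k = i ∧ e ∈ E1) ∨ (k = j ∧ e ∈ E2) ∨ ∃ h : k ≠ i ∧ k ≠ j, e ∈ E3 ⟨k, h⟩}
    have hex : ∀ k, ∃ f : Fin (m k) → Fin (2 * n + 1), Function.Injective f ∧
        ∀ a b, (T k).Adj a b → s(f a, f b) ∈ Es k := by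
      intro k
      by_cases h1 : k = i
      · subst h1
        exact ⟨fun a => f0 (j1 a), hf0.comp H.inj1, fun a b hab => Or.inl ⟨rfl, a, b, hab, rfl⟩⟩
      by_cases h2 : k = j
      · subst h2
        exact ⟨fun a => f0 (j2 a), hf0.comp H.inj2,
          fun a b hab => Or.inr (Or.inl ⟨rfl, a, b, hab, rfl⟩)⟩
      · exact ⟨f' (some ⟨k, h1, h2⟩), hinj _,
          fun a b hab => Or.inr (Or.inr ⟨⟨h1, h2⟩, a, b, hab, rfl⟩)⟩
    choose f hfi hfe using hex
    have h12 : ∀ e, e ∈ E1 → e ∈ E2 → False := by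
      rintro e ⟨a, b, hab, rfl⟩ ⟨c, d, hcd, he⟩
      apply mg_disj H a b c d hab hcd
      have h1 : Sym2.map f0 s(j1 a, j1 b) = Sym2.map f0 s(j2 c, j2 d) := by
        simpa using he
      exact Sym2.map.injective hf0 h1
    have h13 : ∀ e w, e ∈ E1 → e ∈ E3 w → False := by
      rintro e w ⟨a, b, hab, rfl⟩ ⟨c, d, hcd, he⟩
      exact hdis none (some w) (by simp) (j1 a) (j1 b) c d
        ((H.adj _ _).2 (Or.inl ⟨a, b, hab, rfl, rfl⟩)) hcd he
    have h23 : ∀ e w, e ∈ E2 → e ∈ E3 w → False := by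
      rintro e w ⟨a, b, hab, rfl⟩ ⟨c, d, hcd, he⟩
      exact hdis none (some w) (by simp) (j2 a) (j2 b) c d
        ((H.adj _ _).2 (Or.inr ⟨a, b, hab, rfl, rfl⟩)) hcd he
    have h33 : ∀ e w w', w ≠ w' → e ∈ E3 w → e ∈ E3 w' → False := by
      rintro e w w' hw ⟨a, b, hab, rfl⟩ ⟨c, d, hcd, he⟩
      exact hdis (some w) (some w') (by simpa using hw) a b c d hab hcd he
    have hEs : ∀ k l, k ≠ l → ∀ e, e ∈ Es k → e ∈ Es l → False := by
      rintro k l hkl e (⟨h1, h2⟩ | ⟨h1, h2⟩ | ⟨h1, h2⟩) (⟨h3, h4⟩ | ⟨h3, h4⟩ | ⟨h3, h4⟩)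
      · exact hkl (h1.trans h3.symm)
      · exact h12 e h2 h4
      · exact h13 e _ h2 h4
      · exact h12 e h4 h2
      · exact hkl (h1.trans h3.symm)
      · exact h23 e _ h2 h4
      · exact h13 e _ h4 h2
      · exact h23 e _ h4 h2
      · exact h33 e _ _ (fun h => hkl (congrArg Subtype.val h)) h2 h4
    refine ⟨f, hfi, fun k l hkl a b c d hab hcd he => ?_⟩
    exact hEs k l hkl _ (hfe k a b hab) (he ▸ hfe l c d hcd)

theorem merge_all {n C E : ℕ} (N : ℕ) : ∀ (ι : Type) [Fintype ι] (m : ι → ℕ)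
    (T : ∀ i, SimpleGraph (Fin (m i))), Fintype.card ι = N → Fam n C E m T →
    ∃ (ι' : Type) (_ : Fintype ι') (m' : ι' → ℕ) (T' : ∀ i, SimpleGraph (Fin (m' i))),
      Fam n C E m' T' ∧ ∑ i, (m' i - 1) = ∑ i, (m i - 1) ∧
      (∀ i j, i ≠ j → n < (m' i - 1) + (m' j - 1)) ∧ (Pk n m' T' → Pk n m T) := by
  induction N with
  | zero =>
    intro ι _ m T hN hF
    have : IsEmpty ι := Fintype.card_eq_zero_iff.1 hN
    exact ⟨ι, inferInstance, m, T, hF, rfl, fun i => (this.false i).elim, id⟩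
  | succ N ih =>
    intro ι _ m T hN hF
    by_cases h : ∀ i j, i ≠ j → n < (m i - 1) + (m j - 1)
    · exact ⟨ι, inferInstance, m, T, hF, rfl, h, id⟩
    · push Not at h
      obtain ⟨i, j, hij, hs⟩ := h
      obtain ⟨ι1, _, m1, T1, hc, hF1, hsum, hpk⟩ := ma_step m T hF i j hij hs
      obtain ⟨ι2, i2, m2, T2, hF2, hsum2, hbig, hpk2⟩ := ih ι1 m1 T1 (by omega) hF1
      exact ⟨ι2, i2, m2, T2, hF2, hsum2.trans hsum, hbig, fun h => hpk (hpk2 h)⟩

end Pool.Agent.GT
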