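import Pool.Agent.Lib.MP_80c395_co_GT.DefsG
import Pool.Agent.Lib.MP_80c395_co_BC.Heavy

/-!
# MP_80c395_co, project GT: the main centre of a tree
-/

set_option autoImplicit false

open Finset

namespace Pool.Agent.GT

open Pool.Agent.Lib.MP_80c395_co Pool.Agent.BC

/-- numbering of a finite set of vertices -/
private theorem exists_num {m : ℕ} (B : Finset (Fin m)) :
    ∃ c : Fin B.card → Fin m, Function.Injective c ∧ ∀ x, x ∈ B ↔ ∃ i, c i = x := by
  refine ⟨fun i => B.orderEmbOfFin rfl i, (B.orderEmbOfFin rfl).injective, fun x => ?_⟩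
  have h := B.range_orderEmbOfFin rfl
  rw [← Finset.mem_coe, ← h]
  exact Set.mem_range

private theorem few_num {m e : ℕ} (T : SimpleGraph (Fin m)) (B : Finset (Fin m))
    (he : {ed ∈ T.edgeSet | ∀ b ∈ B, b ∉ ed}.ncard ≤ e) (c : Fin B.card → Fin m)
    (hB : ∀ x, x ∈ B ↔ ∃ i, c i = x) : {ed ∈ T.edgeSet | ∀ i, c i ∉ ed}.ncard ≤ e := by
  have h : {ed ∈ T.edgeSet | ∀ i, c i ∉ ed} = {ed ∈ T.edgeSet | ∀ b ∈ B, b ∉ ed} := by
    ext ed
    constructor
    · rintro ⟨h1, h2⟩
      refine ⟨h1, fun b hb => ?_⟩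
      obtain ⟨i, hi⟩ := (hB b).mp hb
      rw [← hi]
      exact h2 i
    · rintro ⟨h1, h2⟩
      exact ⟨h1, fun i => h2 _ ((hB _).mpr ⟨i, rfl⟩)⟩
  rw [h]
  exact he

private theorem lf_eq {m : ℕ} (T : SimpleGraph (Fin m)) (B : Finset (Fin m))
    (c : Fin B.card → Fin m) (hB : ∀ x, x ∈ B ↔ ∃ i, c i = x) (i : Fin B.card) :
    lf T c i = lfB T B (c i) := by
  classical
  unfold lf lfB
  ext y
  simp only [mem_filter, mem_univ, true_and]
  refine and_congr_left fun _ => ?_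
  rw [hB y]
  push Not
  rfl

theorem main_centre {m e : ℕ} (T : SimpleGraph (Fin m)) (hT : T.IsTree) (hm : 2 ≤ m)
    (B : Finset (Fin m)) (hB : B.Nonempty)
    (he : {ed ∈ T.edgeSet | ∀ b ∈ B, b ∉ ed}.ncard ≤ e) :
    ∃ b, m ≤ B.card * (lfB T B b).card + 3 * (e + B.card) ∧
      Cen T B b B.card e ((m + 6 * (e + B.card)) / 2) (lfB T B b).card := by
  classical
  obtain ⟨c, hc, hcB⟩ := exists_num B
  have he' := few_num T B he c hcB
  have hX : 2 ≤ Fintype.card (Fin m) := by simpa using hm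
  have hR : 1 ≤ B.card := hB.card_pos
  obtain ⟨b, hb, hmax⟩ := exists_max_image B (fun b => (lfB T B b).card) hB
  obtain ⟨i0, hi0⟩ := (hcB b).mp hb
  have h1 := sum_lf T c hT hc hX e he' hR
  have h2 : ∑ i, (lf T c i).card ≤ B.card * (lfB T B b).card := by
    have h3 : ∑ i : Fin B.card, (lf T c i).card ≤ ∑ _i : Fin B.card, (lfB T B b).card := by
      apply sum_le_sum
      intro i _
      rw [lf_eq T B c hcB i]
      exact hmax _ ((hcB _).mpr ⟨i, rfl⟩)
    simpa using h3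
  rw [Fintype.card_fin] at h1
  refine ⟨b, by omega, hb, rfl, he, ?_, le_rfl⟩
  intro b' hb' hne
  obtain ⟨i, hi⟩ := (hcB b').mp hb'
  have h4 := deg_c T c hT hc hX e he' hR i
  have h5 : (lf T c i).card ≤ (lf T c i0).card := by
    rw [lf_eq T B c hcB i, lf_eq T B c hcB i0, hi0]
    exact hmax _ ((hcB _).mpr ⟨i, rfl⟩)
  have h6 : Disjoint (lf T c i) (lf T c i0) := by
    rw [Finset.disjoint_left]
    intro y hy hy0
    have h7 := lf_disj T c hc hy hy0
    exact hne (by rw [← hi, ← hi0, h7])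
  have h8 : (lf T c i ∪ lf T c i0).card ≤ Fintype.card (Fin m) := card_le_univ _
  rw [card_union_of_disjoint h6, Fintype.card_fin] at h8
  rw [hi] at h4
  omega

theorem cen_pad {m r R e d l : ℕ} (T : SimpleGraph (Fin m)) (B : Finset (Fin m)) (b : Fin m)
    (hC : Cen T B b r e d l) (hr : r ≤ R) (hRm : R ≤ m) (hd : r + e ≤ d) :
    ∃ B', Cen T B' b R e d (l - (R - r)) := by
  classical
  obtain ⟨B', hBB', -, hcard⟩ := exists_subsuperset_card_eq (subset_univ B)
    (n := R) (by rw [hC.card]; exact hr) (by simpa using hRm)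
  refine ⟨B', hBB' hC.mem, hcard, ?_, ?_, ?_⟩
  · refine le_trans (Set.ncard_le_ncard ?_ (Set.toFinite _)) hC.few
    rintro ed ⟨h1, h2⟩
    exact ⟨h1, fun b hb => h2 b (hBB' hb)⟩
  · intro b' hb' hne
    by_cases hb : b' ∈ B
    · exact hC.deg b' hb hne
    · obtain ⟨c, -, hcB⟩ := exists_num B
      have h1 := deg_nc T c e (few_num T B hC.few c hcB) (x := b')
        (fun i hi => hb ((hcB b').mpr ⟨i, hi⟩))
      have h2 := hC.card
      omega
  · have h1 : lfB T B b \ (B' \ B) ⊆ lfB T B' b := by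
      intro y hy
      rw [mem_sdiff] at hy
      obtain ⟨hy1, hy2⟩ := hy
      simp only [lfB, mem_filter, mem_univ, true_and] at hy1 ⊢
      exact ⟨fun h => hy2 (mem_sdiff.mpr ⟨h, hy1.1⟩), hy1.2⟩
    have h2 := card_le_card h1
    have h3 := le_card_sdiff (B' \ B) (lfB T B b)
    have h4 : (B' \ B).card = R - r := by
      rw [card_sdiff_of_subset hBB', hcard, hC.card]
    have h5 := hC.lea
    omega

end Pool.Agent.GT
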