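import Pool.Agent.Lib.MP_80c395_co_GT.Core3
import Pool.Agent.Lib.MP_80c395_co_GT.Fill
import Pool.Agent.Lib.MP_80c395_co_GT.MergeAll
import Pool.Agent.Lib.MP_80c395_co_GT.Homes
import Pool.Agent.Lib.MP_80c395_co_GT.Landau
import Pool.Agent.Lib.MP_80c395_co_GT.Prep

/-!
# MP_80c395_co, project GT: the main theorem
-/

set_option autoImplicit false

open Finset

namespace Pool.Agent.GT

open Pool.Agent.Lib.MP_80c395_co Pool.Agent.BC

theorem Cen_mono {m R e e' d d' l l' : ℕ} {T : SimpleGraph (Fin m)} {B : Finset (Fin m)}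
    {b : Fin m} (h : Cen T B b R e d l) (he : e ≤ e') (hd : d ≤ d') (hl : l' ≤ l) :
    Cen T B b R e' d' l' :=
  ⟨h.mem, h.card, h.few.trans he, fun b' hb hb' => (h.deg b' hb hb').trans hd, hl.trans h.lea⟩

/-- main centre of a tree of the family -/
theorem one_tree {n C E e d : ℕ} (hn : 1 ≤ n) (hE : 0 < E) {ι : Type} {m : ι → ℕ}
    {T : ∀ i, SimpleGraph (Fin (m i))} (hF : Fam n C E m T) (he : e = n / E)
    (hd : n + 1 + 6 * (e + (C + 1)) ≤ 2 * d) (i : ι) (hi : 2 ≤ m i) :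
    ∃ (B : Finset (Fin (m i))) (b : Fin (m i)) (l : ℕ), B.card ≤ C + 1 ∧
      Cen (T i) B b B.card e d l ∧ m i ≤ (C + 1) * l + 3 * (e + (C + 1)) := by
  obtain ⟨B, hB, hBc, hBe⟩ := hF.cen i
  have hm := hF.ord i
  have h1 : B.card ≤ C + 1 := by
    have e1 : C * (m i - 1) ≤ C * n := Nat.mul_le_mul_left _ (by omega)
    have e2 : B.card * n ≤ (C + 1) * n := by
      calc B.card * n ≤ n + C * (m i - 1) := hBc
        _ ≤ n + C * n := by omega
        _ = (C + 1) * n := by ring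
    exact Nat.le_of_mul_le_mul_right e2 hn
  have h2 : {ed ∈ (T i).edgeSet | ∀ b ∈ B, b ∉ ed}.ncard ≤ e := by
    rw [he, Nat.le_div_iff_mul_le hE, mul_comm]
    omega
  obtain ⟨b, h3, h4⟩ := main_centre (T i) (hF.tree i) hi B hB h2
  refine ⟨B, b, (lfB (T i) B b).card, h1, Cen_mono h4 le_rfl ?_ le_rfl, ?_⟩
  · omega
  · have := Nat.mul_le_mul_right (lfB (T i) B b).card h1
    omega

/-- the trees which live at one vertex -/
theorem home_tree {n C E e d l e' : ℕ} (hn : 1 ≤ n) (hE : 0 < E) {ι : Type} {m : ι → ℕ}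
    {T : ∀ i, SimpleGraph (Fin (m i))} (hF : Fam n C E m T) (he : e = n / E)
    (he' : 2 * e ≤ e') (hd : n + 1 + 6 * (e + (C + 1)) ≤ 2 * d)
    (hRn : 2 * (2 * C + 1) ≤ n) (hde : 2 * C + 1 + 2 * e ≤ d)
    (hl : 2 * ((C + 1) * (l + (2 * C + 1)) + 6 * (e + (C + 1))) ≤ n)
    (ι' : Type) (h : ι → ι') (v : ι')
    (hv : (∃ i i', i ≠ i' ∧ (∀ k, h k = v ↔ k = i ∨ k = i') ∧ n < (m i - 1) + (m i' - 1)) ∨
      ∃ i, (∀ k, h k = v ↔ k = i) ∧ n ≤ 2 * (m i - 1)) :
    ∃ (mv : ℕ) (Tv : SimpleGraph (Fin mv)) (B : Finset (Fin mv)) (b : Fin mv)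
      (j : ∀ i, Fin (m i) → Fin mv), Tv.IsTree ∧ n ≤ 2 * (mv - 1) ∧ mv ≤ 2 * n + 1 ∧
      ((∃ i i', i ≠ i' ∧ (∀ k, h k = v ↔ k = i ∨ k = i') ∧ mv - 1 = (m i - 1) + (m i' - 1)) ∨
        ∃ i, (∀ k, h k = v ↔ k = i) ∧ mv - 1 = m i - 1) ∧
      Cen Tv B b (2 * C + 1) e' d l ∧
      (∀ i, h i = v → Function.Injective (j i)) ∧
      (∀ i, h i = v → ∀ x y, (T i).Adj x y → Tv.Adj (j i x) (j i y)) ∧
      ∀ i i', i ≠ i' → h i = v → h i' = v → ∀ a b c d, (T i).Adj a b → (T i').Adj c d →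
        s(j i a, j i b) ≠ s(j i' c, j i' d) := by
  classical
  rcases hv with ⟨i, i', hii, hk, hs⟩ | ⟨i, hk, hs⟩
  · have o1 := hF.ord i
    have o2 := hF.ord i'
    obtain ⟨B1, b1, l1, c1, c2, c3⟩ := one_tree hn hE hF he hd i (by omega)
    obtain ⟨B2, b2, l2, g1, g2, g3⟩ := one_tree hn hE hF he hd i' (by omega)
    obtain ⟨mv, Tv, j1, j2, H⟩ := exists_mg (T i) (T i') (hF.tree i) (hF.tree i') b1 b2
    have hC := mg_cen H c2 g2
    have hsz := H.size
    have hb1 : 1 ≤ B1.card := Finset.card_pos.mpr ⟨_, c2.mem⟩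
    have hb2 : 1 ≤ B2.card := Finset.card_pos.mpr ⟨_, g2.mem⟩
    obtain ⟨B', hB'⟩ := cen_pad (R := 2 * C + 1) Tv _ _ (Cen_mono hC (by omega : e + e ≤ 2 * e)
      le_rfl le_rfl) (by omega) (by omega) (by omega)
    have hll : l + (2 * C + 1) ≤ l1 + l2 := by
      by_contra hcon
      push Not at hcon
      have e1 : (C + 1) * (l1 + l2) ≤ (C + 1) * (l + (2 * C + 1)) :=
        Nat.mul_le_mul_left _ (by omega)
      have e2 : (C + 1) * (l1 + l2) = (C + 1) * l1 + (C + 1) * l2 := by ring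
      omega
    have z0 : Fin mv := j1 b1
    refine ⟨mv, Tv, B', _, fun k => if h1 : k = i then fun x => j1 (Fin.cast (by rw [h1]) x)
      else if h2 : k = i' then fun x => j2 (Fin.cast (by rw [h2]) x) else fun _ => z0,
      H.tree, by omega, by omega, Or.inl ⟨i, i', hii, hk, by omega⟩,
      Cen_mono hB' he' le_rfl (by omega), ?_, ?_, ?_⟩
    · intro k hkv
      rcases (hk k).mp hkv with rfl | rfl
      · intro x y hxy
        simp only [dif_pos] at hxy
        exact H.inj1 hxy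
      · intro x y hxy
        simp only [dif_neg hii.symm, dif_pos] at hxy
        exact H.inj2 hxy
    · intro k hkv x y hxy
      rcases (hk k).mp hkv with rfl | rfl
      · simp only [dif_pos]
        exact (H.adj _ _).mpr (Or.inl ⟨x, y, hxy, rfl, rfl⟩)
      · simp only [dif_neg hii.symm, dif_pos]
        exact (H.adj _ _).mpr (Or.inr ⟨x, y, hxy, rfl, rfl⟩)
    · intro k k' hkk hkv hkv' a b c d' hab hcd
      rcases (hk k).mp hkv with rfl | rfl
      · rcases (hk k').mp hkv' with rfl | rfl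
        · exact absurd rfl hkk
        · simp only [dif_neg hii.symm, dif_pos]
          exact mg_disj H a b c d' hab hcd
      · rcases (hk k').mp hkv' with rfl | rfl
        · simp only [dif_neg hii.symm, dif_pos]
          exact (mg_disj H c d' a b hcd hab).symm
        · exact absurd rfl hkk
  · have o1 := hF.ord i
    obtain ⟨B1, b1, l1, c1, c2, c3⟩ := one_tree hn hE hF he hd i (by omega)
    have hb1 : 1 ≤ B1.card := Finset.card_pos.mpr ⟨_, c2.mem⟩
    obtain ⟨B', hB'⟩ := cen_pad (R := 2 * C + 1) (T i) _ _ c2 (by omega) (by omega) (by omega)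
    have hll : l + (2 * C + 1) ≤ l1 := by
      by_contra hcon
      push Not at hcon
      have e1 : (C + 1) * l1 ≤ (C + 1) * (l + (2 * C + 1)) :=
        Nat.mul_le_mul_left _ (by omega)
      omega
    refine ⟨m i, T i, B', b1, fun k => if h1 : k = i then fun x => Fin.cast (by rw [h1]) x
      else fun _ => b1, hF.tree i, by omega, by omega, Or.inr ⟨i, hk, rfl⟩,
      Cen_mono hB' (by omega) le_rfl (by omega), ?_, ?_, ?_⟩
    · intro k hkv
      obtain rfl := (hk k).mp hkv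
      intro x y hxy
      simp only [dif_pos] at hxy
      exact hxy
    · intro k hkv x y hxy
      obtain rfl := (hk k).mp hkv
      simp only [dif_pos]
      exact hxy
    · intro k k' hkk hkv hkv'
      exact absurd (((hk k).mp hkv).trans ((hk k').mp hkv').symm) hkk

theorem packs (C : ℕ) : ∃ E n0 : ℕ, 2 ≤ E ∧ ∀ n, n0 ≤ n → ∀ (ι : Type) [Fintype ι]
    (m : ι → ℕ) (T : ∀ i, SimpleGraph (Fin (m i))), Fam n C E m T →
    ∑ i, (m i - 1) ≤ n * (2 * n + 1) → Pk n m T := by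
  classical
  obtain ⟨E', n0, hE', hcore⟩ := pack_core3 (2 * C + 1) (by omega)
  refine ⟨2 * (1000 * (C + 1)) * E', n0 + 1000 * (2 * C + 2) ^ 2, ?_, ?_⟩
  · have : 1 ≤ (1000 * (C + 1)) * E' := Nat.mul_pos (by omega) hE'
    calc 2 ≤ 2 * (1000 * (C + 1) * E') := by omega
      _ = _ := by ring
  intro n hn ι _ m T hF hsum
  have hE : 0 < 2 * (1000 * (C + 1)) * E' := Nat.mul_pos (by omega) hE'
  obtain ⟨e, he⟩ : ∃ e, e = n / (2 * (1000 * (C + 1)) * E') := ⟨_, rfl⟩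
  have hCn : 1000 * (2 * C + 2) ^ 2 ≤ n := by omega
  have hC1 : (2 * C + 2) ≤ (2 * C + 2) ^ 2 := Nat.le_self_pow (by omega) _
  have hn1 : 1 ≤ n := by omega
  have he1 : 2 * e ≤ n / E' := by
    rw [Nat.le_div_iff_mul_le hE', he]
    have h1 := Nat.mul_div_le n (2 * (1000 * (C + 1)) * E')
    have h2 : 2 * (n / (2 * (1000 * (C + 1)) * E')) * E' ≤
        2 * (1000 * (C + 1)) * E' * (n / (2 * (1000 * (C + 1)) * E')) := by
      obtain ⟨z, hz⟩ : ∃ z, z = n / (2 * (1000 * (C + 1)) * E') := ⟨_, rfl⟩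
      rw [← hz]
      calc 2 * z * E' = (z * E') * 2 * 1 := by ring
        _ ≤ (z * E') * 2 * (1000 * (C + 1)) := Nat.mul_le_mul_left _ (by omega)
        _ = _ := by ring
    omega
  have he2 : 2000 * ((C + 1) * e) ≤ n := by
    have h1 := Nat.mul_div_le n (2 * (1000 * (C + 1)) * E')
    rw [← he] at h1
    calc 2000 * ((C + 1) * e) = (2000 * (C + 1) * e) * 1 := by ring
      _ ≤ (2000 * (C + 1) * e) * E' := Nat.mul_le_mul_left _ hE'
      _ = 2 * (1000 * (C + 1)) * E' * e := by ring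
      _ ≤ n := h1
  have he3 : e ≤ (C + 1) * e := Nat.le_mul_of_pos_left _ (by omega)
  -- reduction
  obtain ⟨ι1, _, m1, T1, hF1, hsum1, hP1⟩ := fill hn1 m T hF hsum
  obtain ⟨ι2, _, m2, T2, hF2, hsum2, hS2, hP2⟩ := merge_all (Fintype.card ι1) ι1 m1 T1 rfl hF1
  rw [hsum1] at hsum2
  refine hP1 (hP2 ?_)
  obtain ⟨h, δ, Pr, hPr, hSi⟩ := homes n hn1 (fun i => m2 i - 1)
    (fun i => by have := hF2.ord i; omega) hS2 hsum2
  obtain ⟨d, hd⟩ : ∃ d, d = (n + 2 + 6 * (e + (C + 1))) / 2 := ⟨_, rfl⟩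
  obtain ⟨l, hl⟩ : ∃ l, l = n / (3 * (2 * C + 1)) + 1 := ⟨_, rfl⟩
  have hl1 : 3 * ((2 * C + 1) * (l - 1)) ≤ n := by
    have h1 := Nat.mul_div_le n (3 * (2 * C + 1))
    rw [hl, Nat.add_sub_cancel]
    calc 3 * ((2 * C + 1) * (n / (3 * (2 * C + 1)))) =
        3 * (2 * C + 1) * (n / (3 * (2 * C + 1))) := by ring
      _ ≤ n := h1
  have hl2 : n ≤ 3 * (2 * C + 1) * l := by
    have h1 := Nat.lt_mul_div_succ n (show 0 < 3 * (2 * C + 1) by omega)
    rw [hl]
    exact h1.le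
  have hl3 : 1 ≤ l := by rw [hl]; exact Nat.le_add_left _ _
  have hl4 : 2 * ((C + 1) * (l + (2 * C + 1)) + 6 * (e + (C + 1))) ≤ n := by
    obtain ⟨w, hw⟩ : ∃ w, l = w + 1 := ⟨l - 1, by omega⟩
    rw [hw, Nat.add_sub_cancel] at hl1
    have g1 : (C + 1) * w ≤ (2 * C + 1) * w := Nat.mul_le_mul_right _ (by omega)
    have g2 : (C + 1) * (l + (2 * C + 1)) = (C + 1) * w + 2 * (C + 1) ^ 2 := by
      rw [hw]; ring
    have g3 : (2 * C + 2) ^ 2 = 4 * (C + 1) ^ 2 := by ring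
    omega
  have hone : ∀ v : Fin (2 * n + 1), ∃ (mv : ℕ) (Tv : SimpleGraph (Fin mv))
      (B : Finset (Fin mv)) (b : Fin mv) (j : ∀ i, Fin (m2 i) → Fin mv), Tv.IsTree ∧
      n ≤ 2 * (mv - 1) ∧ mv ≤ 2 * n + 1 ∧
      ((∃ i i', i ≠ i' ∧ (∀ k, h k = v ↔ k = i ∨ k = i') ∧ mv - 1 = (m2 i - 1) + (m2 i' - 1)) ∨
        ∃ i, (∀ k, h k = v ↔ k = i) ∧ mv - 1 = m2 i - 1) ∧
      Cen Tv B b (2 * C + 1) (n / E') d l ∧
      (∀ i, h i = v → Function.Injective (j i)) ∧
      (∀ i, h i = v → ∀ x y, (T2 i).Adj x y → Tv.Adj (j i x) (j i y)) ∧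
      ∀ i i', i ≠ i' → h i = v → h i' = v → ∀ a b c d, (T2 i).Adj a b → (T2 i').Adj c d →
        s(j i a, j i b) ≠ s(j i' c, j i' d) := by
    intro v
    apply home_tree hn1 hE hF2 he he1 (by omega) (by omega) (by omega) hl4
    by_cases hv : v ∈ Pr
    · obtain ⟨i, i', h1, h2, h3, h4⟩ := hPr v hv
      exact Or.inl ⟨i, i', h1, h2, hS2 i i' h1⟩
    · obtain ⟨i, h1, h2, h3⟩ := hSi v hv
      exact Or.inr ⟨i, h1, h3⟩
  choose mv Tv B b j k1 k2 k3 k4 k5 k6 k7 k8 using hone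
  have hload : ∀ v, mv v - 1 = ∑ i ∈ univ.filter (fun i => h i = v), (m2 i - 1) := by
    intro v
    rcases k4 v with ⟨i, i', h1, h2, h3⟩ | ⟨i, h1, h2⟩
    · have : (univ.filter fun i => h i = v) = {i, i'} := by
        ext k
        simp [h2 k]
      rw [this, Finset.sum_pair h1, h3]
    · have : (univ.filter fun i => h i = v) = {i} := by
        ext k
        simp [h1 k]
      rw [this, Finset.sum_singleton, h2]
  have hsumv : ∑ v, (mv v - 1) = n * (2 * n + 1) := by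
    rw [← hsum2, ← Finset.sum_fiberwise (s := univ) (g := h) (f := fun i => m2 i - 1)]
    exact Finset.sum_congr rfl fun v _ => hload v
  have hlan : ∀ A : Finset (Fin (2 * n + 1)), 2 * n * A.card ^ 2 ≤
      (A.card + (2 * n + 1)) * ∑ v ∈ A, (2 * n - (mv v - 1)) := by
    intro A
    refine landau n δ (Fintype.card_fin _) (fun v => mv v - 1) hsumv Pr ?_ ?_ A
    · intro v hv
      obtain ⟨i, i', h1, h2, h3, h4⟩ := hPr v hv
      have h5 : (univ.filter fun i => h i = v) = {i, i'} := by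
        ext k
        simp [h2 k]
      have h6 := hload v
      rw [h5, Finset.sum_pair h1] at h6
      have h7 := hS2 i i' h1
      show n ≤ mv v - 1 ∧ mv v - 1 + 2 * δ ≤ 2 * n
      omega
    · intro v hv
      obtain ⟨i, h1, h2, h3⟩ := hSi v hv
      have h5 : (univ.filter fun i => h i = v) = {i} := by
        ext k
        simp [h1 k]
      have h6 := hload v
      rw [h5, Finset.sum_singleton] at h6
      have h7 := hF2.ord i
      show mv v - 1 ≤ n ∧ n ≤ mv v - 1 + δ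
      omega
  obtain ⟨F, hF1', hF2'⟩ := hcore n (by omega) (Fin (2 * n + 1)) (Fintype.card_fin _) mv Tv B b
    d l k1 k2 k3 hsumv hlan (by omega) hl2 k5
  · refine ⟨fun i x => F (h i) (j (h i) i x), ?_, ?_⟩
    · intro i
      exact (hF1' (h i)).comp (k6 (h i) i rfl)
    · intro i i' hii a b' c d' hab hcd
      by_cases hh : h i = h i'
      · intro hcon
        have h1 := k8 (h i) i i' hii rfl hh.symm a b' c d' hab hcd
        have h2 : ∀ z : Fin (m2 i'), F (h i') (j (h i') i' z) = F (h i) (j (h i) i' z) := by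
          intro z; rw [hh]
        change s(F (h i) (j (h i) i a), F (h i) (j (h i) i b')) =
          s(F (h i') (j (h i') i' c), F (h i') (j (h i') i' d')) at hcon
        rw [h2, h2, Sym2.eq_iff] at hcon
        apply h1
        rw [Sym2.eq_iff]
        rcases hcon with ⟨g1, g2⟩ | ⟨g1, g2⟩
        · exact Or.inl ⟨hF1' _ g1, hF1' _ g2⟩
        · exact Or.inr ⟨hF1' _ g1, hF1' _ g2⟩
      · exact hF2' (h i) (h i') hh _ _ _ _ (k7 (h i) i rfl a b' hab) (k7 (h i') i' rfl c d' hcd)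

end Pool.Agent.GT
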