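import Pool.Agent.Lib.MP_80c395_co_GT.MgDef

/-!
# MP_80c395_co, project GT: union of two trees with one common vertex, existence
-/

set_option autoImplicit false

open Finset

namespace Pool.Agent.GT

/-- the union of two graphs which are mapped into the same set -/
private def mgG {m1 m2 m : ℕ} (T1 : SimpleGraph (Fin m1)) (T2 : SimpleGraph (Fin m2))
    (j1 : Fin m1 → Fin m) (j2 : Fin m2 → Fin m) (h1 : Function.Injective j1)
    (h2 : Function.Injective j2) : SimpleGraph (Fin m) where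
  Adj u w := (∃ x y, T1.Adj x y ∧ u = j1 x ∧ w = j1 y) ∨
    ∃ x y, T2.Adj x y ∧ u = j2 x ∧ w = j2 y
  symm := ⟨by
    rintro u w (⟨x, y, h, hu, hw⟩ | ⟨x, y, h, hu, hw⟩)
    · exact Or.inl ⟨y, x, h.symm, hw, hu⟩
    · exact Or.inr ⟨y, x, h.symm, hw, hu⟩⟩
  loopless := ⟨by
    rintro u (⟨x, y, h, hu, hw⟩ | ⟨x, y, h, hu, hw⟩)
    · exact h.ne (h1 (hu.symm.trans hw))
    · exact h.ne (h2 (hu.symm.trans hw))⟩

private theorem mgG_tree {m1 m2 m : ℕ} (T1 : SimpleGraph (Fin m1)) (T2 : SimpleGraph (Fin m2))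
    (hT1 : T1.IsTree) (hT2 : T2.IsTree) (b1 : Fin m1) (b2 : Fin m2)
    (j1 : Fin m1 → Fin m) (j2 : Fin m2 → Fin m) (h1 : Function.Injective j1)
    (h2 : Function.Injective j2) (hc : j1 b1 = j2 b2) (hm : m + 1 = m1 + m2)
    (cov : ∀ z, (∃ x, j1 x = z) ∨ ∃ y, j2 y = z) : (mgG T1 T2 j1 j2 h1 h2).IsTree := by
  classical
  rw [SimpleGraph.isTree_iff_connected_and_card]
  have hcon : (mgG T1 T2 j1 j2 h1 h2).Connected := by
    rw [SimpleGraph.connected_iff_exists_forall_reachable]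
    refine ⟨j1 b1, ?_⟩
    intro z
    rcases cov z with ⟨x, rfl⟩ | ⟨y, rfl⟩
    · let g : T1 →g mgG T1 T2 j1 j2 h1 h2 := ⟨j1, fun {x y} h => Or.inl ⟨x, y, h, rfl, rfl⟩⟩
      exact (hT1.connected.preconnected b1 x).map g
    · rw [hc]
      let g : T2 →g mgG T1 T2 j1 j2 h1 h2 := ⟨j2, fun {x y} h => Or.inr ⟨x, y, h, rfl, rfl⟩⟩
      exact (hT2.connected.preconnected b2 y).map g
  refine ⟨hcon, ?_⟩
  have g1 := hcon.card_vert_le_card_edgeSet_add_one
  have g2 := (SimpleGraph.isTree_iff_connected_and_card.mp hT1).2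
  have g3 := (SimpleGraph.isTree_iff_connected_and_card.mp hT2).2
  have g4 : (mgG T1 T2 j1 j2 h1 h2).edgeSet ⊆ (Sym2.map j1 '' T1.edgeSet) ∪
      (Sym2.map j2 '' T2.edgeSet) := by
    intro ed hed
    induction ed using Sym2.ind with
    | _ x y =>
      rw [SimpleGraph.mem_edgeSet] at hed
      rcases hed with ⟨x', y', h, h1, h2⟩ | ⟨x', y', h, h1, h2⟩
      · left
        exact ⟨s(x', y'), h, by rw [Sym2.map_mk, h1, h2]⟩
      · right
        exact ⟨s(x', y'), h, by rw [Sym2.map_mk, h1, h2]⟩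
  have g5 := Set.ncard_le_ncard g4 (Set.toFinite _)
  have g6 := Set.ncard_union_le (Sym2.map j1 '' T1.edgeSet) (Sym2.map j2 '' T2.edgeSet)
  have g7 := Set.ncard_image_le (f := Sym2.map j1) (Set.toFinite T1.edgeSet)
  have g8 := Set.ncard_image_le (f := Sym2.map j2) (Set.toFinite T2.edgeSet)
  simp only [Nat.card_fin, Nat.card_coe_set_eq] at g1 g2 g3 ⊢
  omega

theorem exists_mg {m1 m2 : ℕ} (T1 : SimpleGraph (Fin m1)) (T2 : SimpleGraph (Fin m2))
    (h1 : T1.IsTree) (h2 : T2.IsTree) (b1 : Fin m1) (b2 : Fin m2) :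
    ∃ (m : ℕ) (T : SimpleGraph (Fin m)) (j1 : Fin m1 → Fin m) (j2 : Fin m2 → Fin m),
      Mg T1 T2 b1 b2 T j1 j2 := by
  classical
  let A := Fin m1 ⊕ {y : Fin m2 // y ≠ b2}
  let e : A ≃ Fin (Fintype.card A) := Fintype.equivFin A
  have hcard : Fintype.card A + 1 = m1 + m2 := by
    have h3 : Fintype.card {y : Fin m2 // y ≠ b2} = m2 - 1 := by
      rw [Fintype.card_subtype_compl, Fintype.card_fin, Fintype.card_subtype_eq]
    have h4 : 0 < m2 := b2.pos
    show Fintype.card (Fin m1 ⊕ {y : Fin m2 // y ≠ b2}) + 1 = m1 + m2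
    rw [Fintype.card_sum, Fintype.card_fin, h3]
    omega
  let k2 : Fin m2 → A := fun y => if h : y = b2 then Sum.inl b1 else Sum.inr ⟨y, h⟩
  have hk1 : k2 b2 = Sum.inl b1 := dif_pos rfl
  have hk2 : ∀ y (h : y ≠ b2), k2 y = Sum.inr ⟨y, h⟩ := fun y h => dif_neg h
  let j1 : Fin m1 → Fin (Fintype.card A) := fun x => e (Sum.inl x)
  let j2 : Fin m2 → Fin (Fintype.card A) := fun y => e (k2 y)
  have hj1 : Function.Injective j1 := fun x y h => Sum.inl_injective (e.injective h)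
  have hj2 : Function.Injective j2 := by
    intro x y h
    have h3 : k2 x = k2 y := e.injective h
    by_cases hx : x = b2 <;> by_cases hy : y = b2
    · rw [hx, hy]
    · rw [hx, hk1, hk2 y hy] at h3
      exact absurd h3 (by simp)
    · rw [hy, hk1, hk2 x hx] at h3
      exact absurd h3 (by simp)
    · rw [hk2 x hx, hk2 y hy] at h3
      exact congrArg Subtype.val (Sum.inr_injective h3)
  have hc : j1 b1 = j2 b2 := by
    show e (Sum.inl b1) = e (k2 b2)
    rw [hk1]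
  have hcov : ∀ z, (∃ x, j1 x = z) ∨ ∃ y, j2 y = z := by
    intro z
    rcases hz : e.symm z with x | y
    · left
      exact ⟨x, by rw [← e.apply_symm_apply z, hz]⟩
    · right
      refine ⟨y.1, ?_⟩
      show e (k2 y.1) = z
      rw [hk2 y.1 y.2, ← e.apply_symm_apply z, hz]
  refine ⟨Fintype.card A, mgG T1 T2 j1 j2 hj1 hj2, j1, j2, hcard,
    mgG_tree T1 T2 h1 h2 b1 b2 j1 j2 hj1 hj2 hc hcard hcov, hj1, hj2, hc, ?_, hcov,
    fun u w => Iff.rfl⟩
  intro x y h
  have h3 : (Sum.inl x : A) = k2 y := e.injective h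
  by_cases hy : y = b2
  · rw [hy, hk1] at h3
    exact ⟨Sum.inl_injective h3, hy⟩
  · rw [hk2 y hy] at h3
    exact absurd h3 (by simp)

end Pool.Agent.GT
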