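import Pool.Agent.Lib.MP_80c395_co_GT.DefsG

/-!
# MP_80c395_co, project GT: union of two trees with one common vertex, definition
-/

set_option autoImplicit false

open Finset

namespace Pool.Agent.GT

/-- `T` is the union of the trees `T1` and `T2` with the common vertex `b1 = b2` -/
structure Mg {m1 m2 m : ℕ} (T1 : SimpleGraph (Fin m1)) (T2 : SimpleGraph (Fin m2))
    (b1 : Fin m1) (b2 : Fin m2) (T : SimpleGraph (Fin m)) (j1 : Fin m1 → Fin m)
    (j2 : Fin m2 → Fin m) : Prop where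
  size : m + 1 = m1 + m2
  tree : T.IsTree
  inj1 : Function.Injective j1
  inj2 : Function.Injective j2
  com : j1 b1 = j2 b2
  only : ∀ x y, j1 x = j2 y → x = b1 ∧ y = b2
  cov : ∀ z, (∃ x, j1 x = z) ∨ ∃ y, j2 y = z
  adj : ∀ u w, T.Adj u w ↔ (∃ x y, T1.Adj x y ∧ u = j1 x ∧ w = j1 y) ∨
    ∃ x y, T2.Adj x y ∧ u = j2 x ∧ w = j2 y

end Pool.Agent.GT
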